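import Pool.Agent.Lib_MP_33f7bb_an.CCA

/-! Piece CCB: covering dimension of polyhedral sets. -/

open Set Filter Topology

namespace SMD

/-- PROOF. Let `U` be a finite open cover of the compact metric space `S` (if `S` is empty trivial),
`λ > 0` a Lebesgue number (`lebesgue_number_lemma_of_metric`); take `colored_cover` for `δ = λ / 2`
and the sets `O i ∩ S` (those which are nonempty, the other ones can be kept only if they lie in
some `U`; use the index type `{i // (O i ∩ S).Nonempty}`).  Each is contained in a ball of radius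
`λ` around one of its points, hence in some `U`.  A point lies in at most one set of each colour. -/
theorem covDimLE_of_poly {κ : Type} [Fintype κ] {S : Set (κ → ℝ)} {r : ℕ} (hS : IsCompact S)
    (h : PolyDimLE S r) : CovDimLE S r := by
  intro ι _ U hU hcov
  have hSc : CompactSpace S := isCompact_iff_compactSpace.1 hS
  obtain ⟨lam, hl, hleb⟩ := lebesgue_number_lemma_of_metric (isCompact_univ : IsCompact (univ : Set S)) hU (by rw [hcov])
  obtain ⟨I, hI, col, O, hO, hSO, hdis, hdist⟩ := colored_cover hS h (show 0 < lam / 2 by linarith)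
  refine ⟨{i : I // (O i ∩ S).Nonempty}, inferInstance, fun i => Subtype.val ⁻¹' (O i.1), ?_, ?_, ?_, ?_⟩
  · intro i
    exact (hO i.1).preimage continuous_subtype_val
  · ext x
    simp only [mem_iUnion, mem_preimage, mem_univ, iff_true]
    have hx := hSO x.2
    rw [mem_iUnion] at hx
    obtain ⟨i, hi⟩ := hx
    exact ⟨⟨i, x.1, hi, x.2⟩, hi⟩
  · rintro ⟨i, z, hz, hzS⟩
    obtain ⟨j, hj⟩ := hleb ⟨z, hzS⟩ (mem_univ _)
    refine ⟨j, fun y hy => hj ?_⟩
    rw [Metric.mem_ball, Subtype.dist_eq]
    have := hdist i y.1 hy z hz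
    linarith
  · intro x
    have hinj : InjOn (fun k : {i : I // (O i ∩ S).Nonempty} => col k.1) {k | x ∈ Subtype.val ⁻¹' (O k.1)} := by
      intro k hk k' hk' he
      by_contra hne
      have hd := hdis k.1 k'.1 (fun h => hne (Subtype.ext h)) he
      exact Set.disjoint_left.1 hd hk hk'
    rw [← Set.InjOn.ncard_image hinj]
    calc _ ≤ (univ : Set (Fin (r + 1))).ncard := Set.ncard_le_ncard (subset_univ _) finite_univ
      _ = r + 1 := by rw [Set.ncard_univ, Nat.card_eq_fintype_card, Fintype.card_fin]

end SMD
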