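import Pool.Agent.Lib_MP_33f7bb_an.GEN

/-! Piece CCA: coloured covers of polyhedral sets by small open boxes. -/

open Set Filter Topology

namespace SMD

namespace CCAAux

/-- distance to the integers -/
noncomputable def dZ (t : ℝ) : ℝ := Metric.infDist t (range ((↑) : ℤ → ℝ))

lemma dZ_cont : Continuous dZ := Metric.continuous_infDist_pt _

lemma dZ_nonneg (t : ℝ) : 0 ≤ dZ t := Metric.infDist_nonneg

lemma dZ_lt {t b : ℝ} (h : dZ t < b) : ∃ z : ℤ, |t - z| < b := by
  obtain ⟨y, ⟨z, rfl⟩, hz⟩ := (Metric.infDist_lt_iff (range_nonempty _)).1 h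
  exact ⟨z, by rwa [Real.dist_eq] at hz⟩

lemma dZ_le (t : ℝ) (z : ℤ) : dZ t ≤ |t - z| := by
  rw [← Real.dist_eq]
  exact Metric.infDist_le_dist_of_mem ⟨z, rfl⟩

lemma dZ_floor {t b : ℝ} (h : b < dZ t) : (⌊t⌋ : ℝ) + b < t ∧ t < ⌊t⌋ + 1 - b := by
  have h1 := dZ_le t ⌊t⌋
  have h2 := dZ_le t (⌊t⌋ + 1)
  rw [abs_of_nonneg (by linarith [Int.floor_le t])] at h1
  push_cast at h2
  rw [abs_of_neg (by linarith [Int.lt_floor_add_one t])] at h2
  constructor <;> linarith

lemma dZ_zero {t : ℝ} (h : dZ t = 0) : ∃ z : ℤ, t = z := by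
  have h1 : t ∈ closure (range ((↑) : ℤ → ℝ)) :=
    (Metric.mem_closure_iff_infDist_zero (range_nonempty _)).2 h
  rw [Int.isClosedEmbedding_coe_real.isClosed_range.closure_eq] at h1
  obtain ⟨z, hz⟩ := h1
  exact ⟨z, hz.symm⟩

/-- combinatorial lemma: some level `i ≤ r` has exactly `i` indices below, and none at the level. -/
lemma level {κ : Type} [Fintype κ] (d : κ → ℝ) (r : ℕ) (β : ℕ → ℝ) (hβ : StrictMono β)
    (h : (Finset.univ.filter fun l => d l ≤ β r).card ≤ r) :
    ∃ i ≤ r, (Finset.univ.filter fun l => d l < β i).card = i ∧ ∀ l, β i ≤ d l → β i < d l := by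
  classical
  by_contra hcon
  push Not at hcon
  have key : ∀ k ≤ r, (Finset.univ.filter fun l => d l ≤ β (r - k)).card ≤ r - k →
      (Finset.univ.filter fun l => d l < β (r - k)).card < r - k := by
    intro k hk h1
    by_contra h2
    push Not at h2
    have hsub : (Finset.univ.filter fun l => d l < β (r - k)) ⊆
        (Finset.univ.filter fun l => d l ≤ β (r - k)) := by
      intro l hl
      simp only [Finset.mem_filter, Finset.mem_univ, true_and] at hl ⊢
      exact hl.le
    have h3 := Finset.card_le_card hsub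
    have h4 : (Finset.univ.filter fun l => d l < β (r - k)).card = r - k := by omega
    have h5 := Finset.eq_of_subset_of_card_le hsub (by omega)
    obtain ⟨l, hl1, hl2⟩ := hcon (r - k) (by omega) h4
    have h6 : l ∈ (Finset.univ.filter fun l => d l ≤ β (r - k)) := by simpa using hl2
    rw [← h5] at h6
    simp only [Finset.mem_filter, Finset.mem_univ, true_and] at h6
    linarith
  have all : ∀ k ≤ r, (Finset.univ.filter fun l => d l < β (r - k)).card < r - k := by
    intro k
    induction k with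
    | zero => intro hk; exact key 0 hk (by simpa using h)
    | succ k ih =>
      intro hk
      apply key (k + 1) hk
      have h1 := ih (by omega)
      have h2 : (Finset.univ.filter fun l => d l ≤ β (r - (k + 1))) ⊆
          (Finset.univ.filter fun l => d l < β (r - k)) := by
        intro l hl
        simp only [Finset.mem_filter, Finset.mem_univ, true_and] at hl ⊢
        exact lt_of_le_of_lt hl (hβ (by omega))
      have h3 := Finset.card_le_card h2
      omega
  have := all r le_rfl
  omega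

end CCAAux

open CCAAux

/-- PROOF. Take `v` from `generic_shift` and put `y l = (x l - v l) / δ`; for `x ∈ S` at most `r` of the
`y l` are integers.  Let `d l x` be the distance from `y l` to the nearest integer (continuous).
By compactness there is `η ∈ (0, 1/2)` such that for all `x ∈ S` at most `r` of the `d l x` are
`≤ η` (for each `J` with `#J = r + 1` the continuous function `x ↦ ∑ l ∈ J, d l x` (or the max) is
positive on the compact `S`).  Choose `0 < β 0 < β 1 < ... < β r < η`.  For `i ≤ r`, `J` with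
`#J = i` and `a : κ → ℤ` let `O (i, J, a) = {x | (∀ l ∈ J, |y l - a l| < β i) ∧
∀ l ∉ J, a l + β i < y l ∧ y l < a l + 1 - β i}`, an open box with sides `≤ δ`.  For the same `i` two
different boxes are disjoint.  They cover `S`: let `n⁻ i = #{l | d l x < β i}`,
`n⁺ i = #{l | d l x ≤ β i}`; if no `i` had `n⁻ i = n⁺ i = i` then one shows by descending induction
`n⁻ i ≤ i - 1` for `i = r, ..., 0` (`n⁺ r ≤ r`; `n⁺ i ≤ n⁻ (i + 1) ≤ i`), absurd for `i = 0`; and if
`n⁻ i = n⁺ i = i` then `x ∈ O (i, J, a)` for `J = {l | d l x < β i}` and the obvious `a`.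
Only finitely many `a` matter (`S` is bounded). -/
theorem colored_cover {κ : Type} [Fintype κ] {S : Set (κ → ℝ)} {r : ℕ} (hS : IsCompact S)
    (h : PolyDimLE S r) {δ : ℝ} (hδ : 0 < δ) :
    ∃ (I : Type) (_ : Fintype I) (col : I → Fin (r + 1)) (O : I → Set (κ → ℝ)),
      (∀ i, IsOpen (O i)) ∧ S ⊆ ⋃ i, O i ∧
      (∀ i i', i ≠ i' → col i = col i' → Disjoint (O i) (O i')) ∧
      ∀ i, ∀ x ∈ O i, ∀ y ∈ O i, dist x y ≤ δ := by
  classical
  obtain ⟨v, hv⟩ := generic_shift h δ
  set y : κ → (κ → ℝ) → ℝ := fun l x => (x l - v l) / δ with hy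
  have yc : ∀ l, Continuous (y l) := fun l => by rw [hy]; fun_prop
  have hzero : ∀ x ∈ S, (Finset.univ.filter fun l => dZ (y l x) = 0).card ≤ r := by
    intro x hx
    have h1 := hv x hx
    refine le_trans ?_ h1
    rw [← Set.ncard_coe_finset]
    apply Set.ncard_le_ncard _ (Set.toFinite _)
    intro l hl
    simp only [Finset.coe_filter, Finset.mem_univ, true_and, mem_setOf_eq] at hl
    obtain ⟨z, hz⟩ := dZ_zero hl
    refine ⟨z, ?_⟩
    rw [hy] at hz
    simp only at hz
    rw [div_eq_iff hδ.ne'] at hz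
    linarith
  -- the uniform gap
  have hη : ∃ η : ℝ, 0 < η ∧ η < 1 / 2 ∧
      ∀ x ∈ S, (Finset.univ.filter fun l => dZ (y l x) ≤ η).card ≤ r := by
    have h1 : ∀ J : Finset κ, ∀ᶠ η : ℝ in 𝓝[>] 0, J.card = r + 1 →
        ∀ x ∈ S, ∃ l ∈ J, η < dZ (y l x) := by
      intro J
      by_cases hJ : J.card = r + 1
      swap
      · exact Eventually.of_forall fun η h => absurd h hJ
      rcases S.eq_empty_or_nonempty with hE | hne
      · exact Eventually.of_forall fun η _ x hx => by simp [hE] at hx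
      obtain ⟨x₀, hx₀, hmin⟩ := hS.exists_isMinOn hne
        (f := fun x => ∑ l ∈ J, dZ (y l x))
        (continuous_finset_sum _ fun l _ => dZ_cont.comp (yc l)).continuousOn
      have hpos : 0 < ∑ l ∈ J, dZ (y l x₀) := by
        rcases (Finset.sum_nonneg fun l (_ : l ∈ J) => dZ_nonneg (y l x₀)).lt_or_eq with h | h
        · exact h
        · exfalso
          have h2 := (Finset.sum_eq_zero_iff_of_nonneg fun l (_ : l ∈ J) =>
            dZ_nonneg (y l x₀)).1 h.symm
          have h3 := hzero x₀ hx₀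
          have h4 : J ⊆ Finset.univ.filter fun l => dZ (y l x₀) = 0 := by
            intro l hl
            simpa using h2 l hl
          have := Finset.card_le_card h4
          omega
      have hJpos : (0 : ℝ) < r + 2 := by positivity
      have h5 : ∀ᶠ η : ℝ in 𝓝[>] 0, η < (∑ l ∈ J, dZ (y l x₀)) / (r + 2) :=
        mem_nhdsWithin_of_mem_nhds (Iio_mem_nhds (by positivity))
      filter_upwards [h5, self_mem_nhdsWithin] with η hη hη0 _ x hx
      by_contra hcon
      push Not at hcon
      have h6 : ∑ l ∈ J, dZ (y l x) ≤ ∑ l ∈ J, η := Finset.sum_le_sum fun l hl => hcon l hl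
      rw [Finset.sum_const, hJ, nsmul_eq_mul] at h6
      have h7 : ∑ l ∈ J, dZ (y l x₀) ≤ ∑ l ∈ J, dZ (y l x) := hmin hx
      rw [lt_div_iff₀ hJpos] at hη
      push_cast at h6
      have : (0 : ℝ) < η := hη0
      nlinarith
    have h2 := Filter.eventually_all.2 h1
    have h3 : ∀ᶠ η : ℝ in 𝓝[>] 0, η < 1 / 2 :=
      mem_nhdsWithin_of_mem_nhds (Iio_mem_nhds (by norm_num))
    obtain ⟨η, h4, h5, h6⟩ := (h2.and (h3.and self_mem_nhdsWithin)).exists
    refine ⟨η, h6, h5, fun x hx => ?_⟩
    by_contra hcon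
    push Not at hcon
    obtain ⟨J, hJ1, hJ2⟩ := Finset.exists_subset_card_eq (Nat.succ_le_of_lt hcon)
    obtain ⟨l, hl, hl2⟩ := h4 J (by omega) x hx
    have := hJ1 hl
    simp only [Finset.mem_filter, Finset.mem_univ, true_and] at this
    linarith
  obtain ⟨η, hη0, hη1, hη2⟩ := hη
  set β : ℕ → ℝ := fun i => η * (1 - 1 / (i + 2)) with hβ
  have hβm : StrictMono β := by
    apply strictMono_nat_of_lt_succ
    intro i
    rw [hβ]
    simp only
    have h1 : (1 : ℝ) / ((i + 1 : ℕ) + 2) < 1 / (i + 2) := by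
      apply one_div_lt_one_div_of_lt (by positivity)
      push_cast
      linarith
    nlinarith
  have hβ0 : ∀ i, 0 < β i := by
    intro i
    rw [hβ]
    have h1 : (1 : ℝ) / (i + 2) < 1 := by
      rw [div_lt_one (by positivity)]
      have : (0 : ℝ) ≤ i := Nat.cast_nonneg i
      linarith
    have h2 : 0 < 1 - (1 : ℝ) / (i + 2) := by linarith
    simp only
    positivity
  have hβη : ∀ i, β i < η := by
    intro i
    rw [hβ]
    have h1 : (0 : ℝ) < 1 / (i + 2) := by positivity
    simp only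
    nlinarith
  obtain ⟨R, hR⟩ : ∃ R : ℝ, ∀ x ∈ S, ∀ l, |y l x| ≤ R := by
    have h1 : ∀ l, ∃ C, ∀ x ∈ S, |y l x| ≤ C := by
      intro l
      obtain ⟨C, hC⟩ := hS.exists_bound_of_continuousOn (yc l).continuousOn
      exact ⟨C, fun x hx => by simpa using hC x hx⟩
    choose C hC using h1
    refine ⟨∑ l, |C l|, fun x hx l => ?_⟩
    calc |y l x| ≤ C l := hC l x hx
      _ ≤ |C l| := le_abs_self _
      _ ≤ ∑ l, |C l| := Finset.single_le_sum (f := fun l => |C l|) (fun l _ => abs_nonneg _)
          (Finset.mem_univ l)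
  set N : ℤ := ⌈R⌉ + 1 with hN
  have hNR : R + 1 ≤ (N : ℝ) := by
    rw [hN]; push_cast; linarith [Int.le_ceil R]
  refine ⟨Fin (r + 1) × Finset κ × (κ → (Finset.Icc (-N) N : Finset ℤ)), inferInstance,
    fun p => p.1, fun p => {x | p.2.1.card = p.1 ∧ (∀ l ∈ p.2.1, |y l x - (p.2.2 l : ℤ)| < β p.1) ∧
      ∀ l ∉ p.2.1, ((p.2.2 l : ℤ) : ℝ) + β p.1 < y l x ∧ y l x < (p.2.2 l : ℤ) + 1 - β p.1},
      ?_, ?_, ?_, ?_⟩
  · rintro ⟨i, J, a⟩
    refine isOpen_const.and (IsOpen.and ?_ ?_)
    · have : {x | ∀ l ∈ J, |y l x - ((a l : ℤ) : ℝ)| < β i} =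
          ⋂ l, ⋂ _ : l ∈ J, {x | |y l x - ((a l : ℤ) : ℝ)| < β i} := by
        ext x; simp
      simp only
      rw [this]
      exact isOpen_iInter_of_finite fun l => isOpen_iInter_of_finite fun _ =>
        isOpen_lt ((yc l).sub continuous_const).abs continuous_const
    · have : {x | ∀ l ∉ J, ((a l : ℤ) : ℝ) + β i < y l x ∧ y l x < (a l : ℤ) + 1 - β i} =
          ⋂ l, ⋂ _ : l ∉ J, {x | ((a l : ℤ) : ℝ) + β i < y l x ∧ y l x < (a l : ℤ) + 1 - β i} := by
        ext x; simp
      simp only
      rw [this]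
      exact isOpen_iInter_of_finite fun l => isOpen_iInter_of_finite fun _ =>
        (isOpen_lt continuous_const (yc l)).and (isOpen_lt (yc l) continuous_const)
  · intro x hx
    obtain ⟨i, hi, hc, hb⟩ := level (fun l => dZ (y l x)) r β hβm (by
      refine le_trans (Finset.card_le_card ?_) (hη2 x hx)
      intro l hl
      simp only [Finset.mem_filter, Finset.mem_univ, true_and] at hl ⊢
      exact hl.trans (hβη r).le)
    have ha : ∀ l, ∃ z : ℤ, z ∈ Finset.Icc (-N) N ∧ (dZ (y l x) < β i → |y l x - z| < β i) ∧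
        (β i ≤ dZ (y l x) → (z : ℝ) + β i < y l x ∧ y l x < z + 1 - β i) := by
      intro l
      have hRl := abs_le.1 (hR x hx l)
      rcases lt_or_ge (dZ (y l x)) (β i) with h1 | h1
      · obtain ⟨z, hz⟩ := dZ_lt h1
        refine ⟨z, ?_, fun _ => hz, fun h2 => absurd h2 (not_le.2 h1)⟩
        have hz2 := abs_lt.1 hz
        have := hβη i
        rw [Finset.mem_Icc]
        constructor
        · have : (((-N : ℤ)) : ℝ) ≤ z := by push_cast; linarith
          exact_mod_cast this
        · have : (z : ℝ) ≤ N := by linarith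
          exact_mod_cast this
      · have h2 := hb l h1
        have h3 := dZ_floor h2
        refine ⟨⌊y l x⌋, ?_, fun h4 => absurd h4 (not_lt.2 h1), fun _ => h3⟩
        have := hβ0 i
        rw [Finset.mem_Icc]
        constructor
        · have : (((-N : ℤ)) : ℝ) ≤ ⌊y l x⌋ := by
            push_cast; linarith [Int.lt_floor_add_one (y l x)]
          exact_mod_cast this
        · have : (⌊y l x⌋ : ℝ) ≤ N := by linarith
          exact_mod_cast this
    choose a ha1 ha2 ha3 using ha
    refine mem_iUnion.2 ⟨(⟨i, by omega⟩, Finset.univ.filter fun l => dZ (y l x) < β i,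
      fun l => ⟨a l, ha1 l⟩), ?_⟩
    refine ⟨hc, fun l hl => ?_, fun l hl => ?_⟩
    · simp only [Finset.mem_filter, Finset.mem_univ, true_and] at hl
      exact ha2 l hl
    · simp only [Finset.mem_filter, Finset.mem_univ, true_and, not_lt] at hl
      exact ha3 l hl
  · rintro ⟨i, J, a⟩ ⟨i', J', a'⟩ hne hcol
    simp only at hcol
    subst hcol
    rw [Set.disjoint_left]
    rintro x ⟨h1, h2, h3⟩ ⟨h1', h2', h3'⟩
    simp only at h1 h2 h3 h1' h2' h3'
    apply hne
    have hb0 := hβ0 i
    have hbη := hβη i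
    have hJ : ∀ (J J' : Finset κ) (a a' : κ → (Finset.Icc (-N) N : Finset ℤ)),
        (∀ l ∈ J, |y l x - (a l : ℤ)| < β i) →
        (∀ l ∉ J', ((a' l : ℤ) : ℝ) + β i < y l x ∧ y l x < (a' l : ℤ) + 1 - β i) → J ⊆ J' := by
      intro J J' a a' h2 h3 l hl
      by_contra hl'
      have h4 := abs_lt.1 (h2 l hl)
      have h5 := h3 l hl'
      rcases le_or_gt (a l : ℤ) (a' l : ℤ) with h6 | h6
      · have h7 : ((a l : ℤ) : ℝ) ≤ (a' l : ℤ) := by exact_mod_cast h6
        linarith
      · have h7 : ((a' l : ℤ) : ℝ) + 1 ≤ (a l : ℤ) := by exact_mod_cast h6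
        linarith
    have hJJ : J = J' := Finset.Subset.antisymm (hJ J J' a a' h2 h3') (hJ J' J a' a h2' h3)
    subst hJJ
    have haa : a = a' := by
      funext l
      apply Subtype.ext
      by_cases hl : l ∈ J
      · have h4 := abs_lt.1 (h2 l hl)
        have h5 := abs_lt.1 (h2' l hl)
        have h6 : ((a l : ℤ) : ℝ) < (a' l : ℤ) + 1 := by linarith
        have h7 : ((a' l : ℤ) : ℝ) < (a l : ℤ) + 1 := by linarith
        have h8 : (a l : ℤ) < (a' l : ℤ) + 1 := by exact_mod_cast h6
        have h9 : (a' l : ℤ) < (a l : ℤ) + 1 := by exact_mod_cast h7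
        omega
      · have h4 := h3 l hl
        have h5 := h3' l hl
        have h6 : ((a l : ℤ) : ℝ) < (a' l : ℤ) + 1 := by linarith
        have h7 : ((a' l : ℤ) : ℝ) < (a l : ℤ) + 1 := by linarith
        have h8 : (a l : ℤ) < (a' l : ℤ) + 1 := by exact_mod_cast h6
        have h9 : (a' l : ℤ) < (a l : ℤ) + 1 := by exact_mod_cast h7
        omega
    rw [haa]
  · rintro ⟨i, J, a⟩ x ⟨h1, h2, h3⟩ x' ⟨h1', h2', h3'⟩
    simp only at h1 h2 h3 h1' h2' h3'
    have hb0 := hβ0 i
    have hbη := hβη i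
    rw [dist_pi_le_iff hδ.le]
    intro l
    have h4 : |y l x - y l x'| ≤ 1 := by
      rw [abs_le]
      by_cases hl : l ∈ J
      · have h4 := abs_lt.1 (h2 l hl)
        have h5 := abs_lt.1 (h2' l hl)
        constructor <;> linarith
      · have h4 := h3 l hl
        have h5 := h3' l hl
        constructor <;> linarith
    have h5 : y l x - y l x' = (x l - x' l) / δ := by
      rw [hy]; simp only; ring
    rw [h5, abs_div, abs_of_pos hδ, div_le_one hδ] at h4
    rwa [Real.dist_eq]

end SMD
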