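import Pool.Agent.Lib_MP_33f7bb_an.CC

/-! Piece COLB: Widim. -/

open Set Filter Topology

namespace SMD

/-- PROOF. `P = range g` (a compact subspace of `κ → ℝ`), `covDimLE_of_poly`.  The fibres of `g`
restricted to `Z` are contained in fibres of `g`, which are compact with all distances `< ε`, so
of diameter `< ε` (the diameter of a nonempty compact set is attained; the empty set has
diameter `0 < ε`). -/
theorem widimLE_of_PM {Y : Type*} [MetricSpace Y] [CompactSpace Y] {ε : ℝ} (hε : 0 < ε) {r : ℕ}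
    (h : PM Y ε r) (Z : Set Y) : WidimLE ε Z r := by
  obtain ⟨κ, i, g, hg, hP, h'⟩ := h
  have hc : IsCompact (range g) := isCompact_range hg
  refine ⟨range g, inferInstance, isCompact_iff_compactSpace.1 hc, inferInstance,
    fun z => ⟨g z, mem_range_self _⟩, ?_, ?_, covDimLE_of_poly hc hP⟩
  · exact (hg.comp continuous_subtype_val).subtype_mk _
  · rintro ⟨p, hp⟩
    rcases ((fun z : Z => (⟨g z, mem_range_self _⟩ : range g)) ⁻¹' {⟨p, hp⟩}).eq_empty_or_nonempty
      with h0 | ⟨z₀, hz₀⟩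
    · rw [h0, Metric.diam_empty]
      exact hε
    · have hz₁ : g z₀ = p := congrArg Subtype.val hz₀
      have hK : IsCompact (g ⁻¹' {p}) := (isClosed_singleton.preimage hg).isCompact
      obtain ⟨m, hm, hmax⟩ := (hK.prod hK).exists_isMaxOn ⟨((z₀ : Y), (z₀ : Y)), hz₁, hz₁⟩
        (continuous_dist.continuousOn (s := (g ⁻¹' {p}) ×ˢ (g ⁻¹' {p})))
      have h1 : dist m.1 m.2 < ε := by
        apply h'
        have e1 : g m.1 = p := hm.1
        have e2 : g m.2 = p := hm.2
        rw [e1, e2]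
      refine lt_of_le_of_lt (Metric.diam_le_of_forall_dist_le dist_nonneg ?_) h1
      intro a ha b hb
      have ea : g a = p := congrArg Subtype.val ha
      have eb : g b = p := congrArg Subtype.val hb
      exact hmax (show ((a : Y), (b : Y)) ∈ (g ⁻¹' {p}) ×ˢ (g ⁻¹' {p}) from ⟨ea, eb⟩)

theorem PM.mono {Y : Type*} [MetricSpace Y] {ε : ℝ} {r r' : ℕ} (hr : r ≤ r') (h : PM Y ε r) :
    PM Y ε r' := by
  obtain ⟨κ, i, g, hg, ⟨N, A, hA, hA'⟩, h'⟩ := h
  exact ⟨κ, i, g, hg, ⟨N, A, fun i => (hA i).trans hr, hA'⟩, h'⟩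

end SMD
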