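import Pool.Agent.Lib_MP_33f7bb_an.CC

/-! Piece COLA: from polyhedral maps to coloured maps. -/

open Set Filter Topology

namespace SMD

/-- PROOF. The set `{(y, y') | ε ≤ dist y y'}` is compact and `dist (g y) (g y')` is positive on it. -/
theorem exists_delta {Y : Type*} [MetricSpace Y] [CompactSpace Y] {κ : Type} [Fintype κ]
    {g : Y → (κ → ℝ)} (hg : Continuous g) {ε : ℝ} (h : ∀ y y', g y = g y' → dist y y' < ε) :
    ∃ δ > 0, ∀ y y', dist (g y) (g y') ≤ δ → dist y y' < ε := by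
  have hK : IsCompact {p : Y × Y | ε ≤ dist p.1 p.2} :=
    (isClosed_le continuous_const (continuous_fst.dist continuous_snd)).isCompact
  rcases {p : Y × Y | ε ≤ dist p.1 p.2}.eq_empty_or_nonempty with h0 | h0
  · refine ⟨1, one_pos, fun y y' _ => ?_⟩
    by_contra hc
    have h1 : (y, y') ∈ {p : Y × Y | ε ≤ dist p.1 p.2} := not_lt.1 hc
    rw [h0] at h1
    exact h1
  · obtain ⟨p, hp, hmin⟩ := hK.exists_isMinOn h0
      (f := fun p : Y × Y => dist (g p.1) (g p.2)) ((hg.comp continuous_fst).dist (hg.comp continuous_snd)).continuousOn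
    have hpos : 0 < dist (g p.1) (g p.2) := by
      rw [dist_pos]
      intro h1
      have h2 : ε ≤ dist p.1 p.2 := hp
      exact absurd (h _ _ h1) (not_lt.2 h2)
    refine ⟨dist (g p.1) (g p.2) / 2, half_pos hpos, fun y y' hy => ?_⟩
    by_contra hc
    have h1 : (y, y') ∈ {p : Y × Y | ε ≤ dist p.1 p.2} := not_lt.1 hc
    have h2 : dist (g p.1) (g p.2) ≤ dist (g y) (g y') := hmin h1
    linarith

/-- PROOF. `exists_delta` and `colored_cover` for the compact set `range g` give `δ`, `I`, `col`, `O`.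
Let `w i y = Metric.infDist y (g ⁻¹' (O i))ᶜ` if `(g ⁻¹' (O i))ᶜ` is nonempty and `1` otherwise; it is
continuous, `≥ 0`, and positive exactly on `g ⁻¹' (O i)`.  `φ y i = w i y / ∑ i', w i' y`. -/
theorem col_of_PM {Y : Type*} [MetricSpace Y] [CompactSpace Y] {ε : ℝ} {r : ℕ}
    (h : PM Y ε r) : Col Y ε r := by
  classical
  obtain ⟨κ, iκ, g, hg, hpoly, hfib⟩ := h
  obtain ⟨δ, hδ, hδ2⟩ := exists_delta hg hfib
  obtain ⟨I, iI, col, O, hO, hcov, hdis, hdiam⟩ := colored_cover (isCompact_range hg) hpoly hδ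
  set w : I → Y → ℝ := fun i y =>
    if (g ⁻¹' (O i))ᶜ.Nonempty then Metric.infDist y (g ⁻¹' (O i))ᶜ else 1 with hw
  have hwc : ∀ i, Continuous (w i) := by
    intro i
    rw [hw]
    by_cases hne : (g ⁻¹' (O i))ᶜ.Nonempty
    · simp only [if_pos hne]
      exact Metric.continuous_infDist_pt _
    · simp only [if_neg hne]
      exact continuous_const
  have hw0 : ∀ i y, 0 ≤ w i y := by
    intro i y
    simp only [hw]
    split_ifs
    · exact Metric.infDist_nonneg
    · exact zero_le_one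
  have hwpos : ∀ i y, 0 < w i y ↔ g y ∈ O i := by
    intro i y
    simp only [hw]
    by_cases hne : (g ⁻¹' (O i))ᶜ.Nonempty
    · rw [if_pos hne]
      have hcl : IsClosed (g ⁻¹' (O i))ᶜ := ((hO i).preimage hg).isClosed_compl
      rw [← hcl.notMem_iff_infDist_pos hne, notMem_compl_iff, mem_preimage]
    · rw [if_neg hne]
      refine ⟨fun _ => ?_, fun _ => one_pos⟩
      by_contra hc
      exact hne ⟨y, hc⟩
  have hs : ∀ y, 0 < ∑ i, w i y := by
    intro y
    obtain ⟨i, hi⟩ := mem_iUnion.1 (hcov (mem_range_self y))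
    exact Finset.sum_pos' (fun i _ => hw0 i y) ⟨i, Finset.mem_univ _, (hwpos i y).2 hi⟩
  have hmem : ∀ y i, 0 < w i y / ∑ i', w i' y → g y ∈ O i := by
    intro y i h0
    rw [← hwpos]
    exact (div_pos_iff_of_pos_right (hs y)).1 h0
  refine ⟨I, iI, col, fun y i => w i y / ∑ i', w i' y, ?_, ?_, ?_, ?_, ?_⟩
  · refine continuous_pi fun i => ?_
    exact (hwc i).div (continuous_finsetSum _ fun i' _ => hwc i') fun y => (hs y).ne'
  · intro y i
    exact div_nonneg (hw0 i y) (hs y).le
  · intro y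
    rw [← Finset.sum_div]
    exact div_self (hs y).ne'
  · intro y i i' h1 h2 hcol
    by_contra hne
    exact (hdis i i' hne hcol).le_bot ⟨hmem y i h1, hmem y i' h2⟩
  · intro y y' i h1 h2
    exact hδ2 y y' (hdiam i _ (hmem y i h1) _ (hmem y' i h2))

end SMD
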