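import Mathlib

/-!
# Sofic mean dimension and stable cohomotopy dimension: definitions

Everything of the problem file (covering dimension, Widim, the spaces Map, sofic approximation
sequences, sofic mean dimension), and the stable cohomotopy dimension of a compact space.
-/

open Set Filter Topology

namespace SMD

/-- Covering dimension at most `n`: every finite open cover has a finite open refinement such that
every point lies in at most `n + 1` of its members. -/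
def CovDimLE (P : Type*) [TopologicalSpace P] (n : ℕ) : Prop :=
  ∀ (ι : Type) [Finite ι] (U : ι → Set P), (∀ i, IsOpen (U i)) → (⋃ i, U i) = univ →
    ∃ (κ : Type) (_ : Finite κ) (W : κ → Set P), (∀ k, IsOpen (W k)) ∧ (⋃ k, W k) = univ ∧
      (∀ k, ∃ i, W k ⊆ U i) ∧ ∀ x, {k | x ∈ W k}.ncard ≤ n + 1

/-- `Widim_ε Z ≤ n`: there are a compact metrizable space `P` of covering dimension at most `n`
and a continuous map `Z → P` all of whose fibres have diameter less than `ε`. -/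
def WidimLE (ε : ℝ) (Z : Type*) [MetricSpace Z] (n : ℕ) : Prop :=
  ∃ (P : Type) (_ : TopologicalSpace P) (_ : CompactSpace P) (_ : TopologicalSpace.MetrizableSpace P)
    (f : Z → P), Continuous f ∧ (∀ p, Metric.diam (f ⁻¹' {p}) < ε) ∧ CovDimLE P n

open Classical in
/-- `Widim_ε Z` as an extended real number (`⊥` for the empty space). -/
noncomputable def Widim (ε : ℝ) (Z : Type*) [MetricSpace Z] : EReal :=
  if IsEmpty Z then ⊥ else ⨅ n : {n : ℕ // WidimLE ε Z n}, ((n : ℕ) : EReal)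

/-- The metric `ρ_2` on maps `[d] → X`. -/
noncomputable def rho2 {X : Type*} [MetricSpace X] {d : ℕ} (φ ψ : Fin d → X) : ℝ :=
  Real.sqrt ((1 / (d : ℝ)) * ∑ a, dist (φ a) (ψ a) ^ 2)

/-- The space `Map(ρ, F, δ, σ)` of almost equivariant maps, a subset of `X^d`
(which carries the metric `ρ_∞`). -/
def MapSet {X : Type*} [MetricSpace X] {G : Type*} [Group G] [MulAction G X]
    (F : Finset G) (δ : ℝ) {d : ℕ} (σ : G → Equiv.Perm (Fin d)) : Set (Fin d → X) :=
  {φ | ∀ s ∈ F, rho2 (fun a => φ (σ s a)) (fun a => s • φ a) ≤ δ}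

/-- Sofic approximation sequences. -/
structure SoficSeq (G : Type*) [Group G] where
  d : ℕ → ℕ
  σ : ∀ i, G → Equiv.Perm (Fin (d i))
  tendsto_d : Tendsto d atTop atTop
  mul : ∀ s t : G, Tendsto
    (fun i => ((Finset.univ.filter (fun a => σ i (s * t) a = σ i s (σ i t a))).card : ℝ) / (d i))
    atTop (𝓝 1)
  free : ∀ s t : G, s ≠ t → Tendsto
    (fun i => ((Finset.univ.filter (fun a => σ i s a ≠ σ i t a)).card : ℝ) / (d i))
    atTop (𝓝 1)

/-- Sofic mean dimension of an action of `G` on the compact metric space `X`. -/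
noncomputable def mdim (X : Type*) [MetricSpace X] (G : Type*) [Group G] [MulAction G X]
    (S : SoficSeq G) : EReal :=
  ⨆ ε : {ε : ℝ // 0 < ε}, ⨅ F : Finset G, ⨅ δ : {δ : ℝ // 0 < δ},
    Filter.limsup (fun i => Widim ε (MapSet (X := X) F δ (S.σ i)) / ((S.d i : ℕ) : EReal)) atTop

/-- Statement Q1 of the problem: every continuous action of a finite group on an infinite
dimensional compact metrizable space has infinite sofic mean dimension. -/
def Q1 : Prop :=
  ∀ (G : Type) [Group G] [Finite G] (X : Type) [MetricSpace X] [CompactSpace X] [MulAction G X]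
    [ContinuousConstSMul G X], (∀ n, ¬ CovDimLE X n) → ∀ S : SoficSeq G, mdim X G S = ⊤

/-- Stable cohomotopy dimension at most `c`: the relative stable cohomotopy groups
`π_s^j(X, A)` vanish for all `j > c` and all closed `A`.  A continuous map `F : X × ℝ^k → ℝ^(j+k)`
without zeros on `A × ℝ^k` and on `{‖t‖ ≥ 1}` represents an element of `π_s^j(X, A)`; it is zero
iff after adding variables `s` the map `(F, s)` can be deformed to a map without zeros,
keeping it fixed over `A` and for `‖t‖ ≥ 1` or `‖s‖ ≥ 1`. -/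
def StableDimLE (X : Type*) [TopologicalSpace X] (c : ℕ) : Prop :=
  ∀ j, c < j → ∀ A : Set X, IsClosed A →
    ∀ (k : ℕ) (F : X × (Fin k → ℝ) → (Fin (j + k) → ℝ)), Continuous F →
      (∀ x t, (x ∈ A ∨ 1 ≤ ‖t‖) → F (x, t) ≠ 0) →
      ∃ (l : ℕ) (G : (X × (Fin k → ℝ)) × (Fin l → ℝ) → (Fin (j + k) → ℝ) × (Fin l → ℝ)),
        Continuous G ∧ (∀ p, G p ≠ 0) ∧
        ∀ x t s, (x ∈ A ∨ 1 ≤ ‖t‖ ∨ 1 ≤ ‖s‖) → G ((x, t), s) = (F (x, t), s)

/-! ## Auxiliary notions -/

/-- `(F, v)` can be made zero free relative to `B` after adding variables `v ∈ V`. -/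
def StabNull {Z : Type*} [TopologicalSpace Z] (B : Set Z) {W : Type*} [NormedAddCommGroup W]
    [NormedSpace ℝ W] (F : Z → W) : Prop :=
  ∃ (V : Type) (_ : NormedAddCommGroup V) (_ : NormedSpace ℝ V) (_ : FiniteDimensional ℝ V)
    (G : Z × V → W × V), Continuous G ∧ (∀ p, G p ≠ 0) ∧
      ∀ z v, (z ∈ B ∨ 1 ≤ ‖v‖) → G (z, v) = (F z, v)

/-- Version on a subset `S` of the ambient space (used for glueing). -/
def StabNullOn {Z : Type*} [TopologicalSpace Z] (S B : Set Z) {W : Type*} [NormedAddCommGroup W]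
    [NormedSpace ℝ W] (F : Z → W) : Prop :=
  ∃ (V : Type) (_ : NormedAddCommGroup V) (_ : NormedSpace ℝ V) (_ : FiniteDimensional ℝ V)
    (G : Z × V → W × V), ContinuousOn G (S ×ˢ univ) ∧ (∀ z ∈ S, ∀ v, G (z, v) ≠ 0) ∧
      ∀ z ∈ S, ∀ v, (z ∈ B ∨ 1 ≤ ‖v‖) → G (z, v) = (F z, v)

/-- `π_s^j(Y, A) = 0` for all closed `A`, with arbitrary finite dimensional normed spaces. -/
def SI (Y : Type*) [TopologicalSpace Y] (j : ℕ) : Prop :=
  ∀ A : Set Y, IsClosed A →
    ∀ (V : Type) [NormedAddCommGroup V] [NormedSpace ℝ V] [FiniteDimensional ℝ V]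
      (W : Type) [NormedAddCommGroup W] [NormedSpace ℝ W] [FiniteDimensional ℝ W],
      Module.finrank ℝ W = j + Module.finrank ℝ V →
      ∀ F : Y × V → W, Continuous F → (∀ y v, (y ∈ A ∨ 1 ≤ ‖v‖) → F (y, v) ≠ 0) →
        StabNull {p : Y × V | p.1 ∈ A ∨ 1 ≤ ‖p.2‖} F

/-- The same for `X × V` relative to an arbitrary closed set containing `{‖v‖ ≥ 1}`. -/
def PT (X : Type*) [TopologicalSpace X] (c : ℕ) : Prop :=
  ∀ (V : Type) [NormedAddCommGroup V] [NormedSpace ℝ V] [FiniteDimensional ℝ V]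
    (W : Type) [NormedAddCommGroup W] [NormedSpace ℝ W] [FiniteDimensional ℝ W] (j : ℕ), c < j →
    Module.finrank ℝ W = j + Module.finrank ℝ V →
    ∀ C : Set (X × V), IsClosed C → (∀ x v, 1 ≤ ‖v‖ → (x, v) ∈ C) →
      ∀ F : X × V → W, Continuous F → (∀ z ∈ C, F z ≠ 0) → StabNull C F

/-- The `c`-skeleton of the unit grid of `ℝ^M`. -/
def Sk (M c : ℕ) : Set (Fin M → ℝ) :=
  {p | {l : Fin M | ∀ z : ℤ, p l ≠ z}.ncard ≤ c}

/-- `p` lies in the smallest closed grid cube containing `q`. -/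
def car {M : ℕ} (q p : Fin M → ℝ) : Prop := ∀ l, (⌊q l⌋ : ℝ) ≤ p l ∧ p l ≤ (⌈q l⌉ : ℝ)

/-- Open grid cell of dimension `#J`. -/
def oCell {M : ℕ} (J : Finset (Fin M)) (a : Fin M → ℤ) : Set (Fin M → ℝ) :=
  {p | (∀ l ∈ J, (a l : ℝ) < p l ∧ p l < a l + 1) ∧ ∀ l ∉ J, p l = a l}

/-- Closed grid cell of dimension `#J`. -/
def cCell {M : ℕ} (J : Finset (Fin M)) (a : Fin M → ℤ) : Set (Fin M → ℝ) :=
  {p | (∀ l ∈ J, (a l : ℝ) ≤ p l ∧ p l ≤ a l + 1) ∧ ∀ l ∉ J, p l = a l}

/-- The map `f × id : X × V → ℝ^M × V` can be deformed, controlled by the grid cubes and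
relative to `‖v‖ ≥ 1`, such that it lies in `K` over the open unit ball. -/
def Good {X : Type*} [TopologicalSpace X] {M : ℕ} (f : X → (Fin M → ℝ))
    (K : Set (Fin M → ℝ)) : Prop :=
  ∃ (V : Type) (_ : NormedAddCommGroup V) (_ : NormedSpace ℝ V) (_ : FiniteDimensional ℝ V)
    (P : X × V → (Fin M → ℝ)) (T : X × V → V), Continuous P ∧ Continuous T ∧
      (∀ z, ‖T z‖ < 1 → P z ∈ K) ∧ (∀ z, car (f z.1) (P z)) ∧
      ∀ x v, 1 ≤ ‖v‖ → ∀ u ∈ Icc (0 : ℝ) 1, 1 ≤ ‖(1 - u) • T (x, v) + u • v‖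

/-- Simplex version of `Good`. -/
def GoodS {X : Type*} [TopologicalSpace X] {M : ℕ} (f : X → (Fin M → ℝ))
    (K : Set (Fin M → ℝ)) (k : ℕ) : Prop :=
  ∃ (P : X × stdSimplex ℝ (Fin (k + 1)) → (Fin M → ℝ))
    (T : X × stdSimplex ℝ (Fin (k + 1)) → stdSimplex ℝ (Fin (k + 1))),
    Continuous P ∧ Continuous T ∧ (∀ z, P z ∈ K ∨ ∃ i, (T z : Fin (k + 1) → ℝ) i = 0) ∧
      (∀ z, car (f z.1) (P z)) ∧
      ∀ x (t : stdSimplex ℝ (Fin (k + 1))) i, (t : Fin (k + 1) → ℝ) i = 0 →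
        (T (x, t) : Fin (k + 1) → ℝ) i = 0

/-- Finitely many affine subspaces of dimension at most `r` cover `S`. -/
def PolyDimLE {κ : Type} [Fintype κ] (S : Set (κ → ℝ)) (r : ℕ) : Prop :=
  ∃ (N : ℕ) (A : Fin N → AffineSubspace ℝ (κ → ℝ)),
    (∀ i, Module.finrank ℝ (A i).direction ≤ r) ∧ ∀ x ∈ S, ∃ i, x ∈ A i

/-- `Y` has a continuous map into a finite union of `r`-dimensional affine subspaces,
any two points of a fibre being at distance less than `ε`. -/
def PM (Y : Type*) [MetricSpace Y] (ε : ℝ) (r : ℕ) : Prop :=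
  ∃ (κ : Type) (_ : Fintype κ) (g : Y → (κ → ℝ)), Continuous g ∧ PolyDimLE (range g) r ∧
    ∀ y y', g y = g y' → dist y y' < ε

/-- `Y` has a map into the join of `r + 1` finite sets (colours), the vertex stars being
of diameter less than `ε`. -/
def Col (Y : Type*) [MetricSpace Y] (ε : ℝ) (r : ℕ) : Prop :=
  ∃ (I : Type) (_ : Fintype I) (col : I → Fin (r + 1)) (φ : Y → (I → ℝ)), Continuous φ ∧
    (∀ y i, 0 ≤ φ y i) ∧ (∀ y, ∑ i, φ y i = 1) ∧
    (∀ y i i', 0 < φ y i → 0 < φ y i' → col i = col i' → i = i') ∧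
    ∀ y y' i, 0 < φ y i → 0 < φ y' i → dist y y' < ε

end SMD
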