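import Pool.Agent.Lib_MP_33f7bb_an.Defs

/-! Piece FINB: the trivial group. -/

open Set Filter Topology

namespace SMD

/-- The trivial group has a sofic approximation sequence (`d i = i`, `σ i _ = 1`). -/
theorem exists_soficSeq_unit : Nonempty (SoficSeq Unit) := by
  refine ⟨{ d := fun i => i, σ := fun _ _ => 1, tendsto_d := tendsto_id, mul := ?_, free := ?_ }⟩
  · intro s t
    refine tendsto_const_nhds.congr' ?_
    filter_upwards [eventually_gt_atTop 0] with i hi
    have hi' : (i : ℝ) ≠ 0 := by
      have : (0:ℝ) < i := by exact_mod_cast hi
      exact this.ne'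
    simp [div_self hi']
  · intro s t h
    exact absurd (Subsingleton.elim s t) h

end SMD
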