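import Pool.Agent.Lib_MP_33f7bb_an.Defs

/-! Piece FINA: from linear bounds of Widim to the sofic mean dimension. -/

open Set Filter Topology

namespace SMD

theorem fina_widim_le {ε : ℝ} {Z : Type*} [MetricSpace Z] {n : ℕ} (h : WidimLE ε Z n) :
    Widim ε Z ≤ ((n : ℕ) : EReal) := by
  classical
  unfold Widim
  split_ifs
  · exact bot_le
  · exact iInf_le (fun n : {n : ℕ // WidimLE ε Z n} => ((n : ℕ) : EReal)) ⟨n, h⟩

/-- PROOF. For each `ε`, the infima over `F, δ` are at most the limsup for `F = ∅`, `δ = 1`, and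
`Widim ε Z ≤ c * d i + C` for all `Z ⊆ X^(d i)`; `(c * d i + C) / d i → c`. -/
theorem mdim_le_of_widim {X : Type*} [MetricSpace X] {c : ℕ}
    (h : ∀ ε : ℝ, 0 < ε → ∃ C : ℕ, ∀ (n : ℕ) (Z : Set (Fin n → X)), WidimLE ε Z (c * n + C))
    (G : Type*) [Group G] [MulAction G X] (S : SoficSeq G) : mdim X G S ≤ (c : EReal) := by
  unfold mdim
  refine iSup_le fun ε => ?_
  obtain ⟨C, hC⟩ := h ε.1 ε.2
  refine (iInf_le _ ∅).trans ((iInf_le _ ⟨1, one_pos⟩).trans ?_)
  have hreal : Tendsto (fun i => ((c * S.d i + C : ℕ) : ℝ) / (S.d i : ℝ)) atTop (𝓝 (c : ℝ)) := by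
    have h1 : Tendsto (fun i => (c : ℝ) + (C : ℝ) / (S.d i : ℝ)) atTop (𝓝 ((c : ℝ) + 0)) :=
      tendsto_const_nhds.add ((tendsto_const_div_atTop_nhds_zero_nat (C : ℝ)).comp S.tendsto_d)
    rw [add_zero] at h1
    refine h1.congr' ?_
    filter_upwards [S.tendsto_d.eventually_gt_atTop 0] with i hi
    have h2 : (S.d i : ℝ) ≠ 0 := by exact_mod_cast hi.ne'
    push_cast
    field_simp
  have hE : Tendsto (fun i => ((((c * S.d i + C : ℕ) : ℝ) / (S.d i : ℝ) : ℝ) : EReal)) atTop (𝓝 (c : EReal)) := by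
    have h1 := (continuous_coe_real_ereal.tendsto (c : ℝ)).comp hreal
    rw [EReal.coe_natCast] at h1
    exact h1
  rw [← hE.limsup_eq]
  refine limsup_le_limsup (Eventually.of_forall fun i => ?_)
  show Widim ε.1 (MapSet (X := X) ∅ 1 (S.σ i)) / ((S.d i : ℕ) : EReal) ≤
    ((((c * S.d i + C : ℕ) : ℝ) / (S.d i : ℝ) : ℝ) : EReal)
  rw [EReal.coe_div, EReal.coe_natCast, EReal.coe_natCast]
  refine EReal.div_le_div_right_of_nonneg ?_ (fina_widim_le (hC _ _))
  exact_mod_cast Nat.zero_le _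

end SMD
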