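import Pool.Agent.Lib_MP_33f7bb_an.Defs

/-! Piece GEN: a generic translate of the grid avoids `r`-dimensional sets. -/

open Set Filter Topology

namespace SMD

/-- the restriction of the coordinates to `J` -/
noncomputable def gen_res {κ : Type} (J : Finset κ) : (κ → ℝ) →ₗ[ℝ] (J → ℝ) :=
  LinearMap.funLeft ℝ ℝ (Subtype.val : J → κ)

theorem gen_res_surj {κ : Type} (J : Finset κ) : Function.Surjective (gen_res J) :=
  LinearMap.funLeft_surjective_of_injective ℝ ℝ _ Subtype.val_injective

theorem gen_ne_top {κ : Type} [Fintype κ] (A : AffineSubspace ℝ (κ → ℝ)) {r : ℕ}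
    (hA : Module.finrank ℝ A.direction ≤ r) (J : Finset κ) (hJ : J.card = r + 1) :
    (A.map (gen_res J).toAffineMap).comap (gen_res J).toAffineMap ≠ ⊤ := by
  intro h
  have h1 : A.map (gen_res J).toAffineMap = ⊤ := by
    rw [eq_top_iff]
    intro y _
    obtain ⟨x, rfl⟩ := gen_res_surj J y
    have h2 : x ∈ (A.map (gen_res J).toAffineMap).comap (gen_res J).toAffineMap := by
      rw [h]
      trivial
    exact h2
  have h3 : (A.direction.map (gen_res J)) = ⊤ := by
    have h4 := AffineSubspace.map_direction (gen_res J).toAffineMap A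
    rw [h1, AffineSubspace.direction_top] at h4
    exact h4.symm
  have h5 : Module.finrank ℝ (A.direction.map (gen_res J)) ≤ r :=
    (Submodule.finrank_map_le _ _).trans hA
  rw [h3, finrank_top, Module.finrank_fintype_fun_eq_card, Fintype.card_coe, hJ] at h5
  omega

/-- PROOF. For `J : Finset κ` with `#J = r + 1`, `z : κ → ℤ` and `i : Fin N` (the affine subspaces
`A i` covering `S`) the set of bad `v` is contained in
`{v | ∃ x ∈ A i, ∀ l ∈ J, x l = v l + δ * z l}`.  Let `π : (κ → ℝ) →ₗ (J → ℝ)` be the restriction.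
`(A i).map π` is an affine subspace of `J → ℝ` whose direction has finrank `≤ r < #J`, so it is not
`⊤`; hence its preimage under `π` is a proper affine subspace of `κ → ℝ` (`π` surjective) and has
measure zero (`MeasureTheory.Measure.addHaar_affineSubspace`), and so has its translate by
`- δ z`.  A countable union of null sets is not everything. -/
theorem generic_shift {κ : Type} [Fintype κ] {S : Set (κ → ℝ)} {r : ℕ} (hS : PolyDimLE S r)
    (δ : ℝ) : ∃ v : κ → ℝ, ∀ x ∈ S, {l : κ | ∃ z : ℤ, x l = v l + δ * z}.ncard ≤ r := by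
  classical
  obtain ⟨N, A, hA, hAS⟩ := hS
  let B : Fin N × {J : Finset κ // J.card = r + 1} × (κ → ℤ) → Set (κ → ℝ) := fun q =>
    (fun v : κ → ℝ => v + fun l => δ * (q.2.2 l : ℝ)) ⁻¹'
      (((A q.1).map (gen_res q.2.1.1).toAffineMap).comap (gen_res q.2.1.1).toAffineMap :
        Set (κ → ℝ))
  have hB : ∀ q, MeasureTheory.volume (B q) = 0 := by
    intro q
    show MeasureTheory.volume ((fun v : κ → ℝ => v + fun l => δ * (q.2.2 l : ℝ)) ⁻¹' _) = 0
    rw [MeasureTheory.measure_preimage_add_right]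
    exact MeasureTheory.Measure.addHaar_affineSubspace _ _
      (gen_ne_top (A q.1) (hA q.1) q.2.1.1 q.2.1.2)
  have hU : MeasureTheory.volume (⋃ q, B q) = 0 := MeasureTheory.measure_iUnion_null hB
  by_contra hcon
  push Not at hcon
  have hall : (univ : Set (κ → ℝ)) ⊆ ⋃ q, B q := by
    intro v _
    obtain ⟨x, hx, hr⟩ := hcon v
    obtain ⟨i, hi⟩ := hAS x hx
    obtain ⟨t, ht, htc⟩ := Set.exists_subset_card_eq (Nat.succ_le_of_lt hr)
    have hz : ∀ l : κ, ∃ z : ℤ, l ∈ t → x l = v l + δ * z := by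
      intro l
      by_cases hl : l ∈ t
      · obtain ⟨z, hz⟩ := ht hl
        exact ⟨z, fun _ => hz⟩
      · exact ⟨0, fun h => absurd h hl⟩
    choose z hz using hz
    rw [Set.ncard_eq_toFinset_card'] at htc
    refine mem_iUnion.2 ⟨(i, ⟨t.toFinset, htc⟩, z), ?_⟩
    show gen_res t.toFinset (v + fun l => δ * (z l : ℝ)) ∈ (A i).map (gen_res t.toFinset).toAffineMap
    rw [AffineSubspace.mem_map]
    refine ⟨x, hi, ?_⟩
    funext l
    have hl : l.1 ∈ t := Set.mem_toFinset.1 l.2
    exact hz l.1 hl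
  have h0 : MeasureTheory.volume (univ : Set (κ → ℝ)) = 0 :=
    MeasureTheory.measure_mono_null hall hU
  exact (isOpen_univ.measure_pos MeasureTheory.volume univ_nonempty).ne' h0

end SMD
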