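import Pool.Agent.Lib_MP_33f7bb_an.RAD

/-! Piece GENV: from the definition with `ℝ^k` to arbitrary normed spaces. -/

open Set Filter Topology

namespace SMD

/-- PROOF. Given `A, V, W, F`: let `n = finrank V`, `e : V ≃ₜ (Fin n → ℝ)` with `‖e v‖ = ‖v‖`
(`exists_radial`), `L : W ≃L[ℝ] (Fin (j + n) → ℝ)` (equal finranks).  Apply the hypothesis to
`F' (x, t) = L (F (x, e.symm t))`; it has no zeros for `x ∈ A` or `‖t‖ ≥ 1`.  We get `l` and
`G'`; take the space `Fin l → ℝ` and
`G ((x, v), s) = (L.symm (G' ((x, e v), s)).1, (G' ((x, e v), s)).2)`. -/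
theorem SI_of_stableDim {X : Type*} [TopologicalSpace X] {c : ℕ} (h : StableDimLE X c) :
    ∀ j, c < j → SI X j := by
  intro j hj A hA V _ _ _ W _ _ _ hfr F hF hF0
  obtain ⟨n, hn⟩ : ∃ n : ℕ, n = Module.finrank ℝ V := ⟨_, rfl⟩
  obtain ⟨e, he⟩ := exists_radial V (Fin n → ℝ) (by rw [Module.finrank_fin_fun]; exact hn.symm)
  have hes : ∀ t, ‖e.symm t‖ = ‖t‖ := by
    intro t
    rw [← he (e.symm t), Homeomorph.apply_symm_apply]
  let L : W ≃L[ℝ] (Fin (j + n) → ℝ) :=
    ContinuousLinearEquiv.ofFinrankEq (by rw [Module.finrank_fin_fun, hfr, hn])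
  obtain ⟨l, G', hG', hG0, hG1⟩ := h j hj A hA n (fun p => L (F (p.1, e.symm p.2)))
    (L.continuous.comp (hF.comp (continuous_fst.prodMk (e.symm.continuous.comp continuous_snd))))
    (by
      intro x t hxt h0
      have h1 : F (x, e.symm t) = 0 := by
        simpa using h0
      refine hF0 x (e.symm t) ?_ h1
      rcases hxt with hx | ht
      · exact Or.inl hx
      · right
        rw [hes]
        exact ht)
  refine ⟨Fin l → ℝ, inferInstance, inferInstance, inferInstance,
    fun p => (L.symm (G' ((p.1.1, e p.1.2), p.2)).1, (G' ((p.1.1, e p.1.2), p.2)).2), ?_, ?_, ?_⟩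
  · have hc : Continuous (fun p : (X × V) × (Fin l → ℝ) => G' ((p.1.1, e p.1.2), p.2)) := by
      refine hG'.comp ?_
      exact ((continuous_fst.comp continuous_fst).prodMk
        (e.continuous.comp (continuous_snd.comp continuous_fst))).prodMk continuous_snd
    exact (L.symm.continuous.comp (continuous_fst.comp hc)).prodMk (continuous_snd.comp hc)
  · intro p h0
    have h1 := congrArg Prod.fst h0
    have h2 := congrArg Prod.snd h0
    simp only [Prod.fst_zero, Prod.snd_zero] at h1 h2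
    have h3 : (G' ((p.1.1, e p.1.2), p.2)).1 = 0 := by
      simpa using h1
    exact hG0 _ (Prod.ext h3 h2)
  · rintro ⟨x, v⟩ s hz
    have h1 : x ∈ A ∨ 1 ≤ ‖e v‖ ∨ 1 ≤ ‖s‖ := by
      rw [he]
      rcases hz with (h1 | h1) | h1
      · exact Or.inl h1
      · exact Or.inr (Or.inl h1)
      · exact Or.inr (Or.inr h1)
    have h2 := hG1 x (e v) s h1
    simp only [h2, Homeomorph.symm_apply_apply, ContinuousLinearEquiv.symm_apply_apply]

end SMD
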