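import Pool.Agent.Lib_MP_33f7bb_an.SUSP

/-! Piece GLUE: glueing stable trivialisations over closed sets meeting in `B`. -/

open Set Filter Topology

namespace SMD

variable {Z : Type*} [TopologicalSpace Z] {W : Type*} [NormedAddCommGroup W] [NormedSpace ℝ W]

/-- PROOF. Witnesses `V₁, G₁` on `S₁` and `V₂, G₂` on `S₂`.  By `wit_add` / `wit_add'` both can be
taken with the space `V₁ × V₂`.  Put `G = G₁` for `z ∈ S₁` and `G = G₂` otherwise (classical `if`);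
for `z ∈ S₁ ∩ S₂ ⊆ B` both are `(F z, v)`, so `G = G₂` on `S₂ × V`; `ContinuousOn` on the union of
the two closed sets `S₁ ×ˢ univ`, `S₂ ×ˢ univ` (`ContinuousOn.union_of_isClosed` or similar). -/
theorem StabNullOn.glue {S₁ S₂ B : Set Z} {F : Z → W} (hS₁ : IsClosed S₁) (hS₂ : IsClosed S₂)
    (hF : Continuous F) (hB : S₁ ∩ S₂ ⊆ B) (h₁ : StabNullOn S₁ B F) (h₂ : StabNullOn S₂ B F) :
    StabNullOn (S₁ ∪ S₂) B F := by
  classical
  obtain ⟨V₁, i11, i12, i13, G₁, c₁, n₁, b₁⟩ := h₁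
  obtain ⟨V₂, i21, i22, i23, G₂, c₂, n₂, b₂⟩ := h₂
  obtain ⟨H₁, hc₁, hn₁, hb₁⟩ := wit_add V₂ hF.continuousOn G₁ c₁ n₁ b₁
  obtain ⟨H₂, hc₂, hn₂, hb₂⟩ := wit_add' V₁ hF.continuousOn G₂ c₂ n₂ b₂
  obtain ⟨G, hG⟩ : ∃ G : Z × (V₁ × V₂) → W × (V₁ × V₂),
      G = fun p => if p.1 ∈ S₁ then H₁ p else H₂ p := ⟨_, rfl⟩
  have e₁ : ∀ z ∈ S₁, ∀ v, G (z, v) = H₁ (z, v) := by
    intro z hz v
    rw [hG]
    exact if_pos hz
  have e₂ : ∀ z ∈ S₂, ∀ v, G (z, v) = H₂ (z, v) := by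
    intro z hz v
    by_cases hz1 : z ∈ S₁
    · rw [e₁ z hz1 v, hb₁ z hz1 v (Or.inl (hB ⟨hz1, hz⟩)), hb₂ z hz v (Or.inl (hB ⟨hz1, hz⟩))]
    · rw [hG]
      exact if_neg hz1
  refine ⟨V₁ × V₂, inferInstance, inferInstance, inferInstance, G, ?_, ?_, ?_⟩
  · rw [Set.union_prod]
    refine ContinuousOn.union_of_isClosed (hc₁.congr ?_) (hc₂.congr ?_)
      (hS₁.prod isClosed_univ) (hS₂.prod isClosed_univ)
    · rintro ⟨z, v⟩ hz
      exact e₁ z hz.1 v
    · rintro ⟨z, v⟩ hz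
      exact e₂ z hz.1 v
  · rintro z (hz | hz) v
    · rw [e₁ z hz v]; exact hn₁ z hz v
    · rw [e₂ z hz v]; exact hn₂ z hz v
  · rintro z (hz | hz) v hv
    · rw [e₁ z hz v]; exact hb₁ z hz v hv
    · rw [e₂ z hz v]; exact hb₂ z hz v hv

/-- Finite version, by induction (`n = 0`: the empty set, any witness). -/
theorem StabNullOn.glue_fin {B : Set Z} {F : Z → W} (hF : Continuous F) (n : ℕ)
    (S : ℕ → Set Z) (hS : ∀ i < n, IsClosed (S i))
    (hB : ∀ i < n, ∀ i' < n, i ≠ i' → S i ∩ S i' ⊆ B)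
    (h : ∀ i < n, StabNullOn (S i) B F) :
    StabNullOn (⋃ i < n, S i) B F := by
  induction n with
  | zero =>
    have h0 : (⋃ i < 0, S i) = ∅ := by simp
    rw [h0]
    refine ⟨ℝ, inferInstance, inferInstance, inferInstance, fun p => (F p.1, p.2), ?_, ?_, ?_⟩
    · rw [Set.empty_prod]; exact continuousOn_empty _
    · intro z hz; exact absurd hz (Set.notMem_empty z)
    · intro z hz; exact absurd hz (Set.notMem_empty z)
  | succ n ih =>
    rw [Set.biUnion_lt_succ]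
    refine StabNullOn.glue ?_ (hS n (Nat.lt_succ_self n)) hF ?_
      (ih (fun i hi => hS i (hi.trans (Nat.lt_succ_self n)))
        (fun i hi i' hi' => hB i (hi.trans (Nat.lt_succ_self n)) i' (hi'.trans (Nat.lt_succ_self n)))
        (fun i hi => h i (hi.trans (Nat.lt_succ_self n))))
      (h n (Nat.lt_succ_self n))
    · exact (Set.finite_lt_nat n).isClosed_biUnion fun i hi =>
        hS i (lt_trans hi (Nat.lt_succ_self n))
    · rintro z ⟨hz, hzn⟩
      simp only [Set.mem_iUnion] at hz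
      obtain ⟨i, hi, hzi⟩ := hz
      exact hB i (hi.trans (Nat.lt_succ_self n)) n (Nat.lt_succ_self n) hi.ne ⟨hzi, hzn⟩

end SMD
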