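import Pool.Agent.Lib_MP_33f7bb_an.Defs

/-! Piece ITERB: embedding. -/

open Set Filter Topology

namespace SMD

/-- PROOF. Take a finite `ε/4`-net `x_1, ..., x_M` and `f x l = (16 / ε) * dist x (x_l)`.  If
`|f x l - f x' l| ≤ 2` for all `l`, choose `l` with `dist x (x_l) < ε/4`; then
`dist x' (x_l) < ε/4 + ε/8`, so `dist x x' < ε`. -/
theorem exists_embedding {X : Type*} [MetricSpace X] [CompactSpace X] {ε : ℝ} (hε : 0 < ε) :
    ∃ (M : ℕ) (f : X → (Fin M → ℝ)), Continuous f ∧ (∃ L : ℕ, ∀ x l, |f x l| ≤ L) ∧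
      ∀ x x', (∀ l, |f x l - f x' l| ≤ 2) → dist x x' < ε := by
  obtain ⟨t, -, htf, ht⟩ := finite_cover_balls_of_compact (isCompact_univ : IsCompact (univ : Set X))
    (show 0 < ε / 4 by linarith)
  obtain ⟨M, y, hy⟩ : ∃ (M : ℕ) (y : Fin M → X), t = range y := by
    have := htf.fintype
    refine ⟨Fintype.card t, fun i => ((Fintype.equivFin t).symm i : X), ?_⟩
    ext z
    constructor
    · intro hz
      exact ⟨Fintype.equivFin t ⟨z, hz⟩, by simp⟩
    · rintro ⟨i, rfl⟩
      exact ((Fintype.equivFin t).symm i).2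
  have c0 : 0 < 16 / ε := by positivity
  refine ⟨M, fun x l => 16 / ε * dist x (y l), ?_, ?_, ?_⟩
  · exact continuous_pi fun l => continuous_const.mul (continuous_id.dist continuous_const)
  · refine ⟨⌈16 / ε * Metric.diam (univ : Set X)⌉₊, fun x l => ?_⟩
    rw [abs_of_nonneg (mul_nonneg c0.le dist_nonneg)]
    refine le_trans ?_ (Nat.le_ceil _)
    exact mul_le_mul_of_nonneg_left
      (Metric.dist_le_diam_of_mem isCompact_univ.isBounded (mem_univ _) (mem_univ _)) c0.le
  · intro x x' h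
    have hx := ht (mem_univ x)
    rw [mem_iUnion₂] at hx
    obtain ⟨z, hz, hxz⟩ := hx
    rw [hy] at hz
    obtain ⟨l, rfl⟩ := hz
    rw [Metric.mem_ball] at hxz
    have h1 := h l
    rw [← mul_sub, abs_mul, abs_of_pos c0] at h1
    have h2 : |dist x (y l) - dist x' (y l)| ≤ ε / 8 := by
      have h3 : ε / 16 * (16 / ε * |dist x (y l) - dist x' (y l)|) ≤ ε / 16 * 2 :=
        mul_le_mul_of_nonneg_left h1 (by positivity)
      have h4 : ε / 16 * (16 / ε * |dist x (y l) - dist x' (y l)|) = |dist x (y l) - dist x' (y l)| := by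
        field_simp
      rw [h4] at h3
      linarith
    rw [abs_le] at h2
    have h3 := dist_triangle_right x x' (y l)
    linarith

end SMD
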