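import Pool.Agent.Lib_MP_33f7bb_an.T2
import Pool.Agent.Lib_MP_33f7bb_an.COL

/-! Piece ITERA: all powers. -/

open Set Filter Topology

namespace SMD

/-- transport: `e` continuous and not decreasing small distances -/
theorem PM.comp {Y Y' : Type*} [MetricSpace Y] [MetricSpace Y'] {ε : ℝ} {r : ℕ} (e : Y' → Y)
    (he : Continuous e) (hd : ∀ y y', dist (e y) (e y') < ε → dist y y' < ε) (h : PM Y ε r) :
    PM Y' ε r := by
  obtain ⟨κ, i, g, hg, ⟨N, A, hA, hA'⟩, h'⟩ := h
  refine ⟨κ, i, g ∘ e, hg.comp he, ⟨N, A, hA, ?_⟩, ?_⟩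
  · rintro x ⟨y, rfl⟩
    exact hA' _ ⟨e y, rfl⟩
  · intro y y' hy
    exact hd y y' (h' _ _ hy)

/-- PROOF. Induction on `n`.  `n = 0`: `Fin 0 → X` has one point; constant map to `Fin 0 → ℝ`.
Step: `col_of_PM`, `prod_step` with `Y = (Fin n → X)`, `b = M`, `r = c * n + M * (k + 1)`, and `PM.comp`
for `y ↦ (y 0, Fin.tail y)`, which preserves distances (`dist_pi_lt_iff`). -/
theorem PM_pow {X : Type*} [MetricSpace X] [CompactSpace X] {M k c : ℕ} {ε : ℝ} (hε : 0 < ε)
    (f : X → (Fin M → ℝ)) (hL : ∃ L : ℕ, ∀ x l, |f x l| ≤ L)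
    (hf : ∀ x x', (∀ l, |f x l - f x' l| ≤ 2) → dist x x' < ε) (H : GoodS f (Sk M c) k) (n : ℕ) :
    PM (Fin n → X) ε (c * n + M * (k + 1)) := by
  induction n with
  | zero =>
    refine ⟨Fin 0, inferInstance, fun _ => 0, continuous_const, ⟨1, fun _ => ⊤, ?_, ?_⟩, ?_⟩
    · intro _
      rw [AffineSubspace.direction_top, finrank_top, Module.finrank_pi, Fintype.card_fin]
      exact Nat.zero_le _
    · intro x _
      exact ⟨0, AffineSubspace.mem_top _ _ _⟩
    · intro y y' _
      rw [Subsingleton.elim y y', dist_self]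
      exact hε
  | succ n ih =>
    have hcol := col_of_PM ih
    have hp := prod_step f hL hf H hcol (b := M) (by omega) (by omega)
    have e1 : c + (c * n + M * (k + 1)) = c * (n + 1) + M * (k + 1) := by ring
    rw [e1] at hp
    refine PM.comp (fun y : Fin (n + 1) → X => (y 0, Fin.tail y)) ?_ ?_ hp
    · refine (continuous_apply 0).prodMk ?_
      exact continuous_pi fun i => continuous_apply i.succ
    · intro y y' h
      rw [Prod.dist_eq, max_lt_iff] at h
      rw [dist_pi_lt_iff hε]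
      intro i
      refine Fin.cases ?_ (fun j => ?_) i
      · exact h.1
      · have := (dist_pi_lt_iff hε).1 h.2 j
        exact this

end SMD
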