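import Pool.Agent.Lib_MP_33f7bb_an.SUSP

/-! Piece LEV: stable triviality on a level `τ = τ₀`. -/

open Set Filter Topology

namespace SMD

/-- PROOF. Apply `SI Y (j + 1)` to the closed set `A = {y | (y, τ₀) ∈ C}` and
`F₀ (y, v) = F ((y, τ₀), v)`; witness `V', G₀`.  Use `V'` and
`G (((y, τ), v), s) = G₀ ((y, v), s)` on the level set. -/
theorem level {Y : Type*} [TopologicalSpace Y] {j : ℕ} (h : SI Y (j + 1))
    (V : Type) [NormedAddCommGroup V] [NormedSpace ℝ V] [FiniteDimensional ℝ V]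
    (W : Type) [NormedAddCommGroup W] [NormedSpace ℝ W] [FiniteDimensional ℝ W]
    (hd : Module.finrank ℝ W = j + 1 + Module.finrank ℝ V)
    {C : Set (Y × Icc (-1 : ℝ) 1)} (hC : IsClosed C) (F : (Y × Icc (-1 : ℝ) 1) × V → W)
    (hF : Continuous F) (hF0 : ∀ p v, (p ∈ C ∨ 1 ≤ ‖v‖) → F (p, v) ≠ 0)
    (t₀ : Icc (-1 : ℝ) 1) :
    StabNullOn {p : (Y × Icc (-1 : ℝ) 1) × V | p.1.2 = t₀} {p | p.1 ∈ C ∨ 1 ≤ ‖p.2‖} F := by
  have hA : IsClosed {y : Y | (y, t₀) ∈ C} :=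
    hC.preimage (continuous_id.prodMk continuous_const)
  have hc : Continuous (fun p : Y × V => F ((p.1, t₀), p.2)) :=
    hF.comp ((continuous_fst.prodMk continuous_const).prodMk continuous_snd)
  obtain ⟨V', i1, i2, i3, G₀, hG1, hG2, hG3⟩ := h {y : Y | (y, t₀) ∈ C} hA V W hd
    (fun p : Y × V => F ((p.1, t₀), p.2)) hc (fun y v hyv => hF0 (y, t₀) v hyv)
  refine ⟨V', i1, i2, i3, fun p => G₀ ((p.1.1.1, p.1.2), p.2), ?_, ?_, ?_⟩
  · refine Continuous.continuousOn (hG1.comp ?_)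
    exact ((continuous_fst.comp (continuous_fst.comp continuous_fst)).prodMk
      (continuous_snd.comp continuous_fst)).prodMk continuous_snd
  · intro z _ v
    exact hG2 _
  · rintro ⟨⟨y, t⟩, v⟩ hz v' hzv
    have ht : t = t₀ := hz
    subst ht
    exact hG3 (y, v) v' hzv

end SMD
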