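import Pool.Agent.Lib_MP_33f7bb_an.Defs

/-! Piece RAD: radial homeomorphisms between normed spaces of the same dimension. -/

open Set Filter Topology

namespace SMD

/-- the radial map of a linear equivalence -/
noncomputable def radMap {V V' : Type} [NormedAddCommGroup V] [NormedSpace ℝ V]
    [NormedAddCommGroup V'] [NormedSpace ℝ V'] (L : V ≃L[ℝ] V') (v : V) : V' :=
  (‖v‖ / ‖L v‖) • L v

theorem radMap_norm {V V' : Type} [NormedAddCommGroup V] [NormedSpace ℝ V]
    [NormedAddCommGroup V'] [NormedSpace ℝ V'] (L : V ≃L[ℝ] V') (v : V) :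
    ‖radMap L v‖ = ‖v‖ := by
  unfold radMap
  rw [norm_smul, Real.norm_of_nonneg (div_nonneg (norm_nonneg _) (norm_nonneg _))]
  by_cases hv : v = 0
  · simp [hv]
  · have h1 : ‖L v‖ ≠ 0 := by
      rw [norm_ne_zero_iff]
      exact fun h => hv (L.map_eq_zero_iff.1 h)
    rw [div_mul_cancel₀ _ h1]

theorem radMap_inv {V V' : Type} [NormedAddCommGroup V] [NormedSpace ℝ V]
    [NormedAddCommGroup V'] [NormedSpace ℝ V'] (L : V ≃L[ℝ] V') (v : V) :
    radMap L.symm (radMap L v) = v := by
  by_cases hv : v = 0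
  · simp [radMap, hv]
  · have h1 : ‖L v‖ ≠ 0 := by
      rw [norm_ne_zero_iff]
      exact fun h => hv (L.map_eq_zero_iff.1 h)
    have h2 : ‖v‖ ≠ 0 := norm_ne_zero_iff.2 hv
    have h3 : ‖radMap L v‖ = ‖v‖ := radMap_norm L v
    have h4 : L.symm (radMap L v) = (‖v‖ / ‖L v‖) • v := by
      unfold radMap
      rw [map_smul, ContinuousLinearEquiv.symm_apply_apply]
    have h5 : ‖L.symm (radMap L v)‖ = ‖v‖ / ‖L v‖ * ‖v‖ := by
      rw [h4, norm_smul, Real.norm_of_nonneg (div_nonneg (norm_nonneg _) (norm_nonneg _))]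
    have h6 : radMap L.symm (radMap L v) =
        (‖radMap L v‖ / ‖L.symm (radMap L v)‖) • L.symm (radMap L v) := rfl
    rw [h6, h5, h4, h3, smul_smul]
    have h7 : ‖v‖ / (‖v‖ / ‖L v‖ * ‖v‖) * (‖v‖ / ‖L v‖) = 1 := by
      field_simp
    rw [h7, one_smul]

theorem radMap_cont {V V' : Type} [NormedAddCommGroup V] [NormedSpace ℝ V]
    [NormedAddCommGroup V'] [NormedSpace ℝ V'] (L : V ≃L[ℝ] V') : Continuous (radMap L) := by
  rw [continuous_iff_continuousAt]
  intro v
  by_cases hv : v = 0
  · subst hv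
    have h0 : radMap L 0 = 0 := by simp [radMap]
    unfold ContinuousAt
    rw [h0]
    refine squeeze_zero_norm (a := fun v : V => ‖v‖) (fun v => (radMap_norm L v).le) ?_
    have := (continuous_norm (E := V)).tendsto 0
    rwa [norm_zero] at this
  · have h1 : ‖L v‖ ≠ 0 := by
      rw [norm_ne_zero_iff]
      exact fun h => hv (L.map_eq_zero_iff.1 h)
    exact (continuous_norm.continuousAt.div L.continuous.norm.continuousAt h1).smul
      L.continuous.continuousAt

/-- PROOF. Take a continuous linear equivalence `L : V ≃L[ℝ] V'` (equal finranks,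
`ContinuousLinearEquiv.ofFinrankEq`).  Put `h v = (‖v‖ / ‖L v‖) • L v` (so `h 0 = 0`) and
`h' w = (‖w‖ / ‖L.symm w‖) • L.symm w`.  They are inverse to each other, `‖h v‖ = ‖v‖`; continuity
at `v ≠ 0` is clear, at `0` it follows from `‖h v‖ = ‖v‖`. -/
theorem exists_radial (V V' : Type) [NormedAddCommGroup V] [NormedSpace ℝ V]
    [FiniteDimensional ℝ V] [NormedAddCommGroup V'] [NormedSpace ℝ V'] [FiniteDimensional ℝ V']
    (h : Module.finrank ℝ V = Module.finrank ℝ V') :
    ∃ e : V ≃ₜ V', ∀ v, ‖e v‖ = ‖v‖ := by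
  obtain ⟨L⟩ : Nonempty (V ≃L[ℝ] V') := ⟨ContinuousLinearEquiv.ofFinrankEq h⟩
  refine ⟨{ toFun := radMap L
            invFun := radMap L.symm
            left_inv := radMap_inv L
            right_inv := fun w => by
              have := radMap_inv L.symm w
              rwa [ContinuousLinearEquiv.symm_symm] at this
            continuous_toFun := radMap_cont L
            continuous_invFun := radMap_cont L.symm }, radMap_norm L⟩

end SMD
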