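import Pool.Agent.Lib_MP_33f7bb_an.PTLA
import Pool.Agent.Lib_MP_33f7bb_an.RAD

/-! Piece PTLB: products with normed spaces. -/

open Set Filter Topology

namespace SMD

/-- PROOF. Given `V, W, j, C, F`: `n = finrank V`, `e : V ≃ₜ (Fin n → ℝ)` with `‖e v‖ = ‖v‖`.
Let `Y = X × (Fin n → I)` and `ι : Y → X × V`, `(x, t) ↦ (x, e.symm (fun i => t i))`.  Apply
`SI_cube` (with `j + n`) to the closed set `C' = ι ⁻¹' C`, the zero space `Fin 0 → ℝ`, `W` and
`F' (y, 0) = F (ι y)`.  The witness is `V', G'`.  Put
`G ((x, v), s) = G' (((x, (e v) as a point of the cube), 0), s)` if `‖v‖ ≤ 1` (use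
`Set.projIcc` coordinatewise to get a total continuous function) and `(F (x, v), s)` if `1 ≤ ‖v‖`.
For `‖v‖ = 1` we have `(x, v) ∈ C` so both agree (`Continuous.if_le`). -/
theorem PT_of_SI {X : Type*} [TopologicalSpace X] [CompactSpace X]
    [TopologicalSpace.MetrizableSpace X] {c : ℕ} (h : ∀ j, c < j → SI X j) : PT X c := by
  intro V _ _ _ W _ _ _ j hj hd C hC hC1 F hF hF0
  obtain ⟨e, he⟩ := exists_radial V (Fin (Module.finrank ℝ V) → ℝ) (by simp)
  generalize Module.finrank ℝ V = n at e he hd
  -- the inclusion of the cube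
  let ι : X × (Fin n → Icc (-1 : ℝ) 1) → X × V := fun p => (p.1, e.symm (fun i => (p.2 i : ℝ)))
  have hι : Continuous ι := by
    refine continuous_fst.prodMk (e.symm.continuous.comp ?_)
    exact continuous_pi fun i => continuous_subtype_val.comp
      ((continuous_apply i).comp continuous_snd)
  have hes : ∀ w, ‖e.symm w‖ = ‖w‖ := by
    intro w
    have := he (e.symm w)
    rw [e.apply_symm_apply] at this
    exact this.symm
  have hnV : Module.finrank ℝ W = (j + n) + Module.finrank ℝ (Fin 0 → ℝ) := by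
    simp [hd]
  obtain ⟨V', i1, i2, i3, G', hG', hG0, hGb⟩ :=
    SI_cube h n (j + n) (by omega) (ι ⁻¹' C) (hC.preimage hι) (Fin 0 → ℝ) W hnV
      (fun p => F (ι p.1)) (hF.comp (hι.comp continuous_fst)) (by
        intro y v hyv
        rcases hyv with hy | hv
        · exact hF0 _ hy
        · exfalso
          have : v = 0 := Subsingleton.elim _ _
          rw [this, norm_zero] at hv
          linarith)
  have hm : (-1 : ℝ) ≤ 1 := by norm_num
  let π : V → (Fin n → Icc (-1 : ℝ) 1) := fun v i => Set.projIcc (-1) 1 hm (e v i)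
  have hπ : Continuous π := by
    refine continuous_pi fun i => continuous_projIcc.comp ?_
    exact (continuous_apply i).comp e.continuous
  have hιπ : ∀ x v, ‖v‖ ≤ 1 → ι (x, π v) = (x, v) := by
    intro x v hv
    have h1 : (fun i => (π v i : ℝ)) = e v := by
      funext i
      have h2 : |e v i| ≤ 1 := by
        have := norm_le_pi_norm (e v) i
        rw [he v, Real.norm_eq_abs] at this
        linarith
      have h3 : e v i ∈ Icc (-1 : ℝ) 1 := abs_le.1 h2
      show ((Set.projIcc (-1) 1 hm (e v i) : Icc (-1 : ℝ) 1) : ℝ) = e v i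
      rw [Set.projIcc_of_mem hm h3]
    show (x, e.symm (fun i => (π v i : ℝ))) = (x, v)
    rw [h1, e.symm_apply_apply]
  refine ⟨V', i1, i2, i3, fun p => if ‖p.1.2‖ ≤ 1 then G' (((p.1.1, π p.1.2), 0), p.2)
    else (F p.1, p.2), ?_, ?_, ?_⟩
  · refine Continuous.if_le ?_ ?_ ?_ ?_ ?_
    · refine hG'.comp ?_
      refine ((?_ : Continuous fun p : (X × V) × V' => ((p.1.1, π p.1.2), (0 : Fin 0 → ℝ)))).prodMk
        continuous_snd
      refine Continuous.prodMk ?_ continuous_const
      exact (continuous_fst.comp continuous_fst).prodMk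
        (hπ.comp (continuous_snd.comp continuous_fst))
    · exact (hF.comp continuous_fst).prodMk continuous_snd
    · exact (continuous_snd.comp continuous_fst).norm
    · exact continuous_const
    · rintro ⟨⟨x, v⟩, s⟩ hv
      have hv' : ‖v‖ = 1 := hv
      have hC' : ι (x, π v) ∈ C := by
        rw [hιπ x v hv'.le]
        exact hC1 x v hv'.ge
      have := hGb (((x, π v)), (0 : Fin 0 → ℝ)) s (Or.inl (Or.inl hC'))
      show G' (((x, π v), 0), s) = (F (x, v), s)
      rw [this]
      show (F (ι (x, π v)), s) = (F (x, v), s)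
      rw [hιπ x v hv'.le]
  · rintro ⟨⟨x, v⟩, s⟩
    by_cases hv : ‖v‖ ≤ 1
    · simp only [hv, if_true]
      exact hG0 _
    · simp only [hv, if_false]
      have : F (x, v) ≠ 0 := hF0 _ (hC1 x v (not_le.1 hv).le)
      intro h0
      exact this (congrArg Prod.fst h0)
  · rintro ⟨x, v⟩ s hs
    by_cases hv : ‖v‖ ≤ 1
    · simp only [hv, if_true]
      have hb : (ι (x, π v) ∈ C) ∨ 1 ≤ ‖s‖ := by
        rcases hs with hs | hs
        · left
          rw [hιπ x v hv]
          exact hs
        · exact Or.inr hs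
      have : G' (((x, π v), 0), s) = (F (ι (x, π v)), s) := by
        refine hGb (((x, π v)), (0 : Fin 0 → ℝ)) s ?_
        rcases hb with hb | hb
        · exact Or.inl (Or.inl hb)
        · exact Or.inr hb
      rw [this, hιπ x v hv]
    · simp only [hv, if_false]

end SMD
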