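import Pool.Agent.Lib_MP_33f7bb_an.SIMPH

/-! Piece SIMP: simplex version of `Good`. -/

open Set Filter Topology

namespace SMD

/-- radial cut-off parameter -/
noncomputable def simpU {V : Type*} [NormedAddCommGroup V] (v : V) : ℝ :=
  max 0 (min 1 (2 * ‖v‖ - 1))

/-- rescaling of the vector -/
noncomputable def simpW {V : Type*} [NormedAddCommGroup V] [NormedSpace ℝ V] (v : V) : V :=
  (max ‖v‖ (1 / 2))⁻¹ • v

/-- retraction to the ball -/
noncomputable def simpR {V : Type*} [NormedAddCommGroup V] [NormedSpace ℝ V] (v : V) : V :=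
  (max 1 ‖v‖)⁻¹ • v

section
variable {V : Type*} [NormedAddCommGroup V]

theorem simpU_cont : Continuous (simpU (V := V)) := by
  unfold simpU
  fun_prop

theorem simpU_mem (v : V) : simpU v ∈ Icc (0 : ℝ) 1 := by
  unfold simpU
  exact ⟨le_max_left _ _, max_le zero_le_one (min_le_left _ _)⟩

theorem simpU_small {v : V} (h : ‖v‖ ≤ 1 / 2) : simpU v = 0 := by
  unfold simpU
  apply max_eq_left
  exact le_trans (min_le_right _ _) (by linarith)

theorem simpU_one {v : V} (h : ‖v‖ = 1) : simpU v = 1 := by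
  unfold simpU
  rw [h]
  norm_num

variable [NormedSpace ℝ V]

theorem simpW_cont : Continuous (simpW (V := V)) := by
  unfold simpW
  have h : Continuous fun v : V => (max ‖v‖ (1 / 2))⁻¹ := by
    apply Continuous.inv₀ (by fun_prop)
    intro v
    have h1 : (1 / 2 : ℝ) ≤ max ‖v‖ (1 / 2) := le_max_right _ _
    have h2 : (0 : ℝ) < max ‖v‖ (1 / 2) := lt_of_lt_of_le one_half_pos h1
    exact h2.ne'
  exact h.smul continuous_id

theorem simpW_norm {v : V} (h : 1 / 2 ≤ ‖v‖) : ‖simpW v‖ = 1 := by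
  unfold simpW
  rw [max_eq_left h, norm_smul, norm_inv, norm_norm]
  exact inv_mul_cancel₀ (by linarith)

theorem simpW_one {v : V} (h : ‖v‖ = 1) : simpW v = v := by
  unfold simpW
  rw [h, max_eq_left (by norm_num)]
  simp

theorem simpR_cont : Continuous (simpR (V := V)) := by
  unfold simpR
  have h : Continuous fun v : V => (max 1 ‖v‖)⁻¹ := by
    apply Continuous.inv₀ (by fun_prop)
    intro v
    have h1 : (1 : ℝ) ≤ max 1 ‖v‖ := le_max_left _ _
    have h2 : (0 : ℝ) < max 1 ‖v‖ := lt_of_lt_of_le one_pos h1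
    exact h2.ne'
  exact h.smul continuous_id

theorem simpR_norm_le (v : V) : ‖simpR v‖ ≤ 1 := by
  unfold simpR
  have h1 : (1 : ℝ) ≤ max 1 ‖v‖ := le_max_left _ _
  rw [norm_smul, norm_inv, Real.norm_eq_abs, abs_of_pos (by linarith),
    inv_mul_le_iff₀ (by linarith), mul_one]
  exact le_max_right _ _

theorem simpR_norm {v : V} (h : 1 ≤ ‖v‖) : ‖simpR v‖ = 1 := by
  unfold simpR
  rw [max_eq_right h, norm_smul, norm_inv, norm_norm]
  exact inv_mul_cancel₀ (by linarith)

theorem simpR_one {v : V} (h : ‖v‖ = 1) : simpR v = v := by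
  unfold simpR
  rw [h, max_self]
  simp

end

/-- PROOF. Let `V, P, T` be the witness of `Good f K`, `k = finrank V`, `e` from
`exists_simplex_homeo`.  On the closed ball of `V` define: if `‖v‖ ≤ 1/2`: `P₁ = P (x, 2 v)`,
`T₁ = T (x, 2 v)`; if `‖v‖ ≥ 1/2`: `w = ‖v‖⁻¹ • v`, `u = min 1 (2 ‖v‖ - 1)`,
`P₁ = (1 - u) • P (x, w) + u • f x`, `T₁ = (1 - u) • T (x, w) + u • w`.  They agree for
`‖v‖ = 1/2`, are continuous, `T₁ = v` for `‖v‖ = 1`, and `‖T₁‖ ≥ 1` for `‖v‖ ≥ 1/2`.  Let
`ρ w = (max 1 ‖w‖)⁻¹ • w` (retraction to the closed ball; `‖ρ w‖ < 1` iff `‖w‖ < 1`, and then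
`ρ w = w`).  Put `P' (x, t) = P₁ (x, e t)` and `T' (x, t) = e.symm (ρ (T₁ (x, e t)))`.
If no `T'` coordinate vanishes then `‖ρ T₁‖ ≠ 1`, so `‖T₁‖ < 1`, so `‖v‖ < 1/2` and
`P₁ = P (x, 2 v) ∈ K` as `‖T (x, 2 v)‖ < 1`.  `car (f x)` is a convex condition satisfied by `f x`.
If `t i = 0` then `‖e t‖ = 1`, so `T₁ = e t` and `T' (x, t) = t`. -/
theorem goodS_of_good {X : Type*} [TopologicalSpace X] {M : ℕ} {f : X → (Fin M → ℝ)}
    (hf : Continuous f) {K : Set (Fin M → ℝ)} (h : Good f K) : ∃ k, GoodS f K k := by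
  obtain ⟨V, i1, i2, i3, P, T, hP, hT, hPK, hcar, hT1⟩ := h
  obtain ⟨e, he⟩ := exists_simplex_homeo V
  -- the maps on `X × V`
  set P₁ : X × V → (Fin M → ℝ) := fun z =>
    (1 - simpU z.2) • P (z.1, simpW z.2) + simpU z.2 • f z.1 with hP₁
  set T₁ : X × V → V := fun z =>
    (1 - simpU z.2) • T (z.1, simpW z.2) + simpU z.2 • simpW z.2 with hT₁
  have cU : Continuous fun z : X × V => simpU z.2 := simpU_cont.comp continuous_snd
  have cW : Continuous fun z : X × V => simpW z.2 := simpW_cont.comp continuous_snd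
  have cXW : Continuous fun z : X × V => (z.1, simpW z.2) := continuous_fst.prodMk cW
  have cP : Continuous P₁ :=
    ((continuous_const.sub cU).smul (hP.comp cXW)).add (cU.smul (hf.comp continuous_fst))
  have cT : Continuous T₁ :=
    ((continuous_const.sub cU).smul (hT.comp cXW)).add (cU.smul cW)
  have hbig : ∀ x v, 1 / 2 ≤ ‖v‖ → 1 ≤ ‖T₁ (x, v)‖ := by
    intro x v hv
    exact hT1 x (simpW v) (simpW_norm hv).ge (simpU v) (simpU_mem v)
  have hone : ∀ x v, ‖v‖ = 1 → T₁ (x, v) = v := by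
    intro x v hv
    simp only [hT₁, simpU_one hv, simpW_one hv, sub_self, zero_smul, one_smul, zero_add]
  have ce : Continuous fun z : X × stdSimplex ℝ (Fin (Module.finrank ℝ V + 1)) =>
      (z.1, ((e z.2 : Metric.closedBall (0 : V) 1) : V)) :=
    continuous_fst.prodMk (continuous_subtype_val.comp (e.continuous.comp continuous_snd))
  have hmem : ∀ v : V, simpR v ∈ Metric.closedBall (0 : V) 1 := by
    intro v
    rw [mem_closedBall_zero_iff]
    exact simpR_norm_le v
  refine ⟨Module.finrank ℝ V, fun z => P₁ (z.1, (e z.2 : V)),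
    fun z => e.symm ⟨simpR (T₁ (z.1, (e z.2 : V))), hmem _⟩, cP.comp ce,
    e.symm.continuous.comp ((simpR_cont.comp (cT.comp ce)).subtype_mk _), ?_, ?_, ?_⟩
  · intro z
    by_cases hz : ‖simpR (T₁ (z.1, (e z.2 : V)))‖ = 1
    · right
      rw [he, e.apply_symm_apply]
      exact hz
    · left
      have h1 : ‖T₁ (z.1, (e z.2 : V))‖ < 1 := by
        by_contra hc
        exact hz (simpR_norm (not_lt.mp hc))
      have h2 : ‖(e z.2 : V)‖ ≤ 1 / 2 := by
        by_contra hc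
        exact absurd (hbig z.1 _ (not_le.mp hc).le) (not_le.mpr h1)
      have h3 : P₁ (z.1, (e z.2 : V)) = P (z.1, simpW (e z.2 : V)) := by
        simp only [hP₁, simpU_small h2, sub_zero, one_smul, zero_smul, add_zero]
      have h4 : T₁ (z.1, (e z.2 : V)) = T (z.1, simpW (e z.2 : V)) := by
        simp only [hT₁, simpU_small h2, sub_zero, one_smul, zero_smul, add_zero]
      show P₁ (z.1, (e z.2 : V)) ∈ K
      rw [h3]
      apply hPK
      rw [← h4]
      exact h1
  · intro z l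
    have hc := hcar (z.1, simpW (e z.2 : V)) l
    have hu := simpU_mem (e z.2 : V)
    have hfl : (⌊f z.1 l⌋ : ℝ) ≤ f z.1 l := Int.floor_le _
    have hcl : f z.1 l ≤ (⌈f z.1 l⌉ : ℝ) := Int.le_ceil _
    have hval : P₁ (z.1, (e z.2 : V)) l =
        (1 - simpU (e z.2 : V)) * P (z.1, simpW (e z.2 : V)) l +
          simpU (e z.2 : V) * f z.1 l := by
      simp only [hP₁, Pi.add_apply, Pi.smul_apply, smul_eq_mul]
    show (⌊f z.1 l⌋ : ℝ) ≤ P₁ (z.1, (e z.2 : V)) l ∧ P₁ (z.1, (e z.2 : V)) l ≤ (⌈f z.1 l⌉ : ℝ)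
    rw [hval]
    obtain ⟨hu0, hu1⟩ := hu
    obtain ⟨hc0, hc1⟩ := hc
    constructor
    · have e1 := mul_le_mul_of_nonneg_left hc0 (sub_nonneg.mpr hu1)
      have e2 := mul_le_mul_of_nonneg_left hfl hu0
      linarith
    · have e1 := mul_le_mul_of_nonneg_left hc1 (sub_nonneg.mpr hu1)
      have e2 := mul_le_mul_of_nonneg_left hcl hu0
      linarith
  · intro x t i hti
    have h1 : ‖(e t : V)‖ = 1 := (he t).mp ⟨i, hti⟩
    have h2 : simpR (T₁ (x, (e t : V))) = (e t : V) := by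
      rw [hone x _ h1, simpR_one h1]
    have h3 : (⟨simpR (T₁ (x, (e t : V))), hmem _⟩ : Metric.closedBall (0 : V) 1) = e t :=
      Subtype.ext h2
    show ((e.symm ⟨simpR (T₁ (x, (e t : V))), hmem _⟩ :
      stdSimplex ℝ (Fin (Module.finrank ℝ V + 1))) : Fin (Module.finrank ℝ V + 1) → ℝ) i = 0
    rw [h3, e.symm_apply_apply]
    exact hti

end SMD
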