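import Pool.Agent.Lib_MP_33f7bb_an.SKELA

/-! Piece SKELB: pushing into the skeleton. -/

open Set Filter Topology

namespace SMD

/-- The set of noninteger coordinates. -/
private def nonInt {M : ℕ} (p : Fin M → ℝ) : Set (Fin M) := {l : Fin M | ∀ z : ℤ, p l ≠ z}

private theorem mem_Sk {M c : ℕ} {p : Fin M → ℝ} : p ∈ Sk M c ↔ (nonInt p).ncard ≤ c := Iff.rfl

private theorem nonInt_of_oCell {M : ℕ} {J : Finset (Fin M)} {a : Fin M → ℤ} {p : Fin M → ℝ}
    (hp : p ∈ oCell J a) : nonInt p = (J : Set (Fin M)) := by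
  ext l
  constructor
  · intro hl
    by_contra h
    have h' : l ∉ J := by simpa using h
    exact hl (a l) (hp.2 l h')
  · intro hl z hz
    have hl' : l ∈ J := by simpa using hl
    obtain ⟨h1, h2⟩ := hp.1 l hl'
    rw [hz] at h1 h2
    have h1' : a l < z := by exact_mod_cast h1
    have h2' : z < a l + 1 := by exact_mod_cast h2
    omega

private theorem ncard_of_oCell {M : ℕ} {J : Finset (Fin M)} {a : Fin M → ℤ} {p : Fin M → ℝ}
    (hp : p ∈ oCell J a) : (nonInt p).ncard = J.card := by
  rw [nonInt_of_oCell hp, Set.ncard_coe_finset]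

/-- The open neighbourhood of a cell which meets the skeleton in the cell only. -/
private def nbh {M : ℕ} (J : Finset (Fin M)) (a : Fin M → ℤ) : Set (Fin M → ℝ) :=
  {p | (∀ l ∈ J, (a l : ℝ) < p l ∧ p l < a l + 1) ∧ ∀ l ∉ J, |p l - a l| < 1}

private theorem isOpen_nbh {M : ℕ} (J : Finset (Fin M)) (a : Fin M → ℤ) : IsOpen (nbh J a) := by
  have h : nbh J a = (⋂ l : Fin M, {p : Fin M → ℝ | l ∈ J → ((a l : ℝ) < p l ∧ p l < a l + 1)}) ∩
      ⋂ l : Fin M, {p : Fin M → ℝ | l ∉ J → |p l - a l| < 1} := by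
    ext p
    simp only [nbh, mem_ofPred_eq, mem_inter_iff, mem_iInter]
  rw [h]
  refine IsOpen.inter (isOpen_iInter_of_finite fun l => ?_) (isOpen_iInter_of_finite fun l => ?_)
  · by_cases hl : l ∈ J
    · have : {p : Fin M → ℝ | l ∈ J → ((a l : ℝ) < p l ∧ p l < a l + 1)} =
          {p : Fin M → ℝ | (a l : ℝ) < p l} ∩ {p : Fin M → ℝ | p l < a l + 1} := by
        ext p
        simp [hl]
      rw [this]
      exact (isOpen_lt continuous_const (continuous_apply l)).inter
        (isOpen_lt (continuous_apply l) continuous_const)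
    · simp [hl]
  · by_cases hl : l ∈ J
    · simp [hl]
    · have : {p : Fin M → ℝ | l ∉ J → |p l - a l| < 1} = {p : Fin M → ℝ | |p l - a l| < 1} := by
        ext p
        simp [hl]
      rw [this]
      exact isOpen_lt ((continuous_apply l).sub continuous_const).abs continuous_const

private theorem oCell_eq {M j : ℕ} {J : Finset (Fin M)} (hJ : J.card = j) (a : Fin M → ℤ)
    {p : Fin M → ℝ} (hp : p ∈ Sk M j) : p ∈ oCell J a ↔ p ∈ nbh J a := by
  constructor
  · rintro ⟨h1, h2⟩
    refine ⟨h1, fun l hl => ?_⟩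
    rw [h2 l hl]
    simp
  · rintro ⟨h1, h2⟩
    refine ⟨h1, fun l hl => ?_⟩
    by_contra hne
    -- the noninteger coordinates are exactly `J`
    have hsub : (J : Set (Fin M)) ⊆ nonInt p := by
      intro m hm z hz
      have hm' : m ∈ J := by simpa using hm
      obtain ⟨h3, h4⟩ := h1 m hm'
      rw [hz] at h3 h4
      have h3' : a m < z := by exact_mod_cast h3
      have h4' : z < a m + 1 := by exact_mod_cast h4
      omega
    have hl' : l ∈ nonInt p := by
      intro z hz
      have h5 := h2 l hl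
      rw [hz] at h5 hne
      have h6 : |((z - a l : ℤ) : ℝ)| < 1 := by
        push_cast
        exact h5
      have h7 : |z - a l| < 1 := by exact_mod_cast h6
      have h8 : z - a l = 0 := Int.abs_lt_one_iff.mp h7
      apply hne
      have : z = a l := by omega
      rw [this]
    have hsub' : ((insert l J : Finset (Fin M)) : Set (Fin M)) ⊆ nonInt p := by
      intro m hm
      rw [Finset.coe_insert] at hm
      rcases hm with rfl | hm
      · exact hl'
      · exact hsub hm
    have hc : (insert l J : Finset (Fin M)).card ≤ (nonInt p).ncard := by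
      rw [← Set.ncard_coe_finset]
      exact Set.ncard_le_ncard hsub' (Set.toFinite _)
    rw [Finset.card_insert_of_notMem hl, hJ] at hc
    have := mem_Sk.mp hp
    omega

private theorem bdry_ncard {M : ℕ} {J : Finset (Fin M)} {a : Fin M → ℤ} {p : Fin M → ℝ}
    (hp : p ∈ cCell J a) (hp' : p ∉ oCell J a) : (nonInt p).ncard < J.card := by
  have hsub : nonInt p ⊆ (J : Set (Fin M)) := by
    intro l hl
    by_contra h
    have h' : l ∉ J := by simpa using h
    exact hl (a l) (hp.2 l h')
  have hne : ∃ l ∈ J, l ∉ nonInt p := by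
    by_contra hcon
    push Not at hcon
    apply hp'
    refine ⟨fun l hl => ?_, hp.2⟩
    obtain ⟨h1, h2⟩ := hp.1 l hl
    have h3 := hcon l hl
    refine ⟨lt_of_le_of_ne h1 (fun h => h3 (a l) h.symm), lt_of_le_of_ne h2 (fun h => ?_)⟩
    exact h3 (a l + 1) (by push_cast; exact h)
  obtain ⟨l, hl, hl'⟩ := hne
  have hss : nonInt p ⊂ (J : Set (Fin M)) := by
    refine ⟨hsub, fun h => hl' (h ?_)⟩
    simpa using hl
  have := Set.ncard_lt_ncard hss (Set.toFinite _)
  rwa [Set.ncard_coe_finset] at this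

/-- One dimension.  PROOF. Let `j > c`, `Good f (Sk M j)`, and `|f x l| ≤ L` for all `x, l` with
`L : ℕ`.  For a finite set `T` of pairs `(J, a)` with `#J = j` one shows
`Good f (Sk M j \ ⋃ e ∈ T, oCell e.1 e.2)` by `Finset.induction_on` and `push`.  Closedness: for
`#J = j`, `oCell J a = Sk M j ∩ O` with the open set
`O = {p | (∀ l ∈ J, a l < p l < a l + 1) ∧ ∀ l ∉ J, |p l - a l| < 1}` (a point of `Sk M j` which is
not an integer in the coordinates `J` has integer coordinates elsewhere).  Also
`cCell J a \ oCell J a ⊆ Sk M (j - 1)`, which is disjoint from all open cells of dimension `j`.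
Finally take for `T` all `(J, a)` with `#J = j`, `-L ≤ a l ≤ L`: if `P z ∈ Sk M j` is in none of
these cells then, as `|P z l| ≤ L` by `car`, `P z ∈ Sk M (j - 1)` (otherwise it has exactly `j`
noninteger coordinates `J` and lies in `oCell J ⌊P z⌋`). -/
theorem good_step {X : Type*} [TopologicalSpace X] {c : ℕ} (hX : PT X c) {M : ℕ}
    {f : X → (Fin M → ℝ)} (hf : Continuous f) (hL : ∃ L : ℕ, ∀ x l, |f x l| ≤ L) {j : ℕ}
    (hj : c < j) (h : Good f (Sk M j)) : Good f (Sk M (j - 1)) := by
  classical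
  obtain ⟨L, hL⟩ := hL
  have hclosed : ∀ T : Finset (Finset (Fin M) × (Fin M → ℤ)), (∀ e ∈ T, e.1.card = j) →
      IsClosed (Sk M j \ ⋃ e ∈ T, oCell e.1 e.2) := by
    intro T hT
    have hEq : (Sk M j \ ⋃ e ∈ T, oCell e.1 e.2) = Sk M j ∩ (⋃ e ∈ T, nbh e.1 e.2)ᶜ := by
      ext p
      simp only [Set.mem_sdiff, mem_iUnion, mem_inter_iff, mem_compl_iff]
      constructor
      · rintro ⟨h1, h2⟩
        refine ⟨h1, ?_⟩
        rintro ⟨e, he, hp⟩
        exact h2 ⟨e, he, (oCell_eq (hT e he) e.2 h1).mpr hp⟩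
      · rintro ⟨h1, h2⟩
        refine ⟨h1, ?_⟩
        rintro ⟨e, he, hp⟩
        exact h2 ⟨e, he, (oCell_eq (hT e he) e.2 h1).mp hp⟩
    rw [hEq]
    refine (isClosed_Sk M j).inter (IsOpen.isClosed_compl ?_)
    exact isOpen_biUnion fun e _ => isOpen_nbh e.1 e.2
  have hkey : ∀ T : Finset (Finset (Fin M) × (Fin M → ℤ)), (∀ e ∈ T, e.1.card = j) →
      Good f (Sk M j \ ⋃ e ∈ T, oCell e.1 e.2) := by
    intro T
    induction T using Finset.induction_on with
    | empty =>
      intro _
      simpa using h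
    | insert e T he ih =>
      intro hT
      have hT' : ∀ e ∈ T, e.1.card = j := fun e' he' => hT e' (Finset.mem_insert_of_mem he')
      have he' : e.1.card = j := hT e (Finset.mem_insert_self e T)
      have hEq : (Sk M j \ ⋃ e' ∈ insert e T, oCell e'.1 e'.2) =
          (Sk M j \ ⋃ e' ∈ T, oCell e'.1 e'.2) \ oCell e.1 e.2 := by
        rw [Finset.set_biUnion_insert]
        ext p
        simp only [Set.mem_sdiff, mem_union]
        tauto
      rw [hEq]
      refine push hX hf e.1 e.2 (by rw [he']; exact hj) (hclosed T hT') ?_ ?_ (ih hT')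
      · rw [← hEq]
        exact hclosed _ hT
      · rintro p ⟨hp1, hp2⟩
        have h1 := bdry_ncard hp1 hp2
        rw [he'] at h1
        refine ⟨mem_Sk.mpr h1.le, ?_⟩
        simp only [mem_iUnion]
        rintro ⟨e', he'', hp⟩
        have h2 := ncard_of_oCell hp
        rw [hT' e' he''] at h2
        omega
  have hfin := hkey ((Finset.powersetCard j Finset.univ) ×ˢ
    (Fintype.piFinset fun _ => Finset.Icc (-(L : ℤ)) L)) (by
      intro e he
      rw [Finset.mem_product, Finset.mem_powersetCard] at he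
      exact he.1.2)
  obtain ⟨V, i1, i2, i3, P, T, hP, hTc, h1, h2, h3⟩ := hfin
  refine ⟨V, i1, i2, i3, P, T, hP, hTc, fun z hz => ?_, h2, h3⟩
  obtain ⟨hz1, hz2⟩ := h1 z hz
  by_contra hcon
  have hc1 : (nonInt (P z)).ncard ≤ j := mem_Sk.mp hz1
  have hc2 : ¬ (nonInt (P z)).ncard ≤ j - 1 := hcon
  have hc3 : (nonInt (P z)).ncard = j := by omega
  apply hz2
  simp only [mem_iUnion]
  refine ⟨((nonInt (P z)).toFinite.toFinset, fun l => ⌊P z l⌋), ?_, ?_⟩
  · rw [Finset.mem_product, Finset.mem_powersetCard]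
    refine ⟨⟨Finset.subset_univ _, ?_⟩, ?_⟩
    · rw [← hc3, Set.ncard_eq_toFinset_card _ (nonInt (P z)).toFinite]
    · rw [Fintype.mem_piFinset]
      intro l
      rw [Finset.mem_Icc]
      obtain ⟨h4, h5⟩ := h2 z l
      have h6 := abs_le.mp (hL z.1 l)
      have h7 : -(L : ℤ) ≤ ⌊f z.1 l⌋ := by
        rw [Int.le_floor]
        push_cast
        exact h6.1
      have h8 : ⌈f z.1 l⌉ ≤ (L : ℤ) := by
        rw [Int.ceil_le]
        push_cast
        exact h6.2
      have h7' : (-(L : ℤ) : ℝ) ≤ (⌊f z.1 l⌋ : ℝ) := by exact_mod_cast h7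
      have h8' : (⌈f z.1 l⌉ : ℝ) ≤ ((L : ℤ) : ℝ) := by exact_mod_cast h8
      constructor
      · show -(L : ℤ) ≤ ⌊P z l⌋
        rw [Int.le_floor]
        push_cast
        push_cast at h7'
        linarith
      · show ⌊P z l⌋ ≤ (L : ℤ)
        have h9 : (⌊P z l⌋ : ℝ) ≤ ((L : ℤ) : ℝ) := (Int.floor_le _).trans (h5.trans h8')
        exact_mod_cast h9
  · constructor
    · intro l hl
      have hl' : l ∈ nonInt (P z) := by simpa using hl
      refine ⟨lt_of_le_of_ne (Int.floor_le _) (fun h => hl' _ h.symm), Int.lt_floor_add_one _⟩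
    · intro l hl
      have hl' : l ∉ nonInt (P z) := by simpa using hl
      have hl'' : ∃ w : ℤ, P z l = w := by
        by_contra hno
        push Not at hno
        exact hl' hno
      obtain ⟨w, hw⟩ := hl''
      show P z l = ((⌊P z l⌋ : ℤ) : ℝ)
      rw [hw, Int.floor_intCast]

/-- PROOF. From `good_univ`, `Sk_top` and `good_step` for `j = M, M - 1, ..., c + 1`
(if `M ≤ c` then `Sk M c = univ`). -/
theorem good_Sk {X : Type*} [TopologicalSpace X] {c : ℕ} (hX : PT X c) {M : ℕ}
    {f : X → (Fin M → ℝ)} (hf : Continuous f) (hL : ∃ L : ℕ, ∀ x l, |f x l| ≤ L) :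
    Good f (Sk M c) := by
  rcases le_total M c with hMc | hMc
  · have : Sk M c = univ := by
      apply eq_univ_of_univ_subset
      rw [← Sk_top M]
      intro p hp
      exact le_trans hp hMc
    rw [this]
    exact good_univ hf
  · have hstep : ∀ i : ℕ, c + i ≤ M → Good f (Sk M (M - i)) := by
      intro i
      induction i with
      | zero =>
        intro _
        rw [Nat.sub_zero, Sk_top]
        exact good_univ hf
      | succ i ih =>
        intro hi
        have := good_step hX hf hL (j := M - i) (by omega) (ih (by omega))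
        have e : M - i - 1 = M - (i + 1) := by omega
        rwa [e] at this
    have := hstep (M - c) (by omega)
    have e : M - (M - c) = c := by omega
    rwa [e] at this

end SMD
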