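import Pool.Agent.Lib_MP_33f7bb_an.GENV
import Pool.Agent.Lib_MP_33f7bb_an.PTL
import Pool.Agent.Lib_MP_33f7bb_an.SKEL
import Pool.Agent.Lib_MP_33f7bb_an.SIMP
import Pool.Agent.Lib_MP_33f7bb_an.ITER
import Pool.Agent.Lib_MP_33f7bb_an.FIN

/-! Main theorem. -/

open Set Filter Topology

namespace SMD

theorem mdim_le {X : Type*} [MetricSpace X] [CompactSpace X] {c : ℕ} (h : StableDimLE X c)
    (G : Type*) [Group G] [MulAction G X] (S : SoficSeq G) : mdim X G S ≤ (c : EReal) := by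
  have hPT : PT X c := PT_of_SI (SI_of_stableDim h)
  refine mdim_le_of_widim (fun ε hε => ?_) G S
  obtain ⟨M, f, hf, hL, hf'⟩ := exists_embedding (X := X) hε
  obtain ⟨k, hk⟩ := goodS_of_good hf (good_Sk hPT hf hL)
  refine ⟨M * (k + 1), fun n Z => ?_⟩
  exact widimLE_of_PM hε (PM_pow hε f hL hf' hk n) Z

theorem not_Q1 {X : Type} [MetricSpace X] [CompactSpace X] {c : ℕ} (h : StableDimLE X c)
    (hX : ∀ n, ¬ CovDimLE X n) : ¬ Q1 := by
  intro hQ
  obtain ⟨S⟩ := exists_soficSeq_unit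
  letI : MulAction Unit X :=
    { smul := fun _ x => x
      one_smul := fun _ => rfl
      mul_smul := fun _ _ _ => rfl }
  haveI : ContinuousConstSMul Unit X := ⟨fun _ => continuous_id⟩
  have h1 := hQ Unit X hX S
  have h2 := mdim_le h Unit S
  rw [h1] at h2
  exact absurd (top_le_iff.mp h2) (EReal.natCast_ne_top c)

end SMD
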