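import Pool.Agent.Lib_MP_33f7bb_an.Defs

/-! Piece PART: thin slabs. -/

open Set Filter Topology

namespace SMD

/-- The `i`-th partition point of `[-1, 1]` divided in `r` equal parts. -/
noncomputable def tau (r i : ℕ) : ℝ := -1 + 2 * (i : ℝ) / (r : ℝ)

/-- PROOF. Only `‖v‖ < 1` matters.  The set
`E = {(y, τ, τ', v) | (y, τ) ∈ C, ‖v‖ ≤ 1, F ((y, τ'), v) = 0} ⊆ Y × I × I × V` is compact and
`|τ - τ'|` is positive on it (if `τ = τ'` then `F ((y, τ), v) = 0` with `(y, τ) ∈ C`).  So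
`|τ - τ'| ≥ η > 0` on `E` (or `E` is empty); take `r` with `2 / r < η`. -/
theorem exists_partition {Y : Type*} [TopologicalSpace Y] [CompactSpace Y]
    {V : Type} [NormedAddCommGroup V] [NormedSpace ℝ V] [FiniteDimensional ℝ V]
    {W : Type} [NormedAddCommGroup W] [NormedSpace ℝ W]
    {C : Set (Y × Icc (-1 : ℝ) 1)} (hC : IsClosed C) {F : (Y × Icc (-1 : ℝ) 1) × V → W}
    (hF : Continuous F) (hF0 : ∀ p v, (p ∈ C ∨ 1 ≤ ‖v‖) → F (p, v) ≠ 0) :
    ∃ r : ℕ, 0 < r ∧ ∀ i < r, ∀ (y : Y) (t t' : Icc (-1 : ℝ) 1), (y, t) ∈ C →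
      tau r i ≤ t → (t : ℝ) ≤ tau r (i + 1) → tau r i ≤ t' → (t' : ℝ) ≤ tau r (i + 1) →
      ∀ v, F ((y, t'), v) ≠ 0 := by
  classical
  haveI : ProperSpace V := FiniteDimensional.proper_real V
  -- the compact set
  set K : Set ((Y × Icc (-1 : ℝ) 1 × Icc (-1 : ℝ) 1) × V) :=
    {q | (q.1.1, q.1.2.1) ∈ C ∧ ‖q.2‖ ≤ 1 ∧ F ((q.1.1, q.1.2.2), q.2) = 0} with hK
  have hKc : IsCompact K := by
    have h1 : IsCompact ((univ : Set (Y × Icc (-1 : ℝ) 1 × Icc (-1 : ℝ) 1)) ×ˢ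
        Metric.closedBall (0 : V) 1) := isCompact_univ.prod (isCompact_closedBall _ _)
    refine h1.of_isClosed_subset ?_ ?_
    · have c1 : IsClosed {q : (Y × Icc (-1 : ℝ) 1 × Icc (-1 : ℝ) 1) × V |
          (q.1.1, q.1.2.1) ∈ C} := hC.preimage (by fun_prop)
      have c2 : IsClosed {q : (Y × Icc (-1 : ℝ) 1 × Icc (-1 : ℝ) 1) × V | ‖q.2‖ ≤ 1} :=
        isClosed_le (by fun_prop) continuous_const
      have c3 : IsClosed {q : (Y × Icc (-1 : ℝ) 1 × Icc (-1 : ℝ) 1) × V |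
          F ((q.1.1, q.1.2.2), q.2) = 0} :=
        isClosed_eq (hF.comp (by fun_prop)) continuous_const
      exact c1.inter (c2.inter c3)
    · rintro q ⟨-, h2, -⟩
      exact ⟨mem_univ _, by simpa using h2⟩
  have mem : ∀ (y : Y) (t t' : Icc (-1 : ℝ) 1) (v : V), (y, t) ∈ C → F ((y, t'), v) = 0 →
      (((y, t, t'), v) : (Y × Icc (-1 : ℝ) 1 × Icc (-1 : ℝ) 1) × V) ∈ K := by
    intro y t t' v h1 h2
    refine ⟨h1, ?_, h2⟩
    by_contra h3
    exact hF0 (y, t') v (Or.inr (not_le.1 h3).le) h2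
  rcases K.eq_empty_or_nonempty with hE | hne
  · refine ⟨1, one_pos, fun i _ y t t' h1 _ _ _ _ v h2 => ?_⟩
    have := mem y t t' v h1 h2
    rw [hE] at this
    exact this
  · obtain ⟨q0, hq0, hmin⟩ := hKc.exists_isMinOn hne
      (f := fun q => |(q.1.2.1 : ℝ) - (q.1.2.2 : ℝ)|) (by fun_prop)
    set η : ℝ := |(q0.1.2.1 : ℝ) - (q0.1.2.2 : ℝ)| with hη
    have hpos : 0 < η := by
      rw [hη, abs_pos, sub_ne_zero]
      intro h
      have h' : q0.1.2.1 = q0.1.2.2 := Subtype.ext h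
      obtain ⟨h1, -, h3⟩ := hq0
      rw [← h'] at h3
      exact hF0 _ _ (Or.inl h1) h3
    obtain ⟨r, hr⟩ := exists_nat_gt (2 / η)
    have hr0 : (0 : ℝ) < r := lt_trans (by positivity) hr
    refine ⟨r, by exact_mod_cast hr0, fun i _ y t t' h1 h2 h3 h4 h5 v h6 => ?_⟩
    have h7 : η ≤ |(t : ℝ) - (t' : ℝ)| := hmin (mem y t t' v h1 h6)
    have h8 : tau r (i + 1) - tau r i = 2 / r := by
      simp only [tau]
      push_cast
      field_simp
      ring
    have h9 : |(t : ℝ) - (t' : ℝ)| ≤ 2 / r := by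
      rw [abs_le]
      constructor <;> linarith
    have h10 : 2 / (r : ℝ) < η := by
      rw [div_lt_iff₀ hr0]
      rw [div_lt_iff₀ hpos] at hr
      linarith
    linarith

/-- Elementary facts on the partition points. -/
theorem tau_zero (r : ℕ) : tau r 0 = -1 := by
  simp [tau]

theorem tau_last {r : ℕ} (hr : 0 < r) : tau r r = 1 := by
  have : (r : ℝ) ≠ 0 := by positivity
  simp only [tau]
  field_simp
  norm_num

theorem tau_mono {r i i' : ℕ} (h : i ≤ i') : tau r i ≤ tau r i' := by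
  simp only [tau]
  gcongr

theorem tau_lt {r i i' : ℕ} (hr : 0 < r) (h : i < i') : tau r i < tau r i' := by
  have hr' : (0 : ℝ) < r := by exact_mod_cast hr
  have hi : (i : ℝ) < i' := by exact_mod_cast h
  simp only [tau]
  gcongr

theorem tau_mem {r i : ℕ} (hr : 0 < r) (h : i ≤ r) : tau r i ∈ Icc (-1 : ℝ) 1 := by
  constructor
  · rw [← tau_zero r]; exact tau_mono (Nat.zero_le i)
  · rw [← tau_last hr]; exact tau_mono h

/-- Every point lies in some slab. -/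
theorem exists_slab {r : ℕ} (hr : 0 < r) (t : ℝ) (ht : t ∈ Icc (-1 : ℝ) 1) :
    ∃ i < r, tau r i ≤ t ∧ t ≤ tau r (i + 1) := by
  by_contra hcon
  push Not at hcon
  have key : ∀ i ≤ r, tau r i ≤ t := by
    intro i
    induction i with
    | zero =>
      intro _
      rw [tau_zero]
      exact ht.1
    | succ i ih =>
      intro hi
      exact (hcon i (by omega) (ih (by omega))).le
  obtain ⟨s, rfl⟩ : ∃ s, r = s + 1 := ⟨r - 1, by omega⟩
  have h1 := hcon s (by omega) (key s (by omega))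
  rw [tau_last hr] at h1
  exact absurd ht.2 (not_le.2 h1)

end SMD
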