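import Pool.Agent.Lib_MP_33f7bb_an.SUSP

/-! Piece SLAB: stable triviality on a slab `α ≤ τ ≤ β` relative to its ends and to `A × [α, β]`. -/

open Set Filter Topology

namespace SMD

/-- PROOF. Let `a : ℝ → Icc (-1) 1` be `x ↦ (α + β)/2 + (β - α)/2 * clamp x` with
`clamp x = max (-1) (min 1 x)` (continuous, `a (-1) = α`, `a 1 = β`, values in `[α, β]`).
Apply `SI Y j` to `A`, the space `V̂ = ℝ × V` (sup norm, finrank `1 + finrank V`), `W`, and
`F̂ (y, (x, v)) = F ((y, a x), v)`; it has no zeros if `y ∈ A` or `|x| ≥ 1` (then `a x ∈ {α, β}`) or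
`‖v‖ ≥ 1`, i.e. if `y ∈ A ∨ 1 ≤ ‖(x, v)‖`.  Witness `V', Ĝ`.  For `p = ((y, τ), v)` in the slab
let `x = (2 τ - α - β)/(β - α) ∈ [-1, 1]`, so `a x = τ`, and put
`G (p, s) = Ĝ ((y, (x, v)), s)`.  Boundary values: `y ∈ A`; `τ = α` or `β` gives `|x| = 1`;
`‖v‖ ≥ 1`; `‖s‖ ≥ 1`. -/
theorem slab {Y : Type*} [TopologicalSpace Y] {j : ℕ} (h : SI Y j)
    (V : Type) [NormedAddCommGroup V] [NormedSpace ℝ V] [FiniteDimensional ℝ V]
    (W : Type) [NormedAddCommGroup W] [NormedSpace ℝ W] [FiniteDimensional ℝ W]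
    (hd : Module.finrank ℝ W = j + 1 + Module.finrank ℝ V)
    {A : Set Y} (hA : IsClosed A) (α β : ℝ) (hα : -1 ≤ α) (hαβ : α < β) (hβ : β ≤ 1)
    (F : (Y × Icc (-1 : ℝ) 1) × V → W) (hF : Continuous F)
    (hF0 : ∀ (y : Y) (t : Icc (-1 : ℝ) 1) (v : V), α ≤ t → (t : ℝ) ≤ β →
      (y ∈ A ∨ (t : ℝ) = α ∨ (t : ℝ) = β ∨ 1 ≤ ‖v‖) → F ((y, t), v) ≠ 0) :
    StabNullOn {p : (Y × Icc (-1 : ℝ) 1) × V | α ≤ p.1.2 ∧ (p.1.2 : ℝ) ≤ β}
      {p | p.1.1 ∈ A ∨ (p.1.2 : ℝ) = α ∨ (p.1.2 : ℝ) = β ∨ 1 ≤ ‖p.2‖} F := by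
  have hβα : 0 < β - α := by linarith
  have hc1 : ∀ x : ℝ, -1 ≤ max (-1) (min 1 x) := fun x => le_max_left _ _
  have hc2 : ∀ x : ℝ, max (-1) (min 1 x) ≤ 1 := fun x => max_le (by norm_num) (min_le_left _ _)
  have hlow : ∀ x : ℝ, α ≤ (α + β) / 2 + (β - α) / 2 * max (-1) (min 1 x) := by
    intro x
    nlinarith [hc1 x]
  have hupp : ∀ x : ℝ, (α + β) / 2 + (β - α) / 2 * max (-1) (min 1 x) ≤ β := by
    intro x
    nlinarith [hc2 x]
  let a : ℝ → Icc (-1 : ℝ) 1 := fun x =>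
    ⟨(α + β) / 2 + (β - α) / 2 * max (-1) (min 1 x), hα.trans (hlow x), (hupp x).trans hβ⟩
  have ha : Continuous a := by
    refine Continuous.subtype_mk ?_ _
    fun_prop
  have hab : ∀ x : ℝ, 1 ≤ |x| → ((a x : ℝ) = α ∨ (a x : ℝ) = β) := by
    intro x hx
    rcases le_abs.1 hx with h1 | h1
    · right
      show (α + β) / 2 + (β - α) / 2 * max (-1) (min 1 x) = β
      rw [min_eq_left h1, max_eq_right (by norm_num)]
      ring
    · left
      show (α + β) / 2 + (β - α) / 2 * max (-1) (min 1 x) = α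
      rw [min_eq_right (by linarith), max_eq_left (by linarith)]
      ring
  have hd' : Module.finrank ℝ W = j + Module.finrank ℝ (ℝ × V) := by
    rw [Module.finrank_prod, Module.finrank_self, hd]
    ring
  obtain ⟨V', i1, i2, i3, G, hG, hG0, hGb⟩ := h A hA (ℝ × V) W hd' (fun p => F ((p.1, a p.2.1), p.2.2))
    (hF.comp (by fun_prop)) (by
      rintro y ⟨x, v⟩ hyx
      refine hF0 y (a x) v (hlow x) (hupp x) ?_
      rcases hyx with h1 | h1
      · exact Or.inl h1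
      · rw [Prod.norm_def] at h1
        rcases le_max_iff.1 h1 with h2 | h2
        · rcases hab x (by simpa using h2) with h3 | h3
          · exact Or.inr (Or.inl h3)
          · exact Or.inr (Or.inr (Or.inl h3))
        · exact Or.inr (Or.inr (Or.inr h2)))
  refine ⟨V', i1, i2, i3, fun p => G ((p.1.1.1, ((2 * (p.1.1.2 : ℝ) - α - β) / (β - α), p.1.2)), p.2), ?_, ?_, ?_⟩
  · refine (hG.comp ?_).continuousOn
    fun_prop
  · rintro z - v
    exact hG0 _
  · rintro ⟨⟨y, τ⟩, v⟩ ⟨hz1, hz2⟩ s hs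
    have hx : a ((2 * (τ : ℝ) - α - β) / (β - α)) = τ := by
      apply Subtype.ext
      show (α + β) / 2 + (β - α) / 2 * max (-1) (min 1 ((2 * (τ : ℝ) - α - β) / (β - α))) = τ
      have e1 : (2 * (τ : ℝ) - α - β) / (β - α) ≤ 1 := by
        rw [div_le_one hβα]
        have : (τ : ℝ) ≤ β := hz2
        linarith
      have e2 : -1 ≤ (2 * (τ : ℝ) - α - β) / (β - α) := by
        rw [le_div_iff₀ hβα]
        have : α ≤ (τ : ℝ) := hz1
        linarith
      rw [min_eq_right e1, max_eq_right e2]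
      field_simp
      ring
    have hb := hGb (y, ((2 * (τ : ℝ) - α - β) / (β - α), v)) s (by
      rcases hs with (h1 | h1 | h1 | h1) | h1
      · exact Or.inl (Or.inl h1)
      · left; right
        show (1 : ℝ) ≤ ‖(((2 * (τ : ℝ) - α - β) / (β - α), v) : ℝ × V)‖
        rw [Prod.norm_def]
        refine le_max_of_le_left ?_
        have h1' : (τ : ℝ) = α := h1
        show (1 : ℝ) ≤ ‖(2 * (τ : ℝ) - α - β) / (β - α)‖
        rw [h1', show (2 * α - α - β) / (β - α) = -1 by rw [div_eq_iff hβα.ne']; ring]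
        simp
      · left; right
        show (1 : ℝ) ≤ ‖(((2 * (τ : ℝ) - α - β) / (β - α), v) : ℝ × V)‖
        rw [Prod.norm_def]
        refine le_max_of_le_left ?_
        have h1' : (τ : ℝ) = β := h1
        show (1 : ℝ) ≤ ‖(2 * (τ : ℝ) - α - β) / (β - α)‖
        rw [h1', show (2 * β - α - β) / (β - α) = 1 by rw [div_eq_iff hβα.ne']; ring]
        simp
      · left; right
        show (1 : ℝ) ≤ ‖(((2 * (τ : ℝ) - α - β) / (β - α), v) : ℝ × V)‖
        rw [Prod.norm_def]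
        exact le_max_of_le_right h1
      · exact Or.inr h1)
    show G ((y, ((2 * (τ : ℝ) - α - β) / (β - α), v)), s) = (F ((y, τ), v), s)
    rw [hb]
    show (F ((y, a ((2 * (τ : ℝ) - α - β) / (β - α))), v), s) = _
    rw [hx]

end SMD
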