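import Pool.Agent.Lib_MP_33f7bb_an.REL
import Pool.Agent.Lib_MP_33f7bb_an.GLUE
import Pool.Agent.Lib_MP_33f7bb_an.PART
import Pool.Agent.Lib_MP_33f7bb_an.LEV
import Pool.Agent.Lib_MP_33f7bb_an.SLAB

/-! Piece PRODT: the product theorem `dim (Y × I) ≤ dim Y + 1`. -/

open Set Filter Topology

namespace SMD

/-- PROOF. Let `C ⊆ Y × I` closed, `V, W, F` be given (`finrank W = j + 1 + finrank V`),
`Z = (Y × I) × V`.  Take `r` from `exists_partition`.  For `i < r` let
`A i = {y | ∃ t, (y, t) ∈ C ∧ tau r i ≤ t ≤ tau r (i+1)}`: closed (projection of a closed set along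
the compact `I`).  Let `C' = {(y, t) | ∃ i < r, tau r i ≤ t ≤ tau r (i+1) ∧ y ∈ A i}`, closed,
`C ⊆ C'` (`exists_slab`), and `F (p, v) ≠ 0` for `p ∈ C'` or `1 ≤ ‖v‖`.  By `StabNull.mono` it is
enough to show `StabNull B F` with `B = {p | p.1 ∈ C' ∨ 1 ≤ ‖p.2‖}`.  Apply `StabNull.of_rel` with
`D = {p | ∃ i ≤ r, p.1.2 = tau r i} = ⋃ i < r + 1, {p | p.1.2 = tau r i}` (closed).
* `h1`: `StabNullOn.glue_fin` and `level` (with `C'`); different levels are disjoint.
* `h2`: given `V₀` and `F' : Z × V₀ → W × V₀` without zeros on `B ∪ D` or `1 ≤ ‖v₀‖`: conjugate with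
`e : ((Y × I) × V) × V₀ ≃ₜ (Y × I) × (V × V₀)` (`StabNullOn.comp` / `StabNull.comp`; note
`1 ≤ ‖(v, v₀)‖ ↔ 1 ≤ ‖v‖ ∨ 1 ≤ ‖v₀‖`).  On each slab `i` apply `slab` (with `SI Y j`, the space
`V × V₀`, target `W × V₀`, `finrank = j + 1 + finrank (V × V₀)`, `A := A i`, `α = tau r i`,
`β = tau r (i+1)`); its hypothesis holds since `y ∈ A i` and `t` in the slab give `(y, t) ∈ C'`, and
the ends are in `D`.  Two different slabs meet only in `D` (at a common end).  Glue with
`StabNullOn.glue_fin` relative to `B'' = {q | q.1 ∈ C' ∨ q.1.2 is a tau ∨ 1 ≤ ‖q.2‖}`: for this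
one needs each slab statement relative to `B''`: by `StabNullOn.mono` it is enough that inside the
slab `i`, `B''` is contained in the `B`-set of `slab i`; but a point `(y, t)` of the slab `i` may be
in `C'` because of a neighbouring slab only if `t` is an end, fine. -/
theorem SI_prod {Y : Type*} [TopologicalSpace Y] [CompactSpace Y]
    [TopologicalSpace.MetrizableSpace Y] {j : ℕ} (h : SI Y j) (h' : SI Y (j + 1)) :
    SI (Y × Icc (-1 : ℝ) 1) (j + 1) := by
  intro C hC V _ _ _ W _ _ _ hd F hF hF0
  obtain ⟨r, hr, hpart⟩ := exists_partition hC hF hF0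
  let A : ℕ → Set Y := fun i =>
    {y | ∃ t : Icc (-1 : ℝ) 1, (y, t) ∈ C ∧ tau r i ≤ (t : ℝ) ∧ (t : ℝ) ≤ tau r (i + 1)}
  have hA : ∀ i, IsClosed (A i) := by
    intro i
    have hAi : A i = Prod.fst '' (C ∩ {p : Y × Icc (-1 : ℝ) 1 |
        tau r i ≤ (p.2 : ℝ) ∧ (p.2 : ℝ) ≤ tau r (i + 1)}) := by
      ext y
      constructor
      · rintro ⟨t, h1, h2, h3⟩
        exact ⟨(y, t), ⟨h1, h2, h3⟩, rfl⟩
      · rintro ⟨⟨y', t⟩, ⟨h1, h2, h3⟩, rfl⟩
        exact ⟨t, h1, h2, h3⟩
    rw [hAi]
    refine isClosedMap_fst_of_compactSpace _ (hC.inter ?_)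
    refine IsClosed.inter ?_ ?_
    · exact isClosed_le continuous_const (continuous_subtype_val.comp continuous_snd)
    · exact isClosed_le (continuous_subtype_val.comp continuous_snd) continuous_const
  let C' : Set (Y × Icc (-1 : ℝ) 1) :=
    ⋃ i ∈ Finset.range r, {p | (tau r i ≤ (p.2 : ℝ) ∧ (p.2 : ℝ) ≤ tau r (i + 1)) ∧ p.1 ∈ A i}
  have hC'm : ∀ p, p ∈ C' ↔ ∃ i < r, (tau r i ≤ (p.2 : ℝ) ∧ (p.2 : ℝ) ≤ tau r (i + 1)) ∧
      p.1 ∈ A i := by
    intro p
    simp only [C', mem_iUnion, Finset.mem_range, exists_prop, Set.mem_ofPred_eq]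
  have hC' : IsClosed C' := by
    refine isClosed_biUnion_finset fun i _ => ?_
    refine IsClosed.inter (IsClosed.inter ?_ ?_) ?_
    · exact isClosed_le continuous_const (continuous_subtype_val.comp continuous_snd)
    · exact isClosed_le (continuous_subtype_val.comp continuous_snd) continuous_const
    · exact (hA i).preimage continuous_fst
  have hCC' : C ⊆ C' := by
    rintro ⟨y, t⟩ hyt
    obtain ⟨i, hi, h1, h2⟩ := exists_slab hr (t : ℝ) t.2
    exact (hC'm _).2 ⟨i, hi, ⟨h1, h2⟩, ⟨t, hyt, h1, h2⟩⟩
  have hF0' : ∀ p v, (p ∈ C' ∨ 1 ≤ ‖v‖) → F (p, v) ≠ 0 := by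
    rintro ⟨y, t'⟩ v hpv
    rcases hpv with hp | hv
    · obtain ⟨i, hi, ⟨h1, h2⟩, ⟨t, ht, h3, h4⟩⟩ := (hC'm _).1 hp
      exact hpart i hi y t t' ht h3 h4 h1 h2 v
    · exact hF0 _ v (Or.inr hv)
  -- the sets of `of_rel`
  let B : Set ((Y × Icc (-1 : ℝ) 1) × V) := {p | p.1 ∈ C' ∨ 1 ≤ ‖p.2‖}
  have hBcl : IsClosed B := by
    refine IsClosed.union ?_ ?_
    · exact hC'.preimage continuous_fst
    · exact isClosed_le continuous_const continuous_snd.norm
  let S : ℕ → Set ((Y × Icc (-1 : ℝ) 1) × V) := fun i => {p | (p.1.2 : ℝ) = tau r i}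
  have hS : ∀ i, IsClosed (S i) := by
    intro i
    exact isClosed_eq (continuous_subtype_val.comp (continuous_snd.comp continuous_fst))
      continuous_const
  let D : Set ((Y × Icc (-1 : ℝ) 1) × V) := ⋃ i < r + 1, S i
  have hDm : ∀ p, p ∈ D ↔ ∃ i < r + 1, (p.1.2 : ℝ) = tau r i := by
    intro p
    simp only [D, S, mem_iUnion, exists_prop, Set.mem_ofPred_eq]
  have hDcl : IsClosed D := by
    have : D = ⋃ i ∈ Finset.range (r + 1), S i := by
      simp only [D, Finset.mem_range]
    rw [this]
    exact isClosed_biUnion_finset fun i _ => hS i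
  have hmain : StabNull B F := by
    refine StabNull.of_rel (D := D) hBcl hDcl hF ?_ ?_ ?_
    · rintro ⟨p, v⟩ hz
      exact hF0' p v hz
    · -- levels
      refine StabNullOn.glue_fin hF (r + 1) S (fun i _ => hS i) ?_ ?_
      · rintro i _ i' _ hii' p ⟨hp, hp'⟩
        exfalso
        have hpi : (p.1.2 : ℝ) = tau r i := hp
        have hpi' : (p.1.2 : ℝ) = tau r i' := hp'
        rcases lt_or_gt_of_ne hii' with hlt | hlt
        · have := tau_lt hr hlt
          linarith
        · have := tau_lt hr hlt
          linarith
      · intro i hi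
        have hti : tau r i ∈ Icc (-1 : ℝ) 1 := tau_mem hr (by omega)
        have := level h' V W hd hC' F hF hF0' ⟨tau r i, hti⟩
        refine StabNullOn.mono ?_ (le_refl _) this
        intro p hp
        exact Subtype.ext hp
    · -- slabs
      intro V₀ _ _ _ F' hF' hF'0
      let E : ((Y × Icc (-1 : ℝ) 1) × V) × V₀ → (Y × Icc (-1 : ℝ) 1) × (V × V₀) :=
        fun p => (p.1.1, (p.1.2, p.2))
      have hE : Continuous E :=
        (continuous_fst.comp continuous_fst).prodMk
          ((continuous_snd.comp continuous_fst).prodMk continuous_snd)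
      let F'' : (Y × Icc (-1 : ℝ) 1) × (V × V₀) → W × V₀ :=
        fun q => F' ((q.1, q.2.1), q.2.2)
      have hF'' : Continuous F'' := by
        refine hF'.comp ?_
        exact (continuous_fst.prodMk (continuous_fst.comp continuous_snd)).prodMk
          (continuous_snd.comp continuous_snd)
      let B'' : Set ((Y × Icc (-1 : ℝ) 1) × (V × V₀)) :=
        {q | q.1 ∈ C' ∨ (∃ i < r + 1, (q.1.2 : ℝ) = tau r i) ∨ 1 ≤ ‖q.2‖}
      have hkey : StabNull B'' F'' := by
        rw [stabNull_iff_on]
        let T : ℕ → Set ((Y × Icc (-1 : ℝ) 1) × (V × V₀)) := fun i =>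
          {q | tau r i ≤ (q.1.2 : ℝ) ∧ (q.1.2 : ℝ) ≤ tau r (i + 1)}
        have hT : ∀ i, IsClosed (T i) := by
          intro i
          refine IsClosed.inter ?_ ?_
          · exact isClosed_le continuous_const
              (continuous_subtype_val.comp (continuous_snd.comp continuous_fst))
          · exact isClosed_le (continuous_subtype_val.comp (continuous_snd.comp continuous_fst))
              continuous_const
        have hcov : (univ : Set ((Y × Icc (-1 : ℝ) 1) × (V × V₀))) ⊆ ⋃ i < r, T i := by
          intro q _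
          obtain ⟨i, hi, h1, h2⟩ := exists_slab hr (q.1.2 : ℝ) q.1.2.2
          simp only [mem_iUnion]
          exact ⟨i, hi, h1, h2⟩
        refine StabNullOn.mono hcov (le_refl _) ?_
        refine StabNullOn.glue_fin hF'' r T (fun i _ => hT i) ?_ ?_
        · rintro i hi i' hi' hii' q ⟨⟨h1, h2⟩, ⟨h3, h4⟩⟩
          right
          left
          rcases lt_or_gt_of_ne hii' with hlt | hlt
          · have hm : tau r (i + 1) ≤ tau r i' := tau_mono hlt
            exact ⟨i', by omega, by linarith⟩
          · have hm : tau r (i' + 1) ≤ tau r i := tau_mono hlt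
            exact ⟨i, by omega, by linarith⟩
        · intro i hi
          have hd' : Module.finrank ℝ (W × V₀) = j + 1 + Module.finrank ℝ (V × V₀) := by
            rw [Module.finrank_prod, Module.finrank_prod, hd]
            omega
          have hi0 : -1 ≤ tau r i := (tau_mem hr (by omega : i ≤ r)).1
          have hi1 : tau r (i + 1) ≤ 1 := (tau_mem hr (by omega : i + 1 ≤ r)).2
          have hslab := slab h (V × V₀) (W × V₀) hd' (hA i) (tau r i) (tau r (i + 1)) hi0
            (tau_lt hr (Nat.lt_succ_self i)) hi1 F'' hF'' (by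
              rintro y t ⟨v, v₀⟩ ht1 ht2 hcase
              show F' (((y, t), v), v₀) ≠ 0
              apply hF'0
              rcases hcase with hy | ht | ht | hv
              · left
                left
                left
                exact (hC'm _).2 ⟨i, hi, ⟨ht1, ht2⟩, hy⟩
              · left
                right
                exact (hDm _).2 ⟨i, by omega, ht⟩
              · left
                right
                exact (hDm _).2 ⟨i + 1, by omega, ht⟩
              · rw [Prod.norm_def] at hv
                rcases le_max_iff.1 hv with hv | hv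
                · left
                  left
                  right
                  exact hv
                · right
                  exact hv)
          refine StabNullOn.comp (F := F'') (fun q => q) continuousOn_id (fun q hq => hq) ?_ hslab
          rintro q ⟨hq1, hq2⟩ hqB
          rcases hqB with hq | ⟨i', hi', hq⟩ | hq
          · obtain ⟨i', hi', ⟨h1, h2⟩, h3⟩ := (hC'm _).1 hq
            rcases lt_trichotomy i' i with hlt | heq | hlt
            · right
              left
              have hm : tau r (i' + 1) ≤ tau r i := tau_mono hlt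
              linarith
            · left
              rw [← heq]
              exact h3
            · right
              right
              left
              have hm : tau r (i + 1) ≤ tau r i' := tau_mono hlt
              linarith
          · rcases lt_trichotomy i' i with hlt | heq | hlt
            · exfalso
              have := tau_lt hr hlt
              linarith
            · right
              left
              rw [← heq]
              exact hq
            · right
              right
              left
              have hm : tau r (i + 1) ≤ tau r i' := tau_mono hlt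
              linarith
          · right
            right
            right
            exact hq
      have hcomp := StabNull.comp (B' := {p : ((Y × Icc (-1 : ℝ) 1) × V) × V₀ |
        p.1 ∈ B ∪ D ∨ 1 ≤ ‖p.2‖}) E hE (by
          rintro ⟨⟨p, v⟩, v₀⟩ hz
          rcases hz with (hz | hz) | hz
          · rcases hz with hz | hz
            · left
              exact hz
            · right
              right
              show 1 ≤ ‖(v, v₀)‖
              rw [Prod.norm_def]
              exact le_max_of_le_left hz
          · right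
            left
            exact (hDm _).1 hz
          · right
            right
            show 1 ≤ ‖(v, v₀)‖
            rw [Prod.norm_def]
            exact le_max_of_le_right hz) hkey
      exact hcomp
  refine StabNull.mono ?_ hmain
  rintro ⟨p, v⟩ hz
  rcases hz with hz | hz
  · left
    exact hCC' hz
  · right
    exact hz

end SMD
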