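import Pool.Agent.Lib_MP_33f7bb_an.PRODT

/-! Piece PTLA: products with cubes. -/

open Set Filter Topology

namespace SMD

theorem SI.congr {Y Y' : Type*} [TopologicalSpace Y] [TopologicalSpace Y'] (e : Y ≃ₜ Y') {j : ℕ}
    (h : SI Y j) : SI Y' j := by
  intro A hA V _ _ _ W _ _ _ hfr F hF hF0
  have h1 := h (e ⁻¹' A) (hA.preimage e.continuous) V W hfr (fun p => F (e p.1, p.2))
    (hF.comp ((e.continuous.comp continuous_fst).prodMk continuous_snd))
    (fun y v hyv => hF0 (e y) v hyv)
  have h2 := StabNull.comp (B' := {p : Y' × V | p.1 ∈ A ∨ 1 ≤ ‖p.2‖})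
    (fun p : Y' × V => (e.symm p.1, p.2))
    ((e.symm.continuous.comp continuous_fst).prodMk continuous_snd) (fun z hz => by
      rcases hz with hz | hz
      · left
        show e (e.symm z.1) ∈ A
        rw [e.apply_symm_apply]
        exact hz
      · right
        exact hz) h1
  have h3 : (fun z : Y' × V => F (e (e.symm z.1), z.2)) = F := by
    funext z
    rw [e.apply_symm_apply]
  rw [← h3]
  exact h2

/-- the homeomorphism `(X × (Fin n → I)) × I ≃ₜ X × (Fin (n+1) → I)` -/
def cubeHomeo (X I : Type*) [TopologicalSpace X] [TopologicalSpace I] (n : ℕ) :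
    (X × (Fin n → I)) × I ≃ₜ X × (Fin (n + 1) → I) where
  toFun p := (p.1.1, Fin.cons p.2 p.1.2)
  invFun q := ((q.1, Fin.tail q.2), q.2 0)
  left_inv p := by
    simp
  right_inv q := by
    simp
  continuous_toFun := by
    refine (continuous_fst.comp continuous_fst).prodMk (continuous_pi fun i => ?_)
    refine Fin.cases ?_ (fun k => ?_) i
    · simpa using continuous_snd
    · simp only [Fin.cons_succ]
      exact (continuous_apply k).comp (continuous_snd.comp continuous_fst)
  continuous_invFun := by
    refine (continuous_fst.prodMk (continuous_pi fun i => ?_)).prodMk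
      ((continuous_apply 0).comp continuous_snd)
    exact (continuous_apply i.succ).comp continuous_snd

/-- the homeomorphism `X ≃ₜ X × (Fin 0 → I)` -/
def cubeHomeo0 (X I : Type*) [TopologicalSpace X] [TopologicalSpace I] :
    X ≃ₜ X × (Fin 0 → I) where
  toFun p := (p, Fin.elim0)
  invFun q := q.1
  left_inv _ := rfl
  right_inv _ := Prod.ext rfl (Subsingleton.elim _ _)
  continuous_toFun := continuous_id.prodMk continuous_const
  continuous_invFun := continuous_fst

/-- PROOF. Induction on `n`: `X × (Fin 0 → I) ≃ₜ X`, and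
`(X × (Fin n → I)) × I ≃ₜ X × (Fin (n+1) → I)`; use `SI_prod` and `SI.congr`:
if `c + (n + 1) < j'` then `j' = j + 1` with `c + n < j`. -/
theorem SI_cube {X : Type*} [TopologicalSpace X] [CompactSpace X]
    [TopologicalSpace.MetrizableSpace X] {c : ℕ} (h : ∀ j, c < j → SI X j) (n : ℕ) :
    ∀ j, c + n < j → SI (X × (Fin n → Icc (-1 : ℝ) 1)) j := by
  induction n with
  | zero =>
    intro j hj
    exact SI.congr (cubeHomeo0 X (Icc (-1 : ℝ) 1)) (h j hj)
  | succ n ih =>
    intro j hj
    obtain ⟨j, rfl⟩ : ∃ k, j = k + 1 := ⟨j - 1, by omega⟩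
    exact SI.congr (cubeHomeo X (Icc (-1 : ℝ) 1) n) (SI_prod (ih j (by omega)) (ih (j + 1) (by omega)))

end SMD
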