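import Pool.Agent.Lib_MP_33f7bb_an.Defs

/-! Piece PUSH: pushing the map off one open grid cell of dimension `> c`. -/

open Set Filter Topology

namespace SMD

theorem car_of_oCell {M : ℕ} {J : Finset (Fin M)} {a : Fin M → ℤ} {q p p' : Fin M → ℝ}
    (hp : p ∈ oCell J a) (hq : car q p) (hp' : p' ∈ cCell J a) : car q p' := by
  intro l
  obtain ⟨h1, h2⟩ := hq l
  by_cases hl : l ∈ J
  · obtain ⟨h3, h4⟩ := hp.1 l hl
    obtain ⟨h5, h6⟩ := hp'.1 l hl
    have e1 : ⌊q l⌋ ≤ a l := by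
      have : (⌊q l⌋ : ℝ) < a l + 1 := lt_of_le_of_lt h1 h4
      have : ⌊q l⌋ < a l + 1 := by exact_mod_cast this
      omega
    have e2 : a l + 1 ≤ ⌈q l⌉ := by
      have : (a l : ℝ) < ⌈q l⌉ := lt_of_lt_of_le h3 h2
      have : a l < ⌈q l⌉ := by exact_mod_cast this
      omega
    have e1' : (⌊q l⌋ : ℝ) ≤ a l := by exact_mod_cast e1
    have e2' : (a l : ℝ) + 1 ≤ ⌈q l⌉ := by exact_mod_cast e2
    exact ⟨by linarith, by linarith⟩
  · rw [hp'.2 l hl, ← hp.2 l hl]
    exact ⟨h1, h2⟩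

theorem push_isClosed_cCell {M : ℕ} (J : Finset (Fin M)) (a : Fin M → ℤ) : IsClosed (cCell J a) := by
  have e : cCell J a = (⋂ l ∈ J, {p : Fin M → ℝ | (a l : ℝ) ≤ p l ∧ p l ≤ a l + 1}) ∩
      ⋂ l ∈ (univ : Set (Fin M)) \ J, {p : Fin M → ℝ | p l = a l} := by
    ext p
    simp [cCell]
  rw [e]
  refine IsClosed.inter (isClosed_biInter fun l _ => ?_) (isClosed_biInter fun l _ => ?_)
  · exact (isClosed_le continuous_const (continuous_apply l)).inter
      (isClosed_le (continuous_apply l) continuous_const)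
  · exact isClosed_eq (continuous_apply l) continuous_const

/-- The coordinate map of the cell. -/
noncomputable def pushPsi {M : ℕ} (J : Finset (Fin M)) (a : Fin M → ℤ) (p : Fin M → ℝ) : J → ℝ :=
  fun l => max (-1) (min 1 (2 * (p l - a l) - 1))

theorem pushPsi_continuous {M : ℕ} (J : Finset (Fin M)) (a : Fin M → ℤ) :
    Continuous (pushPsi J a) := by
  unfold pushPsi
  fun_prop

theorem pushPsi_norm_le {M : ℕ} (J : Finset (Fin M)) (a : Fin M → ℤ) (p : Fin M → ℝ) :
    ‖pushPsi J a p‖ ≤ 1 := by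
  rw [pi_norm_le_iff_of_nonneg zero_le_one]
  intro l
  rw [Real.norm_eq_abs, abs_le]
  refine ⟨le_max_left _ _, max_le (by norm_num) (min_le_left _ _)⟩

theorem pushPsi_of_cCell {M : ℕ} {J : Finset (Fin M)} {a : Fin M → ℤ} {p : Fin M → ℝ}
    (hp : p ∈ cCell J a) (l : J) : pushPsi J a p l = 2 * (p l - a l) - 1 := by
  obtain ⟨h1, h2⟩ := hp.1 l l.2
  unfold pushPsi
  rw [min_eq_right (by linarith), max_eq_right (by linarith)]

theorem pushPsi_boundary {M : ℕ} {J : Finset (Fin M)} {a : Fin M → ℤ} {p : Fin M → ℝ}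
    (hp : p ∈ cCell J a) (hp' : p ∉ oCell J a) : 1 ≤ ‖pushPsi J a p‖ := by
  have : ∃ l : J, ¬ ((a l : ℝ) < p l ∧ p l < a l + 1) := by
    by_contra hcon
    push Not at hcon
    refine hp' ⟨fun l hl => ?_, hp.2⟩
    have := hcon ⟨l, hl⟩
    by_contra hh
    rw [not_and_or] at hh
    have h3 := hp.1 l hl
    rcases hh with hh | hh
    · have e : p l = a l := le_antisymm (not_lt.mp hh) h3.1
      simp only [e] at *
      exact hh (this.1)
    · exact hh this.2
  obtain ⟨l, hl⟩ := this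
  refine le_trans ?_ (norm_le_pi_norm (pushPsi J a p) l)
  rw [pushPsi_of_cCell hp, Real.norm_eq_abs]
  have h3 := hp.1 l l.2
  rw [not_and_or, not_lt, not_lt] at hl
  rcases hl with hl | hl
  · have e : p l = a l := le_antisymm hl h3.1
    rw [e]; norm_num
  · have e : p l = a l + 1 := le_antisymm h3.2 hl
    rw [e]; norm_num

/-- The inverse of `pushPsi` on the closed cell. -/
noncomputable def pushInv {M : ℕ} (J : Finset (Fin M)) (a : Fin M → ℤ) (q : J → ℝ) :
    Fin M → ℝ :=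
  fun l => if h : l ∈ J then a l + (q ⟨l, h⟩ + 1) / 2 else a l

theorem pushInv_continuous {M : ℕ} (J : Finset (Fin M)) (a : Fin M → ℤ) :
    Continuous (pushInv J a) := by
  refine continuous_pi fun l => ?_
  unfold pushInv
  by_cases h : l ∈ J
  · simp only [h, dite_true]
    fun_prop
  · simp only [h, dite_false]
    fun_prop

theorem pushInv_psi {M : ℕ} {J : Finset (Fin M)} {a : Fin M → ℤ} {p : Fin M → ℝ}
    (hp : p ∈ cCell J a) : pushInv J a (pushPsi J a p) = p := by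
  ext l
  unfold pushInv
  by_cases h : l ∈ J
  · simp only [h, dite_true]
    rw [pushPsi_of_cCell hp ⟨l, h⟩]
    ring
  · simp only [h, dite_false]
    exact (hp.2 l h).symm

theorem pushInv_mem {M : ℕ} {J : Finset (Fin M)} {a : Fin M → ℤ} {q : J → ℝ}
    (hq : ‖q‖ ≤ 1) : pushInv J a q ∈ cCell J a := by
  refine ⟨fun l hl => ?_, fun l hl => ?_⟩
  · have h1 := (norm_le_pi_norm q ⟨l, hl⟩).trans hq
    rw [Real.norm_eq_abs, abs_le] at h1
    unfold pushInv
    simp only [hl, dite_true]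
    constructor <;> linarith
  · unfold pushInv
    simp only [hl, dite_false]

theorem pushInv_notMem {M : ℕ} {J : Finset (Fin M)} {a : Fin M → ℤ} {q : J → ℝ}
    (hq : ‖q‖ = 1) : pushInv J a q ∉ oCell J a := by
  intro hcon
  have : ‖q‖ < 1 := by
    rw [pi_norm_lt_iff zero_lt_one]
    intro l
    have h := hcon.1 l l.2
    unfold pushInv at h
    simp only [l.2, dite_true, Subtype.coe_eta] at h
    rw [Real.norm_eq_abs, abs_lt]
    constructor <;> linarith [h.1, h.2]
  exact absurd hq this.ne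

/-- PROOF. Let `V, P, T` witness `Good f K`.  Let `W = (J → ℝ) × V` (finrank `#J + finrank V`),
`ψ (p) l = max (-1) (min 1 (2 (p l - a l) - 1))` for `l ∈ J`, and `F z = (ψ (P z), T z)`.
`Y = {z | P z ∈ cCell J a ∧ ‖T z‖ ≤ 1}`,
`C = {z | P z ∈ cCell J a ∧ 1 ≤ ‖F z‖} ∪ {(x, v) | 1 ≤ ‖v‖}`; `F ≠ 0` on `C` (for `1 ≤ ‖v‖` the last
clause of `Good` with `u = 0` gives `1 ≤ ‖T z‖`).  `PT` gives `V', G` (for `StabNull C F`).
New space `V × V'`; new maps, for `z = (x, v)` and `s ∈ V'`: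
* if `z ∈ Y` and `‖s‖ ≤ 1`: with `g = ‖G (z, s)‖⁻¹ • G (z, s) ∈ ((J → ℝ) × V) × V'`,
  `P' l = a l + (g.1.1 l + 1) / 2` for `l ∈ J`, `P' l = a l` otherwise; `T' = (g.1.2, g.2)`;
* otherwise `P' = P z`, `T' = (T z, s)`.
Continuity: the first formula holds on the closed set `R₁ = {z ∈ Y, ‖s‖ ≤ 1}`, the second one on the
closed set `R₂ = {z ∉ U ∨ 1 ≤ ‖s‖}` where `U = {z | ‖T z‖ < 1 ∧ P z ∈ oCell J a}
= {z | ‖T z‖ < 1 ∧ P z ∉ K \ oCell J a}` is open; `R₁ ∪ R₂` is everything, and on `R₁ ∩ R₂`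
`G (z, s) = (F z, s)` has norm exactly `1` (either `‖s‖ = 1`, or `‖T z‖ = 1`, or `P z` is in the
closed and not in the open cell, then `|ψ l| = 1` for some `l ∈ J`; all components are `≤ 1`), and
the first formula gives back `P z` (because `P z ∈ cCell J a`) and `(T z, s)`.
* `‖T'‖ < 1 → P' ∈ K \ oCell J a`: in `R₁`, `‖g‖ = 1` so `‖g.1.1‖ = 1`, some `|g.1.1 l| = 1`, so
  `P' ∈ cCell J a \ oCell J a ⊆ K`; in `R₂ \ R₁`: `‖T z‖ < 1` so `P z ∈ K`, and `‖s‖ < 1` so `z ∉ U`.
* `car`: in `R₁` with `z ∈ U` use `car_of_oCell`; in `R₁` with `z ∉ U` (then `z ∈ C`) `P' = P z`.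
* last clause: if `1 ≤ ‖v‖` then `z ∈ C`, so `T' = (T z, s)` always and the first component of
  `(1 - u) T' + u (v, s)` has norm `≥ 1`; if `1 ≤ ‖s‖` then `T' = (T z, s)` and the second component
  is `s`. -/
theorem push {X : Type*} [TopologicalSpace X] {c : ℕ} (hX : PT X c) {M : ℕ}
    {f : X → (Fin M → ℝ)} (hf : Continuous f) {K : Set (Fin M → ℝ)} (J : Finset (Fin M))
    (a : Fin M → ℤ) (hJ : c < J.card) (hK : IsClosed K) (hK' : IsClosed (K \ oCell J a))
    (hb : cCell J a \ oCell J a ⊆ K) (h : Good f K) : Good f (K \ oCell J a) := by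
  classical
  obtain ⟨V, iV1, iV2, iV3, P, T, hP, hT, h1, h2, h3⟩ := h
  have hoc : oCell J a ⊆ cCell J a := fun p hp =>
    ⟨fun l hl => ⟨(hp.1 l hl).1.le, (hp.1 l hl).2.le⟩, hp.2⟩
  set F : X × V → (J → ℝ) × V := fun z => (pushPsi J a (P z), T z) with hF
  have hFc : Continuous F := ((pushPsi_continuous J a).comp hP).prodMk hT
  set C : Set (X × V) := {z | P z ∈ cCell J a ∧ 1 ≤ ‖F z‖} ∪ {z | 1 ≤ ‖z.2‖} with hC
  have hCc : IsClosed C := by
    refine IsClosed.union (IsClosed.inter ?_ ?_) ?_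
    · exact (push_isClosed_cCell J a).preimage hP
    · exact isClosed_le continuous_const hFc.norm
    · exact isClosed_le continuous_const continuous_snd.norm
  have hT1 : ∀ x v, 1 ≤ ‖v‖ → 1 ≤ ‖T (x, v)‖ := by
    intro x v hv
    have := h3 x v hv 0 ⟨le_refl _, zero_le_one⟩
    simpa using this
  have hC0 : ∀ z ∈ C, F z ≠ 0 := by
    rintro ⟨x, v⟩ (⟨_, hz⟩ | hz) h0
    · rw [h0, norm_zero] at hz
      linarith
    · have h4 := hT1 x v hz
      have : T (x, v) = 0 := congrArg Prod.snd h0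
      rw [this, norm_zero] at h4
      linarith
  have hfin : Module.finrank ℝ ((J → ℝ) × V) = J.card + Module.finrank ℝ V := by
    rw [Module.finrank_prod, Module.finrank_fintype_fun_eq_card, Fintype.card_coe]
  obtain ⟨V', iV1', iV2', iV3', G, hG, hG0, hGC⟩ :=
    hX V ((J → ℝ) × V) J.card hJ hfin C hCc (fun x v hv => Or.inr hv) F hFc hC0
  -- normalised map
  set g : X × (V × V') → ((J → ℝ) × V) × V' :=
    fun y => ‖G ((y.1, y.2.1), y.2.2)‖⁻¹ • G ((y.1, y.2.1), y.2.2) with hg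
  have hGy : Continuous fun y : X × (V × V') => G ((y.1, y.2.1), y.2.2) := by
    refine hG.comp ?_
    fun_prop
  have hgc : Continuous g := by
    refine Continuous.smul (Continuous.inv₀ hGy.norm fun y => ?_) hGy
    exact norm_ne_zero_iff.mpr (hG0 _)
  have hgn : ∀ y, ‖g y‖ = 1 := by
    intro y
    simp only [hg, norm_smul, norm_inv, norm_norm]
    exact inv_mul_cancel₀ (norm_ne_zero_iff.mpr (hG0 _))
  set P1 : X × (V × V') → (Fin M → ℝ) := fun y => pushInv J a (g y).1.1 with hP1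
  set T1 : X × (V × V') → V × V' := fun y => ((g y).1.2, (g y).2) with hT1'
  set P2 : X × (V × V') → (Fin M → ℝ) := fun y => P (y.1, y.2.1) with hP2
  set T2 : X × (V × V') → V × V' := fun y => (T (y.1, y.2.1), y.2.2) with hT2
  have hP1c : Continuous P1 := (pushInv_continuous J a).comp (continuous_fst.comp (continuous_fst.comp hgc))
  have hT1c : Continuous T1 :=
    (continuous_snd.comp (continuous_fst.comp hgc)).prodMk (continuous_snd.comp hgc)
  have hP2c : Continuous P2 := hP.comp (by fun_prop)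
  have hT2c : Continuous T2 := (hT.comp (by fun_prop)).prodMk (by fun_prop)
  set R1 : Set (X × (V × V')) :=
    {y | (P2 y ∈ cCell J a ∧ ‖T (y.1, y.2.1)‖ ≤ 1) ∧ ‖y.2.2‖ ≤ 1} with hR1
  set R2 : Set (X × (V × V')) :=
    {y | (1 ≤ ‖T (y.1, y.2.1)‖ ∨ P2 y ∈ K \ oCell J a) ∨ 1 ≤ ‖y.2.2‖} with hR2
  have hTy : Continuous fun y : X × (V × V') => T (y.1, y.2.1) := hT.comp (by fun_prop)
  have hR1c : IsClosed R1 := by
    refine IsClosed.inter (IsClosed.inter ?_ ?_) ?_
    · exact (push_isClosed_cCell J a).preimage hP2c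
    · exact isClosed_le hTy.norm continuous_const
    · exact isClosed_le (continuous_snd.comp continuous_snd).norm continuous_const
  have hR2c : IsClosed R2 := by
    refine IsClosed.union (IsClosed.union ?_ ?_) ?_
    · exact isClosed_le continuous_const hTy.norm
    · exact hK'.preimage hP2c
    · exact isClosed_le continuous_const (continuous_snd.comp continuous_snd).norm
  have hcov : ∀ y, y ∉ R1 → y ∈ R2 := by
    intro y hy
    by_contra hy2
    simp only [hR2, mem_ofPred_eq, not_or, not_le] at hy2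
    obtain ⟨⟨h4, h5⟩, h6⟩ := hy2
    have h7 : P2 y ∈ K := h1 _ h4
    have h8 : P2 y ∈ oCell J a := by
      by_contra h9
      exact h5 ⟨h7, h9⟩
    exact hy ⟨⟨hoc h8, h4.le⟩, h6.le⟩
  -- on the intersection
  have hint : ∀ y, y ∈ R1 → y ∈ R2 → g y = (F (y.1, y.2.1), y.2.2) := by
    rintro ⟨x, v, s⟩ ⟨⟨h4, h5⟩, h6⟩ h7
    simp only [hP2] at h4 h5 h6
    have hψ := pushPsi_norm_le J a (P (x, v))
    have key : ((x, v) ∈ C ∨ 1 ≤ ‖s‖) ∧ ‖(F (x, v), s)‖ = 1 := by
      rcases h7 with (h7 | h7) | h7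
      · have h8 : ‖T (x, v)‖ = 1 := le_antisymm h5 h7
        have h9 : ‖F (x, v)‖ = 1 := by
          simp only [hF, Prod.norm_def]
          rw [h8, max_eq_right hψ]
        refine ⟨Or.inl (Or.inl ⟨h4, h9.ge⟩), ?_⟩
        rw [Prod.norm_def]
        simp only
        rw [h9, max_eq_left h6]
      · have h8 : ‖pushPsi J a (P (x, v))‖ = 1 := le_antisymm hψ (pushPsi_boundary h4 h7.2)
        have h9 : ‖F (x, v)‖ = 1 := by
          simp only [hF, Prod.norm_def]
          rw [h8, max_eq_left h5]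
        refine ⟨Or.inl (Or.inl ⟨h4, h9.ge⟩), ?_⟩
        rw [Prod.norm_def]
        simp only
        rw [h9, max_eq_left h6]
      · have h8 : ‖s‖ = 1 := le_antisymm h6 h7
        have h9 : ‖F (x, v)‖ ≤ 1 := by
          simp only [hF, Prod.norm_def]
          exact max_le hψ h5
        refine ⟨Or.inr h7, ?_⟩
        rw [Prod.norm_def]
        simp only
        rw [h8, max_eq_right h9]
    have h10 := hGC (x, v) s key.1
    simp only [hg]
    rw [h10, key.2, inv_one, one_smul]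
  have hagP : ∀ y, y ∈ R1 → y ∈ R2 → P1 y = P2 y := by
    intro y hy1 hy2
    simp only [hP1]
    rw [hint y hy1 hy2]
    exact pushInv_psi hy1.1.1
  have hagT : ∀ y, y ∈ R1 → y ∈ R2 → T1 y = T2 y := by
    intro y hy1 hy2
    simp only [hT1']
    rw [hint y hy1 hy2]
  have hfr : ∀ y ∈ frontier R1, y ∈ R1 ∧ y ∈ R2 := by
    intro y hy
    refine ⟨hR1c.frontier_subset hy, ?_⟩
    rw [frontier_eq_closure_inter_closure] at hy
    have : closure R1ᶜ ⊆ R2 := closure_minimal (fun y hy => hcov y hy) hR2c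
    exact this hy.2
  have hPR2 : ∀ y ∈ R2, R1.piecewise P1 P2 y = P2 y := by
    intro y hy
    by_cases hy1 : y ∈ R1
    · rw [Set.piecewise_eq_of_mem _ _ _ hy1]; exact hagP y hy1 hy
    · rw [Set.piecewise_eq_of_notMem _ _ _ hy1]
  have hTR2 : ∀ y ∈ R2, R1.piecewise T1 T2 y = T2 y := by
    intro y hy
    by_cases hy1 : y ∈ R1
    · rw [Set.piecewise_eq_of_mem _ _ _ hy1]; exact hagT y hy1 hy
    · rw [Set.piecewise_eq_of_notMem _ _ _ hy1]
  have hg11 : ∀ y, ‖(g y).1.1‖ ≤ 1 := by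
    intro y
    have := hgn y
    calc ‖(g y).1.1‖ ≤ ‖(g y).1‖ := le_max_left _ _
      _ ≤ ‖g y‖ := le_max_left _ _
      _ = 1 := this
  refine ⟨V × V', inferInstance, inferInstance, inferInstance, R1.piecewise P1 P2,
    R1.piecewise T1 T2, ?_, ?_, ?_, ?_, ?_⟩
  · exact Continuous.piecewise (fun y hy => hagP y (hfr y hy).1 (hfr y hy).2) hP1c hP2c
  · exact Continuous.piecewise (fun y hy => hagT y (hfr y hy).1 (hfr y hy).2) hT1c hT2c
  · intro y hy
    by_cases hy1 : y ∈ R1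
    · rw [Set.piecewise_eq_of_mem _ _ _ hy1] at hy ⊢
      have h4 : ‖(g y).1.1‖ = 1 := by
        have h5 := hgn y
        have h6 : ‖(g y).1.2‖ < 1 := lt_of_le_of_lt (le_max_left _ _) hy
        have h7 : ‖(g y).2‖ < 1 := lt_of_le_of_lt (le_max_right _ _) hy
        rw [Prod.norm_def, Prod.norm_def] at h5
        refine le_antisymm (hg11 y) ?_
        by_contra h8
        push Not at h8
        exact absurd h5 (max_lt (max_lt h8 h6) h7).ne
      have h5 := pushInv_mem (a := a) h4.le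
      have h6 := pushInv_notMem (a := a) h4
      exact ⟨hb ⟨h5, h6⟩, h6⟩
    · rw [Set.piecewise_eq_of_notMem _ _ _ hy1] at hy ⊢
      have h6 : ‖T (y.1, y.2.1)‖ < 1 := lt_of_le_of_lt (le_max_left _ _) hy
      have h7 : ‖y.2.2‖ < 1 := lt_of_le_of_lt (le_max_right _ _) hy
      rcases hcov y hy1 with (h8 | h8) | h8
      · exact absurd h6 (not_lt.mpr h8)
      · exact h8
      · exact absurd h7 (not_lt.mpr h8)
  · intro y
    have h4 := h2 (y.1, y.2.1)
    by_cases hy2 : y ∈ R2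
    · rw [hPR2 y hy2]; exact h4
    · have hy1 : y ∈ R1 := by
        by_contra hy1
        exact hy2 (hcov y hy1)
      rw [Set.piecewise_eq_of_mem _ _ _ hy1]
      simp only [hR2, mem_ofPred_eq, not_or, not_le] at hy2
      obtain ⟨⟨h5, h6⟩, h7⟩ := hy2
      have h8 : P2 y ∈ oCell J a := by
        by_contra h9
        exact h6 ⟨h1 _ h5, h9⟩
      exact car_of_oCell h8 h4 (pushInv_mem (hg11 y))
  · rintro x ⟨v, s⟩ hvs u hu
    have hor : 1 ≤ ‖v‖ ∨ 1 ≤ ‖s‖ := by
      rw [Prod.norm_def] at hvs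
      exact le_max_iff.mp hvs
    rcases hor with hv | hs
    · have hy2 : (x, (v, s)) ∈ R2 := Or.inl (Or.inl (hT1 x v hv))
      rw [hTR2 _ hy2]
      refine le_trans (h3 x v hv u hu) ?_
      exact le_max_left _ _
    · have hy2 : (x, (v, s)) ∈ R2 := Or.inr hs
      rw [hTR2 _ hy2]
      have e : ((1 - u) • T2 (x, (v, s)) + u • (v, s)).2 = s := by
        simp only [hT2, Prod.snd_add, Prod.smul_snd]
        rw [← add_smul]
        simp
      calc (1 : ℝ) ≤ ‖s‖ := hs
        _ = ‖((1 - u) • T2 (x, (v, s)) + u • (v, s)).2‖ := by rw [e]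
        _ ≤ _ := le_max_right _ _

end SMD
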