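import Pool.Agent.Lib_MP_33f7bb_an.SUSP

/-! Piece REL: exactness. -/

open Set Filter Topology

namespace SMD

/-- PROOF. Let `V₀, G₀` be the witness on `D`.  Let `E = {(z, v) | z ∈ B ∪ D ∨ 1 ≤ ‖v‖}`, closed in
`Z × V₀`.  Prescribe on `E` the map `q (z, v) = G₀ (z, v)` if `z ∈ D` and `(F z, v)` otherwise; it is
`ContinuousOn E` (two closed pieces `D × V₀` and `{z ∈ B ∨ 1 ≤ ‖v‖}`; they agree on the
intersection) and has no zeros on `E`.  Tietze (`ContinuousMap.exists_restrict_eq`, `Z × V₀`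
metrizable hence normal, `W × V₀` finite dimensional) gives a continuous `F' : Z × V₀ → W × V₀`
with `F' = q` on `E`.  Apply `h2`: `StabNull E F'`.  By `StabNull.mono` and `StabNull.change` we get
`StabNull {p | p.1 ∈ B ∨ 1 ≤ ‖p.2‖} (fun p => (F p.1, p.2))` (on this set `F' = q = (F z, v)`).
Conclude with `StabNull.flatten`. -/
theorem StabNull.of_rel {Z : Type*} [TopologicalSpace Z] [TopologicalSpace.MetrizableSpace Z]
    {W : Type} [NormedAddCommGroup W] [NormedSpace ℝ W] [FiniteDimensional ℝ W]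
    {B D : Set Z} (hB : IsClosed B) (hD : IsClosed D) {F : Z → W} (hF : Continuous F)
    (hF0 : ∀ z ∈ B, F z ≠ 0) (h1 : StabNullOn D B F)
    (h2 : ∀ (V₀ : Type) [NormedAddCommGroup V₀] [NormedSpace ℝ V₀] [FiniteDimensional ℝ V₀]
      (F' : Z × V₀ → W × V₀), Continuous F' →
      (∀ z v, (z ∈ B ∪ D ∨ 1 ≤ ‖v‖) → F' (z, v) ≠ 0) →
      StabNull {p : Z × V₀ | p.1 ∈ B ∪ D ∨ 1 ≤ ‖p.2‖} F') :
    StabNull B F := by
  classical
  obtain ⟨V₀, i1, i2, i3, G₀, hG₀, hG0, hGb⟩ := h1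
  -- the prescribed map
  obtain ⟨q, hq⟩ : ∃ q : Z × V₀ → W × V₀, q = fun p => if p.1 ∈ D then G₀ p else (F p.1, p.2) :=
    ⟨_, rfl⟩
  have hq1 : ∀ p : Z × V₀, p.1 ∈ D → q p = G₀ p := by
    intro p hp
    rw [hq]
    simp only [if_pos hp]
  have hq2 : ∀ p : Z × V₀, (p.1 ∈ B ∨ 1 ≤ ‖p.2‖) → q p = (F p.1, p.2) := by
    intro p hp
    by_cases hD' : p.1 ∈ D
    · rw [hq1 p hD']
      exact hGb p.1 hD' p.2 hp
    · rw [hq]
      simp only [if_neg hD']
  have hE1 : IsClosed (D ×ˢ (univ : Set V₀)) := hD.prod isClosed_univ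
  have hE2 : IsClosed {p : Z × V₀ | p.1 ∈ B ∨ 1 ≤ ‖p.2‖} :=
    (hB.preimage continuous_fst).union (isClosed_le continuous_const (continuous_norm.comp continuous_snd))
  have hqc : ContinuousOn q ((D ×ˢ (univ : Set V₀)) ∪ {p : Z × V₀ | p.1 ∈ B ∨ 1 ≤ ‖p.2‖}) := by
    refine ContinuousOn.union_of_isClosed ?_ ?_ hE1 hE2
    · exact hG₀.congr fun p hp => hq1 p hp.1
    · refine ContinuousOn.congr (f := fun p : Z × V₀ => (F p.1, p.2)) ?_ fun p hp => hq2 p hp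
      exact ((hF.comp continuous_fst).prodMk continuous_snd).continuousOn
  obtain ⟨g, hg⟩ := ContinuousMap.exists_restrict_eq (hE1.union hE2)
    (⟨_, continuousOn_iff_continuous_restrict.1 hqc⟩ :
      C(↥((D ×ˢ (univ : Set V₀)) ∪ {p : Z × V₀ | p.1 ∈ B ∨ 1 ≤ ‖p.2‖}), W × V₀))
  have hgq : ∀ p ∈ (D ×ˢ (univ : Set V₀)) ∪ {p : Z × V₀ | p.1 ∈ B ∨ 1 ≤ ‖p.2‖}, g p = q p := by
    intro p hp
    exact DFunLike.congr_fun hg ⟨p, hp⟩
  have h3 := h2 V₀ g g.continuous (by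
    intro z v hzv
    have hmem : (z, v) ∈ (D ×ˢ (univ : Set V₀)) ∪ {p : Z × V₀ | p.1 ∈ B ∨ 1 ≤ ‖p.2‖} := by
      rcases hzv with (h | h) | h
      · exact Or.inr (Or.inl h)
      · exact Or.inl ⟨h, mem_univ _⟩
      · exact Or.inr (Or.inr h)
    rw [hgq _ hmem]
    rcases hmem with h | h
    · rw [hq1 _ h.1]
      exact hG0 z h.1 v
    · rw [hq2 _ h]
      intro h0
      rw [Prod.mk_eq_zero] at h0
      rcases h with h | h
      · exact hF0 z h h0.1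
      · rw [h0.2, norm_zero] at h
        linarith)
  have h4 : StabNull {p : Z × V₀ | p.1 ∈ B ∨ 1 ≤ ‖p.2‖} (g : Z × V₀ → W × V₀) := by
    refine StabNull.mono ?_ h3
    rintro p (h | h)
    · exact Or.inl (Or.inl h)
    · exact Or.inr h
  refine StabNull.flatten (V₀ := V₀) (StabNull.change g.continuous
    ((hF.comp continuous_fst).prodMk continuous_snd) ?_ h4)
  intro p hp
  rw [hgq p (Or.inr hp), hq2 p hp]

end SMD
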