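import Pool.Agent.Lib_MP_33f7bb_an.RAD

/-! Piece SIMPH: the standard simplex is homeomorphic to a ball, boundary to boundary. -/

open Set Filter Topology

namespace SMD

/-- the solid simplex -/
private def simphS (n : ℕ) : Set (Fin n → ℝ) := {x | (∀ i, 0 ≤ x i) ∧ ∑ i, x i ≤ 1}

private theorem simph_closed (n : ℕ) : IsClosed (simphS n) := by
  have h1 : IsClosed {x : Fin n → ℝ | ∀ i, 0 ≤ x i} := by
    have : {x : Fin n → ℝ | ∀ i, 0 ≤ x i} = ⋂ i, {x : Fin n → ℝ | 0 ≤ x i} := by
      ext x; simp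
    rw [this]
    exact isClosed_iInter fun i => isClosed_le continuous_const (continuous_apply i)
  have h2 : IsClosed {x : Fin n → ℝ | ∑ i, x i ≤ 1} :=
    isClosed_le (continuous_finsetSum _ fun i _ => continuous_apply i) continuous_const
  exact h1.inter h2

private theorem simph_convex (n : ℕ) : Convex ℝ (simphS n) := by
  intro x hx y hy a b ha hb hab
  constructor
  · intro i
    have h1 := mul_nonneg ha (hx.1 i)
    have h2 := mul_nonneg hb (hy.1 i)
    simp only [Pi.add_apply, Pi.smul_apply, smul_eq_mul]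
    linarith
  · simp only [Pi.add_apply, Pi.smul_apply, smul_eq_mul]
    rw [Finset.sum_add_distrib, ← Finset.mul_sum, ← Finset.mul_sum]
    have h1 := mul_le_mul_of_nonneg_left hx.2 ha
    have h2 := mul_le_mul_of_nonneg_left hy.2 hb
    linarith

private theorem simph_bounded (n : ℕ) : Bornology.IsBounded (simphS n) := by
  refine (Metric.isBounded_closedBall (x := (0 : Fin n → ℝ)) (r := 1)).subset ?_
  intro x hx
  rw [mem_closedBall_zero_iff, pi_norm_le_iff_of_nonneg zero_le_one]
  intro i
  rw [Real.norm_eq_abs, abs_of_nonneg (hx.1 i)]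
  exact (Finset.single_le_sum (f := x) (fun j _ => hx.1 j) (Finset.mem_univ i)).trans hx.2

private theorem simph_interior (n : ℕ) (x : Fin n → ℝ) :
    x ∈ interior (simphS n) ↔ (∀ i, 0 < x i) ∧ ∑ i, x i < 1 := by
  constructor
  · intro hx
    rw [mem_interior_iff_mem_nhds] at hx
    have key : ∀ i : Fin n, ∀ᶠ r : ℝ in 𝓝 0, x + r • Pi.single i (1 : ℝ) ∈ simphS n := by
      intro i
      have hc : ContinuousAt (fun r : ℝ => x + r • (Pi.single i (1 : ℝ) : Fin n → ℝ)) 0 := by fun_prop
      have := hc.preimage_mem_nhds (t := simphS n) (by simpa using hx)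
      exact this
    constructor
    · intro i
      obtain ⟨r, h1, h2⟩ := ((key i).filter_mono nhdsWithin_le_nhds).and
        (self_mem_nhdsWithin (a := (0 : ℝ)) (s := Iio 0)) |>.exists
      have h3 := h1.1 i
      simp only [Pi.add_apply, Pi.smul_apply, Pi.single_eq_same, smul_eq_mul, mul_one] at h3
      have h4 : r < 0 := h2
      linarith
    · rcases Nat.eq_zero_or_pos n with rfl | hn
      · simp
      · obtain ⟨r, h1, h2⟩ := ((key ⟨0, hn⟩).filter_mono nhdsWithin_le_nhds).and
          (self_mem_nhdsWithin (a := (0 : ℝ)) (s := Ioi 0)) |>.exists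
        have h3 := h1.2
        simp only [Pi.add_apply, Pi.smul_apply, smul_eq_mul] at h3
        rw [Finset.sum_add_distrib, ← Finset.mul_sum, Finset.sum_pi_single'] at h3
        simp only [Finset.mem_univ, if_true, mul_one] at h3
        have h4 : 0 < r := h2
        linarith
  · intro hx
    have ho : IsOpen {x : Fin n → ℝ | (∀ i, 0 < x i) ∧ ∑ i, x i < 1} := by
      have h1 : IsOpen {x : Fin n → ℝ | ∀ i, 0 < x i} := by
        have : {x : Fin n → ℝ | ∀ i, 0 < x i} = ⋂ i, {x : Fin n → ℝ | 0 < x i} := by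
          ext x; simp
        rw [this]
        exact isOpen_iInter_of_finite fun i => isOpen_lt continuous_const (continuous_apply i)
      have h2 : IsOpen {x : Fin n → ℝ | ∑ i, x i < 1} :=
        isOpen_lt (continuous_finsetSum _ fun i _ => continuous_apply i) continuous_const
      exact h1.inter h2
    have hsub : {x : Fin n → ℝ | (∀ i, 0 < x i) ∧ ∑ i, x i < 1} ⊆ simphS n := by
      intro y hy
      exact ⟨fun i => (hy.1 i).le, hy.2.le⟩
    exact interior_maximal hsub ho hx

private theorem simph_nonempty (n : ℕ) : (interior (simphS n)).Nonempty := by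
  refine ⟨fun _ => 1 / ((n : ℝ) + 1), ?_⟩
  rw [simph_interior]
  refine ⟨fun _ => by positivity, ?_⟩
  rw [Finset.sum_const, Finset.card_univ, Fintype.card_fin, nsmul_eq_mul, mul_one_div, div_lt_one (by positivity)]
  linarith

private theorem simph_sum {n : ℕ} (t : stdSimplex ℝ (Fin (n + 1))) :
    ∑ i : Fin n, (t : Fin (n + 1) → ℝ) (Fin.castSucc i) + (t : Fin (n + 1) → ℝ) (Fin.last n) = 1 := by
  have h4 : ∑ i : Fin (n + 1), (t : Fin (n + 1) → ℝ) i = 1 := t.2.2
  rwa [Fin.sum_univ_castSucc] at h4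

private theorem simph_nonneg {n : ℕ} (t : stdSimplex ℝ (Fin (n + 1))) (i : Fin (n + 1)) :
    0 ≤ (t : Fin (n + 1) → ℝ) i := t.2.1 i

private theorem simph_aux (n : ℕ) :
    ∃ e : stdSimplex ℝ (Fin (n + 1)) ≃ₜ Metric.closedBall (0 : Fin n → ℝ) 1,
      ∀ t : stdSimplex ℝ (Fin (n + 1)), (∃ i, (t : Fin (n + 1) → ℝ) i = 0) ↔ ‖(e t : Fin n → ℝ)‖ = 1 := by
  obtain ⟨h, h1, h2, h3⟩ := exists_homeomorph_image_interior_closure_frontier_eq_unitBall
    (simph_convex n) (simph_nonempty n) (simph_bounded n)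
  rw [(simph_closed n).closure_eq] at h2
  have hm : ∀ x, x ∈ simphS n ↔ h x ∈ Metric.closedBall (0 : Fin n → ℝ) 1 := by
    intro x
    rw [← h2, h.injective.mem_set_image]
  have hi : ∀ x, x ∈ interior (simphS n) ↔ ‖h x‖ < 1 := by
    intro x
    rw [← mem_ball_zero_iff, ← h1, h.injective.mem_set_image]
  have hfwd : ∀ t : stdSimplex ℝ (Fin (n + 1)), (fun i : Fin n => (t : Fin (n + 1) → ℝ) (Fin.castSucc i)) ∈ simphS n := by
    intro t
    refine ⟨fun i => simph_nonneg t _, ?_⟩
    have h4 := simph_sum t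
    have h5 := simph_nonneg t (Fin.last n)
    linarith
  have hbwd : ∀ x : Fin n → ℝ, x ∈ simphS n → (Fin.snoc x (1 - ∑ i, x i) : Fin (n + 1) → ℝ) ∈ stdSimplex ℝ (Fin (n + 1)) := by
    intro x hx
    constructor
    · intro i
      refine Fin.lastCases ?_ (fun j => ?_) i
      · rw [Fin.snoc_last]
        linarith [hx.2]
      · rw [Fin.snoc_castSucc]
        exact hx.1 j
    · rw [Fin.sum_univ_castSucc]
      simp only [Fin.snoc_castSucc, Fin.snoc_last]
      ring
  refine ⟨{ toFun := fun t => ⟨h (fun i : Fin n => (t : Fin (n + 1) → ℝ) (Fin.castSucc i)), (hm _).1 (hfwd t)⟩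
            invFun := fun y => ⟨Fin.snoc (h.symm y) (1 - ∑ i, h.symm y i), hbwd _ ((hm _).2 (by
              rw [h.apply_symm_apply]; exact y.2))⟩
            left_inv := ?_
            right_inv := ?_
            continuous_toFun := ?_
            continuous_invFun := ?_ }, ?_⟩
  · intro t
    apply Subtype.ext
    simp only [Homeomorph.symm_apply_apply]
    ext i
    change (Fin.snoc (fun i : Fin n => (t : Fin (n + 1) → ℝ) (Fin.castSucc i))
      (1 - ∑ i : Fin n, (t : Fin (n + 1) → ℝ) (Fin.castSucc i)) : Fin (n + 1) → ℝ) i = (t : Fin (n + 1) → ℝ) i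
    refine Fin.lastCases ?_ (fun j => ?_) i
    · rw [Fin.snoc_last]
      have h4 := simph_sum t
      linarith
    · rw [Fin.snoc_castSucc]
  · intro y
    apply Subtype.ext
    change h (fun i : Fin n => (Fin.snoc (h.symm y) (1 - ∑ i, h.symm y i) : Fin (n + 1) → ℝ) (Fin.castSucc i)) = y
    simp only [Fin.snoc_castSucc]
    exact h.apply_symm_apply _
  · refine Continuous.subtype_mk ?_ _
    refine h.continuous.comp ?_
    exact continuous_pi fun i => (continuous_apply _).comp continuous_subtype_val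
  · refine Continuous.subtype_mk ?_ _
    have hc : Continuous fun y : Metric.closedBall (0 : Fin n → ℝ) 1 => h.symm (y : Fin n → ℝ) :=
      h.symm.continuous.comp continuous_subtype_val
    refine continuous_pi fun i => ?_
    refine Fin.lastCases ?_ (fun j => ?_) i
    · simp only [Fin.snoc_last]
      exact continuous_const.sub (continuous_finsetSum _ fun j _ => (continuous_apply j).comp hc)
    · simp only [Fin.snoc_castSucc]
      exact (continuous_apply j).comp hc
  · intro t
    have h4 := hfwd t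
    have h5 := hi (fun i : Fin n => (t : Fin (n + 1) → ℝ) (Fin.castSucc i))
    have h6 : ‖h (fun i : Fin n => (t : Fin (n + 1) → ℝ) (Fin.castSucc i))‖ ≤ 1 := by
      rw [← mem_closedBall_zero_iff]; exact (hm _).1 h4
    have h7 : (∃ i, (t : Fin (n + 1) → ℝ) i = 0) ↔
        ¬ ((fun i : Fin n => (t : Fin (n + 1) → ℝ) (Fin.castSucc i)) ∈ interior (simphS n)) := by
      rw [simph_interior, not_and_or, not_forall, not_lt]
      have h8 := simph_sum t
      constructor
      · rintro ⟨i, hi0⟩
        revert hi0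
        refine Fin.lastCases ?_ (fun j => ?_) i
        · intro hi0
          right
          rw [hi0] at h8
          linarith
        · intro hi0
          left
          exact ⟨j, by rw [hi0]; exact lt_irrefl _⟩
      · rintro (⟨j, hj⟩ | hj)
        · exact ⟨Fin.castSucc j, le_antisymm (not_lt.1 hj) (simph_nonneg t _)⟩
        · refine ⟨Fin.last n, le_antisymm ?_ (simph_nonneg t _)⟩
          linarith
    rw [h7, h5, not_lt]
    change _ ↔ ‖h (fun i : Fin n => (t : Fin (n + 1) → ℝ) (Fin.castSucc i))‖ = 1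
    exact ⟨fun h9 => le_antisymm h6 h9, fun h9 => h9.ge⟩

/-- PROOF. Let `n = finrank V`, `E = Fin n → ℝ`, `s = {x : E | (∀ i, 0 ≤ x i) ∧ ∑ i, x i ≤ 1}`: closed,
bounded, convex, with interior `{x | (∀ i, 0 < x i) ∧ ∑ i, x i < 1}` (nonempty).  Dropping the last
coordinate is a homeomorphism `stdSimplex ℝ (Fin (n + 1)) ≃ₜ s` (inverse `x ↦ (x, 1 - ∑ x i)`,
`Fin.snoc`) under which `∃ i, t i = 0` corresponds to `x ∉ interior s`.
`exists_homeomorph_image_interior_closure_frontier_eq_unitBall` (Mathlib, GaugeRescale) gives a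
homeomorphism `E ≃ₜ E` with `closure s ↦ closedBall 0 1`, `frontier s ↦ sphere 0 1`.  Compose with
`exists_radial E V`. -/
theorem exists_simplex_homeo (V : Type) [NormedAddCommGroup V] [NormedSpace ℝ V]
    [FiniteDimensional ℝ V] :
    ∃ e : stdSimplex ℝ (Fin (Module.finrank ℝ V + 1)) ≃ₜ Metric.closedBall (0 : V) 1,
      ∀ t : stdSimplex ℝ (Fin (Module.finrank ℝ V + 1)),
        (∃ i, (t : Fin (Module.finrank ℝ V + 1) → ℝ) i = 0) ↔ ‖(e t : V)‖ = 1 := by
  obtain ⟨e, he⟩ := simph_aux (Module.finrank ℝ V)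
  obtain ⟨r, hr⟩ := exists_radial (Fin (Module.finrank ℝ V) → ℝ) V (Module.finrank_fin_fun ℝ)
  refine ⟨e.trans (r.subtype fun x => ?_), fun t => ?_⟩
  · rw [mem_closedBall_zero_iff, mem_closedBall_zero_iff, hr]
  · rw [he t, ← hr]
    rfl

end SMD
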