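import Pool.Agent.Lib_MP_33f7bb_an.PUSH

/-! Piece SKELA: skeleta of the grid, base case. -/

open Set Filter Topology

namespace SMD

theorem isClosed_Sk (M c : ℕ) : IsClosed (Sk M c) := by
  classical
  have e : Sk M c = ⋃ J ∈ (Finset.univ.filter fun J : Finset (Fin M) => J.card ≤ c),
      {p : Fin M → ℝ | ∀ l ∉ J, p l ∈ range (Int.cast : ℤ → ℝ)} := by
    ext p
    rw [mem_iUnion₂]
    constructor
    · intro hp
      have hp' : {l : Fin M | ∀ z : ℤ, p l ≠ z}.ncard ≤ c := hp
      refine ⟨Finset.univ.filter fun l => ∀ z : ℤ, p l ≠ z, ?_, ?_⟩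
      · rw [Finset.mem_filter]
        refine ⟨Finset.mem_univ _, ?_⟩
        rw [← Set.ncard_coe_finset]
        simpa using hp'
      · intro l hl
        simp only [Finset.mem_filter, Finset.mem_univ, true_and, not_forall, not_not] at hl
        obtain ⟨z, hz⟩ := hl
        exact ⟨z, hz.symm⟩
    · rintro ⟨J, hJ, hp⟩
      rw [Finset.mem_filter] at hJ
      have hp' : ∀ l ∉ J, p l ∈ range (Int.cast : ℤ → ℝ) := hp
      change {l : Fin M | ∀ z : ℤ, p l ≠ z}.ncard ≤ c
      refine le_trans ?_ hJ.2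
      rw [← Set.ncard_coe_finset]
      refine Set.ncard_le_ncard ?_ (Finset.finite_toSet J)
      intro l hl
      by_contra h
      obtain ⟨z, hz⟩ := hp' l (by simpa using h)
      exact hl z hz.symm
  rw [e]
  refine Set.Finite.isClosed_biUnion (Finset.finite_toSet _) ?_
  intro J _
  have e2 : {p : Fin M → ℝ | ∀ l ∉ J, p l ∈ range (Int.cast : ℤ → ℝ)} =
      ⋂ l, ⋂ (_ : l ∉ J), {p : Fin M → ℝ | p l ∈ range (Int.cast : ℤ → ℝ)} := by
    ext p
    simp
  rw [e2]
  refine isClosed_iInter fun l => isClosed_iInter fun _ => ?_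
  exact Int.isClosedEmbedding_coe_real.isClosed_range.preimage (continuous_apply l)

theorem Sk_top (M : ℕ) : Sk M M = univ := by
  ext p
  simp only [mem_univ, iff_true]
  change {l : Fin M | ∀ z : ℤ, p l ≠ z}.ncard ≤ M
  calc {l : Fin M | ∀ z : ℤ, p l ≠ z}.ncard ≤ (univ : Set (Fin M)).ncard :=
        Set.ncard_le_ncard (subset_univ _) finite_univ
    _ = M := by rw [Set.ncard_univ, Nat.card_eq_fintype_card, Fintype.card_fin]

/-- base case: `V = Fin 0 → ℝ`, `P (x, v) = f x`, `T (x, v) = v`. -/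
theorem good_univ {X : Type*} [TopologicalSpace X] {M : ℕ} {f : X → (Fin M → ℝ)}
    (hf : Continuous f) : Good f univ := by
  refine ⟨Fin 0 → ℝ, inferInstance, inferInstance, inferInstance, fun z => f z.1, fun z => z.2,
    hf.comp continuous_fst, continuous_snd, fun _ _ => mem_univ _, fun z l => ⟨Int.floor_le _, Int.le_ceil _⟩, ?_⟩
  intro x v hv u _
  change 1 ≤ ‖(1 - u) • v + u • v‖
  rw [← add_smul, sub_add_cancel, one_smul]
  exact hv

end SMD
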