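import Pool.Agent.Lib_MP_33f7bb_an.Defs

/-! Piece SUSPB: adding variables, changing the boundary values. -/

open Set Filter Topology

namespace SMD

variable {Z : Type*} [TopologicalSpace Z] {W : Type*} [NormedAddCommGroup W] [NormedSpace ℝ W]

/-- Adding variables.  PROOF: with `u = min 1 ‖p.2.2‖`, put
`G' (z, (v, w)) = ((1 - u) • (G (z, v)).1 + u • F z, ((1 - u) • (G (z, v)).2 + u • v, w))`.
If `w ≠ 0` the last coordinate is nonzero; if `w = 0` the value is `((G (z, v)).1, ((G (z, v)).2, 0))`.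
If `z ∈ B` or `‖v‖ ≥ 1` then `G (z, v) = (F z, v)`; if `‖w‖ ≥ 1` then `u = 1`. -/
theorem wit_add {V : Type} [NormedAddCommGroup V] [NormedSpace ℝ V]
    (V₁ : Type) [NormedAddCommGroup V₁] [NormedSpace ℝ V₁] {S B : Set Z} {F : Z → W}
    (hF : ContinuousOn F S) (G : Z × V → W × V) (hG : ContinuousOn G (S ×ˢ univ))
    (h0 : ∀ z ∈ S, ∀ v, G (z, v) ≠ 0)
    (hb : ∀ z ∈ S, ∀ v, (z ∈ B ∨ 1 ≤ ‖v‖) → G (z, v) = (F z, v)) :
    ∃ G' : Z × (V × V₁) → W × (V × V₁), ContinuousOn G' (S ×ˢ univ) ∧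
      (∀ z ∈ S, ∀ v, G' (z, v) ≠ 0) ∧
      ∀ z ∈ S, ∀ v, (z ∈ B ∨ 1 ≤ ‖v‖) → G' (z, v) = (F z, v) := by
  refine ⟨fun p => ((1 - min 1 ‖p.2.2‖) • (G (p.1, p.2.1)).1 + (min 1 ‖p.2.2‖) • F p.1,
    ((1 - min 1 ‖p.2.2‖) • (G (p.1, p.2.1)).2 + (min 1 ‖p.2.2‖) • p.2.1, p.2.2)), ?_, ?_, ?_⟩
  · have hu : ContinuousOn (fun p : Z × (V × V₁) => min (1 : ℝ) ‖p.2.2‖) (S ×ˢ univ) := by
      apply Continuous.continuousOn; fun_prop
    have hGc : ContinuousOn (fun p : Z × (V × V₁) => G (p.1, p.2.1)) (S ×ˢ univ) := by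
      refine hG.comp (f := fun p : Z × (V × V₁) => (p.1, p.2.1)) ?_ ?_
      · apply Continuous.continuousOn; fun_prop
      · intro p hp
        exact ⟨hp.1, mem_univ _⟩
    have hFc : ContinuousOn (fun p : Z × (V × V₁) => F p.1) (S ×ˢ univ) :=
      hF.comp continuous_fst.continuousOn fun p hp => hp.1
    have hv : ContinuousOn (fun p : Z × (V × V₁) => p.2.1) (S ×ˢ univ) := by
      apply Continuous.continuousOn; fun_prop
    have hw : ContinuousOn (fun p : Z × (V × V₁) => p.2.2) (S ×ˢ univ) := by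
      apply Continuous.continuousOn; fun_prop
    exact (((continuousOn_const.sub hu).smul hGc.fst).add (hu.smul hFc)).prodMk
      ((((continuousOn_const.sub hu).smul hGc.snd).add (hu.smul hv)).prodMk hw)
  · rintro z hz ⟨v, w⟩ h
    simp only [Prod.mk_eq_zero] at h
    obtain ⟨h1, h2, h3⟩ := h
    subst h3
    simp only [norm_zero, zero_le_one, min_eq_right, sub_zero, one_smul, zero_smul, add_zero] at h1 h2
    exact h0 z hz v (Prod.ext h1 h2)
  · rintro z hz ⟨v, w⟩ h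
    have hcase : (z ∈ B ∨ 1 ≤ ‖v‖) ∨ 1 ≤ ‖w‖ := by
      rcases h with h | h
      · exact Or.inl (Or.inl h)
      · rw [Prod.norm_mk, le_max_iff] at h
        rcases h with h | h
        · exact Or.inl (Or.inr h)
        · exact Or.inr h
    rcases hcase with h | h
    · simp only [hb z hz v h, ← add_smul, sub_add_cancel, one_smul]
    · simp only [min_eq_left h, sub_self, zero_smul, one_smul, zero_add]

/-- The same with the new variables in front (conjugate `wit_add` with the swap). -/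
theorem wit_add' {V : Type} [NormedAddCommGroup V] [NormedSpace ℝ V]
    (V₁ : Type) [NormedAddCommGroup V₁] [NormedSpace ℝ V₁] {S B : Set Z} {F : Z → W}
    (hF : ContinuousOn F S) (G : Z × V → W × V) (hG : ContinuousOn G (S ×ˢ univ))
    (h0 : ∀ z ∈ S, ∀ v, G (z, v) ≠ 0)
    (hb : ∀ z ∈ S, ∀ v, (z ∈ B ∨ 1 ≤ ‖v‖) → G (z, v) = (F z, v)) :
    ∃ G' : Z × (V₁ × V) → W × (V₁ × V), ContinuousOn G' (S ×ˢ univ) ∧
      (∀ z ∈ S, ∀ v, G' (z, v) ≠ 0) ∧
      ∀ z ∈ S, ∀ v, (z ∈ B ∨ 1 ≤ ‖v‖) → G' (z, v) = (F z, v) := by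
  obtain ⟨G₀, hG₀, hne, hbd⟩ := wit_add V₁ hF G hG h0 hb
  refine ⟨fun p => ((G₀ (p.1, p.2.swap)).1, (G₀ (p.1, p.2.swap)).2.swap), ?_, ?_, ?_⟩
  · have hc : ContinuousOn (fun p : Z × (V₁ × V) => G₀ (p.1, p.2.swap)) (S ×ˢ univ) := by
      refine hG₀.comp (f := fun p : Z × (V₁ × V) => (p.1, p.2.swap)) ?_ ?_
      · apply Continuous.continuousOn; fun_prop
      · intro p hp
        exact ⟨hp.1, mem_univ _⟩
    exact hc.fst.prodMk (continuous_swap.comp_continuousOn hc.snd)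
  · rintro z hz ⟨w, v⟩ h
    apply hne z hz (v, w)
    simp only [Prod.mk_eq_zero, Prod.swap_prod_mk] at h
    refine Prod.ext h.1 ?_
    have := congrArg Prod.swap h.2
    simpa using this
  · rintro z hz ⟨w, v⟩ h
    have h' : z ∈ B ∨ 1 ≤ ‖(v, w)‖ := by
      rcases h with h | h
      · exact Or.inl h
      · right
        rwa [Prod.norm_mk, max_comm, ← Prod.norm_mk]
    simp only [Prod.swap_prod_mk, hbd z hz (v, w) h']

/-- Changing the values away from `B`.  PROOF: let `V, G` be given for `F₀`.  Put, for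
`‖s‖ ≤ 1/2`, `G' (z, s) = ((G (z, 2 • s)).1, (1/2) • (G (z, 2 • s)).2)`, and for `‖s‖ ≥ 1/2`, with
`u = min 1 (2 * ‖s‖ - 1)`, `G' (z, s) = ((1 - u) • F₀ z + u • F₁ z, s)`.  On `‖s‖ = 1/2` both are
`(F₀ z, s)`.  Continuity: glueing over two closed sets (`Continuous.if_le`). -/
theorem StabNull.change {B : Set Z} {F₀ F₁ : Z → W} (hF₀ : Continuous F₀) (hF₁ : Continuous F₁)
    (hB : ∀ z ∈ B, F₀ z = F₁ z) (h : StabNull B F₀) : StabNull B F₁ := by
  classical
  obtain ⟨V, i1, i2, i3, G, hG, h0, hb⟩ := h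
  refine ⟨V, i1, i2, i3, fun p => if ‖p.2‖ ≤ 1 / 2 then
      ((G (p.1, (2 : ℝ) • p.2)).1, (1 / 2 : ℝ) • (G (p.1, (2 : ℝ) • p.2)).2)
    else ((1 - min 1 (2 * ‖p.2‖ - 1)) • F₀ p.1 + (min 1 (2 * ‖p.2‖ - 1)) • F₁ p.1, p.2), ?_, ?_, ?_⟩
  · refine Continuous.if_le ?_ ?_ (by fun_prop) continuous_const ?_
    · have hc : Continuous fun p : Z × V => G (p.1, (2 : ℝ) • p.2) :=
        hG.comp (continuous_fst.prodMk (continuous_snd.const_smul _))
      exact hc.fst.prodMk (hc.snd.const_smul _)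
    · have hu : Continuous fun p : Z × V => min (1 : ℝ) (2 * ‖p.2‖ - 1) := by fun_prop
      exact (((continuous_const.sub hu).smul (hF₀.comp continuous_fst)).add
        (hu.smul (hF₁.comp continuous_fst))).prodMk continuous_snd
    · rintro ⟨z, s⟩ hs
      simp only at hs
      have h1 : (1 : ℝ) ≤ ‖(2 : ℝ) • s‖ := by
        rw [norm_smul, hs]; norm_num
      have h2 : min (1 : ℝ) (2 * ‖s‖ - 1) = 0 := by
        rw [hs]; norm_num
      simp only [hb z _ (Or.inr h1), h2, smul_smul, sub_zero, one_smul, zero_smul, add_zero]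
      norm_num
  · rintro ⟨z, s⟩ h
    simp only at h
    split_ifs at h with hs
    · rw [Prod.mk_eq_zero] at h
      refine h0 (z, (2 : ℝ) • s) (Prod.ext h.1 ?_)
      have := h.2
      rw [smul_eq_zero] at this
      rcases this with h3 | h3
      · norm_num at h3
      · exact h3
    · rw [Prod.mk_eq_zero] at h
      apply hs
      rw [h.2, norm_zero]
      norm_num
  · intro z s h
    simp only
    split_ifs with hs
    · have hz : z ∈ B := by
        rcases h with h | h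
        · exact h
        · linarith
      rw [hb z _ (Or.inl hz), hB z hz]
      simp only [smul_smul]
      norm_num
    · rcases h with h | h
      · rw [hB z h, ← add_smul, sub_add_cancel, one_smul]
      · rw [min_eq_left (by linarith)]
        simp

end SMD
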