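import Pool.Agent.Lib_MP_33f7bb_an.Defs

/-! Piece SUSPA: monotonicity, flattening, transport. -/

open Set Filter Topology

namespace SMD

variable {Z : Type*} [TopologicalSpace Z] {W : Type*} [NormedAddCommGroup W] [NormedSpace ℝ W]

theorem stabNull_iff_on {B : Set Z} {F : Z → W} : StabNull B F ↔ StabNullOn univ B F := by
  constructor
  · rintro ⟨V, i1, i2, i3, G, h1, h2, h3⟩
    exact ⟨V, i1, i2, i3, G, h1.continuousOn, fun z _ v => h2 (z, v), fun z _ v h => h3 z v h⟩
  · rintro ⟨V, i1, i2, i3, G, h1, h2, h3⟩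
    refine ⟨V, i1, i2, i3, G, ?_, fun p => h2 p.1 (mem_univ _) p.2, fun z v h => h3 z (mem_univ _) v h⟩
    rw [univ_prod_univ] at h1
    exact continuousOn_univ.1 h1

theorem StabNull.mono {B B' : Set Z} {F : Z → W} (hB : B ⊆ B') (h : StabNull B' F) :
    StabNull B F := by
  obtain ⟨V, i1, i2, i3, G, h1, h2, h3⟩ := h
  exact ⟨V, i1, i2, i3, G, h1, h2, fun z v h => h3 z v (h.imp (fun h => hB h) id)⟩

theorem StabNullOn.mono {S S' B B' : Set Z} {F : Z → W} (hS : S ⊆ S') (hB : B ⊆ B')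
    (h : StabNullOn S' B' F) : StabNullOn S B F := by
  obtain ⟨V, i1, i2, i3, G, h1, h2, h3⟩ := h
  exact ⟨V, i1, i2, i3, G, h1.mono (prod_mono hS Subset.rfl), fun z hz v => h2 z (hS hz) v,
    fun z hz v h => h3 z (hS hz) v (h.imp (fun h => hB h) id)⟩

/-- Flattening.  PROOF: if `G` on `(Z × V₀) × V₁` is the witness, use `V₀ × V₁` and
`G' (z, (v, s)) = ((G ((z, v), s)).1.1, ((G ((z, v), s)).1.2, (G ((z, v), s)).2))`. -/
theorem StabNull.flatten {V₀ : Type} [NormedAddCommGroup V₀] [NormedSpace ℝ V₀]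
    [FiniteDimensional ℝ V₀] {B : Set Z} {F : Z → W}
    (h : StabNull {p : Z × V₀ | p.1 ∈ B ∨ 1 ≤ ‖p.2‖} (fun p : Z × V₀ => (F p.1, p.2))) :
    StabNull B F := by
  obtain ⟨V, i1, i2, i3, G, h1, h2, h3⟩ := h
  refine ⟨V₀ × V, inferInstance, inferInstance, inferInstance,
    fun p => ((G ((p.1, p.2.1), p.2.2)).1.1, ((G ((p.1, p.2.1), p.2.2)).1.2, (G ((p.1, p.2.1), p.2.2)).2)),
    by fun_prop, ?_, ?_⟩
  · rintro ⟨z, v, s⟩ h0
    apply h2 ((z, v), s)
    simp only [Prod.mk_eq_zero] at h0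
    exact Prod.ext (Prod.ext h0.1 h0.2.1) h0.2.2
  · rintro z ⟨v, s⟩ hz
    have h4 : G ((z, v), s) = ((F z, v), s) := by
      apply h3 (z, v) s
      rcases hz with hz | hz
      · exact Or.inl (Or.inl hz)
      · rw [Prod.norm_def, le_max_iff] at hz
        rcases hz with hz | hz
        · exact Or.inl (Or.inr hz)
        · exact Or.inr hz
    simp only [h4]

/-- Transport along a continuous map: if `e : Z' → Z` is continuous, maps `S'` into `S` and
`B'` (inside `S'`) into `B`, then stable triviality pulls back. -/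
theorem StabNullOn.comp {Z' : Type*} [TopologicalSpace Z'] {S B : Set Z} {S' B' : Set Z'}
    {F : Z → W} (e : Z' → Z) (he : ContinuousOn e S') (hS : MapsTo e S' S)
    (hB : ∀ z ∈ S', z ∈ B' → e z ∈ B) (h : StabNullOn S B F) :
    StabNullOn S' B' (fun z => F (e z)) := by
  obtain ⟨V, i1, i2, i3, G, h1, h2, h3⟩ := h
  refine ⟨V, i1, i2, i3, fun p => G (e p.1, p.2), ?_, fun z hz v => h2 (e z) (hS hz) v,
    fun z hz v h => h3 (e z) (hS hz) v (h.imp (fun h => hB z hz h) id)⟩
  refine h1.comp (f := fun p : Z' × V => (e p.1, p.2)) ?_ ?_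
  · exact (he.comp continuousOn_fst fun p hp => hp.1).prodMk continuousOn_snd
  · intro p hp
    exact ⟨hS hp.1, mem_univ _⟩

theorem StabNull.comp {Z' : Type*} [TopologicalSpace Z'] {B : Set Z} {B' : Set Z'}
    {F : Z → W} (e : Z' → Z) (he : Continuous e)
    (hB : ∀ z ∈ B', e z ∈ B) (h : StabNull B F) :
    StabNull B' (fun z => F (e z)) := by
  rw [stabNull_iff_on] at h ⊢
  exact h.comp e he.continuousOn (mapsTo_univ _ _) fun z _ hz => hB z hz

/-- Post-composition with a linear homeomorphism of the target. -/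
theorem StabNullOn.map {W' : Type*} [NormedAddCommGroup W'] [NormedSpace ℝ W'] {S B : Set Z}
    {F : Z → W} (L : W ≃L[ℝ] W') (h : StabNullOn S B F) :
    StabNullOn S B (fun z => L (F z)) := by
  obtain ⟨V, i1, i2, i3, G, h1, h2, h3⟩ := h
  refine ⟨V, i1, i2, i3, fun p => (L (G p).1, (G p).2), ?_, ?_, ?_⟩
  · exact (L.continuous.comp_continuousOn h1.fst).prodMk h1.snd
  · intro z hz v h0
    apply h2 z hz v
    simp only [Prod.mk_eq_zero] at h0
    refine Prod.ext ?_ h0.2
    have h4 := h0.1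
    rwa [map_eq_zero_iff L L.injective] at h4
  · intro z hz v h
    simp only [h3 z hz v h]

end SMD
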