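import Pool.Agent.Lib_MP_33f7bb_an.T2A

/-! Piece T2B: adding one more factor. -/

open Set Filter Topology

namespace SMD

/-- The class of a colour. -/
def clsF (k b r : ℕ) (a : Fin (r + 1)) : Fin (k + 1) :=
  ⟨min k ((a : ℕ) / b), Nat.lt_succ_of_le (min_le_left _ _)⟩

theorem card_colour {I : Type} {k b r : ℕ} (hb : b * (k + 1) ≤ r + 1)
    (col : I → Fin (r + 1)) (T : Finset I) (hinj : Set.InjOn col T) (m : Fin (k + 1))
    (hm : ∀ i ∈ T, clsF k b r (col i) ≠ m) : T.card + b ≤ r + 1 := by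
  classical
  have hlt : ∀ s : Fin b, (m : ℕ) * b + s < r + 1 := by
    intro s
    have h1 : (m : ℕ) ≤ k := Nat.lt_succ_iff.1 m.2
    have h2 : (m : ℕ) * b ≤ k * b := Nat.mul_le_mul_right _ h1
    have h3 : b * (k + 1) = k * b + b := by ring
    have := s.2
    omega
  let ψ : Fin b → Fin (r + 1) := fun s => ⟨(m : ℕ) * b + s, hlt s⟩
  have hψ : Function.Injective ψ := by
    intro s s' h
    have h1 : (m : ℕ) * b + s = (m : ℕ) * b + s' := congrArg Fin.val h
    ext
    omega
  have hcl : ∀ s, clsF k b r (ψ s) = m := by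
    intro s
    have hb0 : 0 < b := lt_of_le_of_lt (Nat.zero_le _) s.2
    ext
    show min k (((m : ℕ) * b + s) / b) = m
    have h1 : ((m : ℕ) * b + s) / b = m := by
      rw [Nat.add_comm, Nat.add_mul_div_right _ _ hb0, Nat.div_eq_of_lt s.2, zero_add]
    rw [h1]
    exact min_eq_right (Nat.lt_succ_iff.1 m.2)
  have hdisj : Disjoint (T.image col) (Finset.univ.image ψ) := by
    rw [Finset.disjoint_left]
    rintro a ha ha'
    obtain ⟨i, hi, rfl⟩ := Finset.mem_image.1 ha
    obtain ⟨s, _, hs⟩ := Finset.mem_image.1 ha'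
    exact hm i hi (hs ▸ hcl s)
  have h2 := Finset.card_le_univ (T.image col ∪ Finset.univ.image ψ)
  rw [Finset.card_union_of_disjoint hdisj, Finset.card_image_of_injOn hinj,
    Finset.card_image_of_injective _ hψ] at h2
  simpa using h2

theorem cont_quot {Z : Type*} [TopologicalSpace Z] {t θ φ : Z → ℝ} (ht : Continuous t)
    (hθ : Continuous θ) (hφ : Continuous φ) (ht0 : ∀ z, 0 ≤ t z) (hφ0 : ∀ z, 0 ≤ φ z)
    (hφθ : ∀ z, φ z ≤ θ z) (hb : ∀ z, θ z = 0 → t z = 0) :
    Continuous fun z => t z * φ z / θ z := by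
  rw [continuous_iff_continuousAt]
  intro z₀
  by_cases h : θ z₀ = 0
  · have h1 : t z₀ = 0 := hb z₀ h
    have h2 : t z₀ * φ z₀ / θ z₀ = 0 := by rw [h1]; simp
    have h3 : Tendsto t (𝓝 z₀) (𝓝 0) := by
      have := ht.continuousAt (x := z₀)
      rw [ContinuousAt, h1] at this
      exact this
    rw [ContinuousAt, h2]
    refine squeeze_zero (fun z => ?_) (fun z => ?_) h3
    · exact div_nonneg (mul_nonneg (ht0 z) (hφ0 z)) ((hφ0 z).trans (hφθ z))
    · rcases eq_or_lt_of_le ((hφ0 z).trans (hφθ z)) with h4 | h4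
      · rw [← h4, div_zero]
        exact ht0 z
      · rw [div_le_iff₀ h4]
        exact mul_le_mul_of_nonneg_left (hφθ z) (ht0 z)
  · exact ((ht.mul hφ).continuousAt).div hθ.continuousAt h

theorem car.abs_le {M : ℕ} {q p : Fin M → ℝ} (h : car q p) (l : Fin M) : |q l - p l| ≤ 1 := by
  have h1 := (h l).1
  have h2 := (h l).2
  have h3 := Int.floor_le (q l)
  have h4 := Int.le_ceil (q l)
  have h5 : (⌈q l⌉ : ℝ) ≤ ⌊q l⌋ + 1 := by exact_mod_cast Int.ceil_le_floor_add_one (q l)
  rw [abs_sub_le_iff]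
  constructor <;> linarith

theorem car.floor_mem {M : ℕ} {q p : Fin M → ℝ} (h : car q p) {L : ℕ} (hL : ∀ l, |q l| ≤ L)
    (l : Fin M) : ⌊p l⌋ ∈ Finset.Icc (-(L : ℤ) - 1) (L + 1) := by
  have h1 := (h l).1
  have h2 := (h l).2
  have h3 := _root_.abs_le.1 (hL l)
  have h4 : -(L : ℤ) ≤ ⌊q l⌋ := Int.le_floor.2 (by push_cast; exact h3.1)
  have h5 : ⌈q l⌉ ≤ (L : ℤ) := Int.ceil_le.2 (by push_cast; exact h3.2)
  have h6 : ⌊q l⌋ ≤ ⌊p l⌋ := Int.le_floor.2 h1
  have h7 : ⌊p l⌋ ≤ ⌈q l⌉ := by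
    have : (⌊p l⌋ : ℝ) ≤ ⌈q l⌉ := (Int.floor_le _).trans h2
    exact_mod_cast this
  rw [Finset.mem_Icc]
  constructor <;> omega

theorem polyDimLE_of_finite {κ : Type} [Fintype κ] {S : Set (κ → ℝ)} {r : ℕ} {Ω : Type*}
    [Finite Ω] (A : Ω → AffineSubspace ℝ (κ → ℝ))
    (h1 : ∀ ω, Module.finrank ℝ (A ω).direction ≤ r) (h2 : ∀ x ∈ S, ∃ ω, x ∈ A ω) :
    PolyDimLE S r := by
  obtain ⟨n, ⟨e⟩⟩ := Finite.exists_equiv_fin Ω
  refine ⟨n, fun i => A (e.symm i), fun i => h1 _, fun x hx => ?_⟩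
  obtain ⟨ω, hω⟩ := h2 x hx
  exact ⟨e ω, by simpa using hω⟩

/-- PROOF. Let `I, col, φ` be the coloured map of `Y`; `cls i = min k (col i / b)` in `Fin (k + 1)`
(for `b = 0` the quotient is `0`).  `θ y = (∑_{cls i = m} φ y i)_m ∈ stdSimplex`, continuous.  With
`P, T` from `GoodS`, put `p (x, y) = P (x, θ y)`, `t' = T (x, θ y)` and
`q (x, y) i = t' (cls i) * φ y i / θ y (cls i)` (Lean division by zero is `0`).  `q` is continuous:
where `θ y (cls i) ≠ 0` clear; where `θ y₀ m = 0` (`m = cls i`) we have `0 ≤ q ≤ t' m` (as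
`φ y i ≤ θ y m`) and `T (x₀, θ y₀) m = 0`.  `∑ q = 1`: the class `m` contributes `t' m` if `θ y m ≠ 0`,
and `t' m = 0` if `θ y m = 0`.  `q i > 0 → φ y i > 0`.  `g = Sum.elim p q : X × Y → (Fin M ⊕ I → ℝ)`.
* fibres: if `g (x, y) = g (x', y')` then `car (f x) p` and `car (f x') p` give
`|f x l - f x' l| ≤ 2`, so `dist x x' < ε`; some `q i > 0`, so `φ y i > 0` and `φ y' i > 0` and
`dist y y' < ε`; the distance of `X × Y` is the maximum.
* `PolyDimLE`: the support `T` of `q` has at most one element of each colour.  If `p ∈ Sk M c`: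
`J` = noninteger coordinates of `p`, `#J ≤ c`, `#T ≤ r + 1`, dimension `≤ c + r`.  Otherwise some
`t' m = 0`, so `T` has no element in the class `m`, whose number of colours is at least `b`
(for `m < k` the colours `m b, ..., m b + b - 1`, for `m = k` the colours `≥ k b`; `b (k+1) ≤ r+1`), so
`#T ≤ r + 1 - b`; take `J = univ`: dimension `≤ M + (r + 1 - b - 1) ≤ c + r` (`T ≠ ∅` as `∑ q = 1`; if
`r + 1 - b = 0` there is no such point).  The family of all `exists_affine J a T` with `#J + (#T - 1)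
≤ c + r` and `|a l| ≤ L + 1` is finite (index it by a `Fintype` and `Fintype.equivFin`). -/
theorem prod_step {X Y : Type*} [MetricSpace X] [CompactSpace X] [MetricSpace Y] [CompactSpace Y]
    {M k c r b : ℕ} {ε : ℝ} (f : X → (Fin M → ℝ)) (hL : ∃ L : ℕ, ∀ x l, |f x l| ≤ L)
    (hf : ∀ x x', (∀ l, |f x l - f x' l| ≤ 2) → dist x x' < ε) (H : GoodS f (Sk M c) k)
    (hY : Col Y ε r) (hb : b * (k + 1) ≤ r + 1) (hM : M ≤ b + c) : PM (X × Y) ε (c + r) := by
  classical
  obtain ⟨L, hL⟩ := hL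
  obtain ⟨I, hI, col, φ, hφ, hφ0, hφ1, hcol, hdist⟩ := hY
  obtain ⟨P, T, hP, hT, hPT, hcar, hbd⟩ := H
  -- the classes
  let cls : I → Fin (k + 1) := fun i => clsF k b r (col i)
  let θ' : Y → Fin (k + 1) → ℝ := fun y m => ∑ i with cls i = m, φ y i
  have hθ'mem : ∀ y, θ' y ∈ stdSimplex ℝ (Fin (k + 1)) := by
    intro y
    refine ⟨fun m => Finset.sum_nonneg fun i _ => hφ0 y i, ?_⟩
    have := Finset.sum_fiberwise (Finset.univ : Finset I) cls (φ y)
    rw [← hφ1 y, ← this]
  let θ : Y → stdSimplex ℝ (Fin (k + 1)) := fun y => ⟨θ' y, hθ'mem y⟩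
  have hφc : ∀ i, Continuous fun y => φ y i := fun i => (continuous_apply i).comp hφ
  have hθ'c : ∀ m, Continuous fun y => θ' y m := by
    intro m
    exact continuous_finsetSum _ fun i _ => hφc i
  have hθ : Continuous θ := Continuous.subtype_mk (continuous_pi hθ'c) _
  let W : X × Y → X × stdSimplex ℝ (Fin (k + 1)) := fun z => (z.1, θ z.2)
  have hW : Continuous W := continuous_fst.prodMk (hθ.comp continuous_snd)
  let t' : X × Y → Fin (k + 1) → ℝ := fun z m => (T (W z) : Fin (k + 1) → ℝ) m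
  have ht'c : ∀ m, Continuous fun z => t' z m := by
    intro m
    exact (continuous_apply m).comp (continuous_subtype_val.comp (hT.comp hW))
  have ht'0 : ∀ z m, 0 ≤ t' z m := fun z m => (T (W z)).2.1 m
  have ht'1 : ∀ z, ∑ m, t' z m = 1 := fun z => (T (W z)).2.2
  have ht'b : ∀ z m, θ' z.2 m = 0 → t' z m = 0 := fun z m h => hbd z.1 (θ z.2) m h
  have hφθ : ∀ y i, φ y i ≤ θ' y (cls i) := by
    intro y i
    refine Finset.single_le_sum (f := fun i => φ y i) (fun i _ => hφ0 y i) ?_
    simp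
  let q : X × Y → I → ℝ := fun z i => t' z (cls i) * φ z.2 i / θ' z.2 (cls i)
  have hqc : ∀ i, Continuous fun z => q z i := by
    intro i
    exact cont_quot (ht'c (cls i)) ((hθ'c (cls i)).comp continuous_snd)
      ((hφc i).comp continuous_snd) (fun z => ht'0 z _) (fun z => hφ0 z.2 i)
      (fun z => hφθ z.2 i) (fun z h => ht'b z _ h)
  have hq0 : ∀ z i, 0 ≤ q z i := by
    intro z i
    exact div_nonneg (mul_nonneg (ht'0 z _) (hφ0 z.2 i)) ((hφ0 z.2 i).trans (hφθ z.2 i))
  have hq1 : ∀ z, ∑ i, q z i = 1 := by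
    intro z
    rw [← Finset.sum_fiberwise (Finset.univ : Finset I) cls (q z), ← ht'1 z]
    refine Finset.sum_congr rfl fun m _ => ?_
    have h1 : ∑ i with cls i = m, q z i = ∑ i with cls i = m, t' z m / θ' z.2 m * φ z.2 i := by
      refine Finset.sum_congr rfl fun i hi => ?_
      have hi' : cls i = m := (Finset.mem_filter.1 hi).2
      show t' z (cls i) * φ z.2 i / θ' z.2 (cls i) = _
      rw [hi']
      ring
    rw [h1, ← Finset.mul_sum]
    show t' z m / θ' z.2 m * θ' z.2 m = t' z m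
    by_cases h : θ' z.2 m = 0
    · rw [h, ht'b z m h]
      simp
    · rw [div_mul_cancel₀ _ h]
  have hqφ : ∀ z i, q z i ≠ 0 → 0 < φ z.2 i := by
    intro z i h
    refine lt_of_le_of_ne (hφ0 z.2 i) fun h0 => h ?_
    show t' z (cls i) * φ z.2 i / θ' z.2 (cls i) = 0
    rw [← h0]
    simp
  have hqex : ∀ z, ∃ i, q z i ≠ 0 := by
    intro z
    by_contra hcon
    push Not at hcon
    have := hq1 z
    simp [hcon] at this
  refine ⟨Fin M ⊕ I, inferInstance, fun z => Sum.elim (P (W z)) (q z), ?_, ?_, ?_⟩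
  · refine continuous_pi fun a => ?_
    rcases a with l | i
    · exact (continuous_apply l).comp (hP.comp hW)
    · exact hqc i
  · -- the dimension
    let Ω := {ω : Finset (Fin M) × (Fin M → (Finset.Icc (-(L : ℤ) - 1) (L + 1) : Finset ℤ)) ×
      Finset I // ω.1.card + (ω.2.2.card - 1) ≤ c + r}
    refine polyDimLE_of_finite (Ω := Ω) (fun ω => Classical.choose
      (exists_affine ω.1.1 (fun l => (ω.1.2.1 l : ℤ)) ω.1.2.2)) ?_ ?_
    · intro ω
      exact ((Classical.choose_spec
        (exists_affine ω.1.1 (fun l => (ω.1.2.1 l : ℤ)) ω.1.2.2)).1).trans ω.2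
    · rintro _ ⟨z, rfl⟩
      set T₀ : Finset I := Finset.univ.filter (fun i => q z i ≠ 0) with hT₀
      have hT₀inj : Set.InjOn col T₀ := by
        intro i hi i' hi' h
        have h1 : q z i ≠ 0 := (Finset.mem_filter.1 hi).2
        have h2 : q z i' ≠ 0 := (Finset.mem_filter.1 hi').2
        exact hcol z.2 i i' (hqφ z i h1) (hqφ z i' h2) h
      have hT₀v : ∀ v ∉ T₀, q z v = 0 := by
        intro v hv
        by_contra h
        exact hv (Finset.mem_filter.2 ⟨Finset.mem_univ _, h⟩)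
      have hT₀pos : 0 < T₀.card := by
        obtain ⟨i, hi⟩ := hqex z
        exact Finset.card_pos.2 ⟨i, Finset.mem_filter.2 ⟨Finset.mem_univ _, hi⟩⟩
      have hT₀r : T₀.card ≤ r + 1 := by
        have := Finset.card_le_univ (T₀.image col)
        rw [Finset.card_image_of_injOn hT₀inj] at this
        simpa using this
      have hcarz : car (f z.1) (P (W z)) := hcar (W z)
      have hmem : ∀ l, ⌊P (W z) l⌋ ∈ Finset.Icc (-(L : ℤ) - 1) (L + 1) :=
        hcarz.floor_mem (fun l => hL z.1 l)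
      rcases hPT (W z) with hsk | ⟨m, hm⟩
      · have hcard : (Finset.univ.filter (fun l : Fin M => ∀ n : ℤ, P (W z) l ≠ n)).card ≤ c := by
          have h1 : {l : Fin M | ∀ n : ℤ, P (W z) l ≠ n}.ncard ≤ c := hsk
          rw [← Set.ncard_coe_finset]
          refine le_trans (le_of_eq ?_) h1
          congr 1
          ext l
          simp
        refine ⟨⟨(Finset.univ.filter (fun l : Fin M => ∀ n : ℤ, P (W z) l ≠ n),
          (fun l => ⟨⌊P (W z) l⌋, hmem l⟩, T₀)), ?_⟩, ?_⟩
        · show (Finset.univ.filter (fun l : Fin M => ∀ n : ℤ, P (W z) l ≠ n)).card +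
            (T₀.card - 1) ≤ c + r
          omega
        · refine (Classical.choose_spec (exists_affine _ _ _)).2 _ ?_ ?_ ?_
          · intro l hl
            have hl' : ∃ n : ℤ, P (W z) l = n := by
              by_contra hcon
              push Not at hcon
              exact hl (Finset.mem_filter.2 ⟨Finset.mem_univ _, hcon⟩)
            obtain ⟨n, hn⟩ := hl'
            show P (W z) l = ((⌊P (W z) l⌋ : ℤ) : ℝ)
            rw [hn, Int.floor_intCast]
          · intro v hv
            exact hT₀v v hv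
          · exact hq1 z
      · have hcard : T₀.card + b ≤ r + 1 := by
          refine card_colour hb col T₀ hT₀inj m ?_
          intro i hi him
          have h1 : q z i ≠ 0 := (Finset.mem_filter.1 hi).2
          apply h1
          show t' z (cls i) * φ z.2 i / θ' z.2 (cls i) = 0
          have h2 : cls i = m := him
          have h3 : t' z m = 0 := hm
          rw [h2, h3]
          simp
        refine ⟨⟨(Finset.univ, (fun l => ⟨⌊P (W z) l⌋, hmem l⟩, T₀)), ?_⟩, ?_⟩
        · show (Finset.univ : Finset (Fin M)).card + (T₀.card - 1) ≤ c + r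
          rw [Finset.card_univ, Fintype.card_fin]
          omega
        · refine (Classical.choose_spec (exists_affine _ _ _)).2 _ ?_ ?_ ?_
          · intro l hl
            exact absurd (Finset.mem_univ l) hl
          · intro v hv
            exact hT₀v v hv
          · exact hq1 z
  · -- the fibres
    rintro ⟨x, y⟩ ⟨x', y'⟩ hg
    have hp : ∀ l, P (W (x, y)) l = P (W (x', y')) l := fun l => congrFun hg (Sum.inl l)
    have hqq : ∀ i, q (x, y) i = q (x', y') i := fun i => congrFun hg (Sum.inr i)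
    rw [Prod.dist_eq]
    refine max_lt ?_ ?_
    · refine hf x x' fun l => ?_
      have h1 := (hcar (W (x, y))).abs_le l
      have h2 := (hcar (W (x', y'))).abs_le l
      have h1' : |f x l - P (W (x, y)) l| ≤ 1 := h1
      have h2' : |f x' l - P (W (x', y')) l| ≤ 1 := h2
      rw [← hp l] at h2'
      rw [abs_le] at *
      constructor <;> linarith [h1'.1, h1'.2, h2'.1, h2'.2]
    · obtain ⟨i, hi⟩ := hqex (x, y)
      have h1 : 0 < φ y i := hqφ (x, y) i hi
      have h2 : 0 < φ y' i := hqφ (x', y') i (by rw [← hqq i]; exact hi)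
      exact hdist y y' i h1 h2

end SMD
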