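import Pool.Agent.Lib_MP_33f7bb_an.T2A
import Pool.Agent.Lib_MP_33f7bb_an.T2B
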