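import Pool.Agent.Lib_MP_33f7bb_an.Defs

/-! Piece T2A: the affine subspaces. -/

open Set Filter Topology

namespace SMD

/-- directions of the affine subspaces -/
def T2A_dir {M : ℕ} {I : Type} [Fintype I] (J : Finset (Fin M)) (T : Finset I) :
    Submodule ℝ (Fin M ⊕ I → ℝ) where
  carrier := {x | (∀ l ∉ J, x (Sum.inl l) = 0) ∧ (∀ v ∉ T, x (Sum.inr v) = 0) ∧ ∑ v, x (Sum.inr v) = 0}
  add_mem' := by
    rintro x y ⟨h1, h2, h3⟩ ⟨h4, h5, h6⟩
    refine ⟨fun l hl => ?_, fun v hv => ?_, ?_⟩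
    · rw [Pi.add_apply, h1 l hl, h4 l hl, add_zero]
    · rw [Pi.add_apply, h2 v hv, h5 v hv, add_zero]
    · simp only [Pi.add_apply]
      rw [Finset.sum_add_distrib, h3, h6, add_zero]
  zero_mem' := by
    refine ⟨fun l _ => rfl, fun v _ => rfl, ?_⟩
    simp
  smul_mem' := by
    rintro c x ⟨h1, h2, h3⟩
    refine ⟨fun l hl => ?_, fun v hv => ?_, ?_⟩
    · rw [Pi.smul_apply, h1 l hl, smul_zero]
    · rw [Pi.smul_apply, h2 v hv, smul_zero]
    · simp only [Pi.smul_apply]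
      rw [← Finset.smul_sum, h3, smul_zero]

theorem T2A_mem {M : ℕ} {I : Type} [Fintype I] (J : Finset (Fin M)) (T : Finset I)
    (x : Fin M ⊕ I → ℝ) : x ∈ T2A_dir J T ↔ (∀ l ∉ J, x (Sum.inl l) = 0) ∧
      (∀ v ∉ T, x (Sum.inr v) = 0) ∧ ∑ v, x (Sum.inr v) = 0 := Iff.rfl

theorem T2A_finrank {M : ℕ} {I : Type} [Fintype I] [DecidableEq I] (J : Finset (Fin M)) (T : Finset I)
    (t₀ : I) (ht : t₀ ∈ T) : Module.finrank ℝ (T2A_dir J T) ≤ J.card + (T.card - 1) := by
  let ρ : (Fin M ⊕ I → ℝ) →ₗ[ℝ] (({l // l ∈ J} → ℝ) × ({v // v ∈ T.erase t₀} → ℝ)) :=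
    { toFun := fun x => (fun l => x (Sum.inl l.1), fun v => x (Sum.inr v.1))
      map_add' := fun _ _ => rfl
      map_smul' := fun _ _ => rfl }
  have hinj : Function.Injective (ρ.domRestrict (T2A_dir J T)) := by
    rw [← LinearMap.ker_eq_bot, LinearMap.ker_eq_bot']
    rintro ⟨x, hx⟩ h
    rw [T2A_mem] at hx
    obtain ⟨h1, h2, h3⟩ := hx
    have e : ρ x = 0 := h
    have e1 : ∀ l ∈ J, x (Sum.inl l) = 0 := fun l hl => congrFun (congrArg Prod.fst e) ⟨l, hl⟩
    have e2 : ∀ v ∈ T.erase t₀, x (Sum.inr v) = 0 := fun v hv => congrFun (congrArg Prod.snd e) ⟨v, hv⟩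
    have e3 : ∀ v, v ≠ t₀ → x (Sum.inr v) = 0 := by
      intro v hv
      by_cases hT : v ∈ T
      · exact e2 v (Finset.mem_erase.2 ⟨hv, hT⟩)
      · exact h2 v hT
    have e4 : x (Sum.inr t₀) = 0 := by
      rw [← h3]
      exact (Finset.sum_eq_single t₀ (fun v _ hv => e3 v hv) (fun h => absurd (Finset.mem_univ _) h)).symm
    apply Subtype.ext
    funext s
    rcases s with l | v
    · by_cases hl : l ∈ J
      · exact e1 l hl
      · exact h1 l hl
    · by_cases hv : v = t₀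
      · rw [hv]
        exact e4
      · exact e3 v hv
  have h := LinearMap.finrank_le_finrank_of_injective hinj
  rw [Module.finrank_prod, Module.finrank_pi, Module.finrank_pi] at h
  rw [Fintype.card_coe, Fintype.card_coe, Finset.card_erase_of_mem ht] at h
  exact h

/-- The affine subspaces used: coordinates `inl l`, `l ∉ J`, are fixed, the coordinates `inr v`,
`v ∉ T`, vanish, and the sum of the coordinates `inr v` is `1`.
PROOF. If the set is empty use `⊥` (or any point).  Otherwise `AffineSubspace.mk' p D` with `p` in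
the set and `D = {x | x (inl l) = 0 for l ∉ J, x (inr v) = 0 for v ∉ T, ∑ v, x (inr v) = 0}`; for
`t₀ ∈ T` the restriction of `D` to the coordinates `inl l`, `l ∈ J` and `inr v`, `v ∈ T.erase t₀` is
injective, so `finrank D ≤ #J + #T - 1`.  (If `T = ∅` the set is empty.) -/
theorem exists_affine {M : ℕ} {I : Type} [Fintype I] [DecidableEq I] (J : Finset (Fin M))
    (a : Fin M → ℤ) (T : Finset I) :
    ∃ A : AffineSubspace ℝ (Fin M ⊕ I → ℝ), Module.finrank ℝ A.direction ≤ J.card + (T.card - 1) ∧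
      ∀ x : Fin M ⊕ I → ℝ, (∀ l ∉ J, x (Sum.inl l) = a l) → (∀ v ∉ T, x (Sum.inr v) = 0) →
        ∑ v, x (Sum.inr v) = 1 → x ∈ A := by
  rcases T.eq_empty_or_nonempty with hT | ⟨t₀, ht⟩
  · refine ⟨⊥, ?_, ?_⟩
    · rw [AffineSubspace.direction_bot, finrank_bot]
      exact Nat.zero_le _
    · intro x _ h2 h3
      exfalso
      rw [Finset.sum_eq_zero (fun v _ => h2 v (by simp [hT]))] at h3
      exact zero_ne_one h3
  · refine ⟨AffineSubspace.mk' (Sum.elim (fun l => (a l : ℝ)) (fun v => if v = t₀ then 1 else 0)) (T2A_dir J T), ?_, ?_⟩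
    · rw [AffineSubspace.direction_mk']
      exact T2A_finrank J T t₀ ht
    · intro x h1 h2 h3
      rw [AffineSubspace.mem_mk', vsub_eq_sub, T2A_mem]
      refine ⟨fun l hl => ?_, fun v hv => ?_, ?_⟩
      · simp [h1 l hl]
      · have : v ≠ t₀ := fun h => hv (h ▸ ht)
        simp [h2 v hv, this]
      · simp only [Pi.sub_apply, Sum.elim_inr]
        rw [Finset.sum_sub_distrib, h3]
        simp

end SMD
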